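import Pool.Agent.Lib.MP_9599cf_nt.Defs

/-! # Upper bounds for the Dickson polynomials -/

set_option autoImplicit false

namespace SalemAb

open Polynomial

/-- `v³ - 2 v² - v + 1` is increasing for `v ≥ 2` and positive at `2.247`. -/
theorem lt_2247 {v : ℝ} (h2 : 2 < v) (h : v ^ 3 - 2 * v ^ 2 - v + 1 < 0) : v < 2.247 := by
  by_contra hv
  have h1 : (0.247 : ℝ) ≤ v - 2 := by linarith [not_lt.1 hv]
  have h3 : (0.247 : ℝ) ^ 2 ≤ (v - 2) ^ 2 := pow_le_pow_left₀ (by norm_num) h1 2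
  have h4 : (0.247 : ℝ) ^ 3 ≤ (v - 2) ^ 3 := pow_le_pow_left₀ (by norm_num) h1 3
  have h5 : v ^ 3 - 2 * v ^ 2 - v + 1 =
      -1 + 3 * (v - 2) + 4 * (v - 2) ^ 2 + (v - 2) ^ 3 := by ring
  norm_num at h3 h4
  linarith

private theorem numB_pow {v : ℝ} (h2 : 2 < v) (h : v < 2.247) (k : ℕ) :
    (v - 2) ^ k ≤ (0.247 : ℝ) ^ k :=
  pow_le_pow_left₀ (by linarith) (by linarith) k

/-- `D_5(v) = v ((v² - 5/2)² - 5/4)`, increasing for `v ≥ 2`; `D_5(2.247) = 11.79…`. -/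
theorem D5_ub {v : ℝ} (h2 : 2 < v) (h : v < 2.247) : aeval v D5 ≤ 11.8 := by
  rw [aeval_D5]
  have e : v ^ 5 - 5 * v ^ 3 + 5 * v = 2 + 25 * (v - 2) ^ 1 + 50 * (v - 2) ^ 2
      + 35 * (v - 2) ^ 3 + 10 * (v - 2) ^ 4 + (v - 2) ^ 5 := by ring
  have h1 := numB_pow h2 h 1
  have h2' := numB_pow h2 h 2
  have h3 := numB_pow h2 h 3
  have h4 := numB_pow h2 h 4
  have h5 := numB_pow h2 h 5
  have e2 : (2 : ℝ) + 25 * 0.247 ^ 1 + 50 * 0.247 ^ 2 + 35 * 0.247 ^ 3 + 10 * 0.247 ^ 4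
      + 0.247 ^ 5 ≤ 11.8 := by norm_num
  rw [e]
  linarith

/-- `D_7(v) = v (u³ - 7 u² + 14 u - 7)`, `u = v²`, increasing for `v ≥ 2`; `D_7(2.247) = 31.34…`. -/
theorem D7_ub {v : ℝ} (h2 : 2 < v) (h : v < 2.247) : aeval v D7 ≤ 31.4 := by
  rw [aeval_D7]
  have e : v ^ 7 - 7 * v ^ 5 + 14 * v ^ 3 - 7 * v = 2 + 49 * (v - 2) ^ 1 + 196 * (v - 2) ^ 2
      + 294 * (v - 2) ^ 3 + 210 * (v - 2) ^ 4 + 77 * (v - 2) ^ 5 + 14 * (v - 2) ^ 6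
      + (v - 2) ^ 7 := by ring
  have h1 := numB_pow h2 h 1
  have h2' := numB_pow h2 h 2
  have h3 := numB_pow h2 h 3
  have h4 := numB_pow h2 h 4
  have h5 := numB_pow h2 h 5
  have h6 := numB_pow h2 h 6
  have h7 := numB_pow h2 h 7
  have e2 : (2 : ℝ) + 49 * 0.247 ^ 1 + 196 * 0.247 ^ 2 + 294 * 0.247 ^ 3 + 210 * 0.247 ^ 4
      + 77 * 0.247 ^ 5 + 14 * 0.247 ^ 6 + 0.247 ^ 7 ≤ 31.4 := by norm_num
  rw [e]
  linarith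

/-- `D_11(v) = v (u⁵ - 11 u⁴ + 44 u³ - 77 u² + 55 u - 11)`, `u = v²`, increasing for `v ≥ 2`;
`D_11(2.247) = 224.1…` (a better bound than `230` is not needed). -/
theorem D11_ub {v : ℝ} (h2 : 2 < v) (h : v < 2.247) : aeval v D11 ≤ 230 := by
  rw [aeval_D11]
  have e : v ^ 11 - 11 * v ^ 9 + 44 * v ^ 7 - 77 * v ^ 5 + 55 * v ^ 3 - 11 * v =
      2 + 121 * (v - 2) ^ 1 + 1210 * (v - 2) ^ 2 + 4719 * (v - 2) ^ 3 + 9438 * (v - 2) ^ 4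
      + 11011 * (v - 2) ^ 5 + 8008 * (v - 2) ^ 6 + 3740 * (v - 2) ^ 7 + 1122 * (v - 2) ^ 8
      + 209 * (v - 2) ^ 9 + 22 * (v - 2) ^ 10 + (v - 2) ^ 11 := by ring
  have h1 := numB_pow h2 h 1
  have h2' := numB_pow h2 h 2
  have h3 := numB_pow h2 h 3
  have h4 := numB_pow h2 h 4
  have h5 := numB_pow h2 h 5
  have h6 := numB_pow h2 h 6
  have h7 := numB_pow h2 h 7
  have h8 := numB_pow h2 h 8
  have h9 := numB_pow h2 h 9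
  have h10 := numB_pow h2 h 10
  have h11 := numB_pow h2 h 11
  have e2 : (2 : ℝ) + 121 * 0.247 ^ 1 + 1210 * 0.247 ^ 2 + 4719 * 0.247 ^ 3 + 9438 * 0.247 ^ 4
      + 11011 * 0.247 ^ 5 + 8008 * 0.247 ^ 6 + 3740 * 0.247 ^ 7 + 1122 * 0.247 ^ 8
      + 209 * 0.247 ^ 9 + 22 * 0.247 ^ 10 + 0.247 ^ 11 ≤ 230 := by norm_num
  rw [e]
  linarith

end SalemAb
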