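import Pool.Agent.Lib.MP_9599cf_nt.Defs

/-! # Degree three -/

set_option autoImplicit false

namespace SalemAb

set_option maxRecDepth 100000 in
theorem d3_check : ∀ a ∈ Finset.Icc (-2 : ℤ) 6, ∀ c ∈ Finset.Icc (-13 : ℤ) 13,
    ∀ e ∈ Finset.Icc (-9 : ℤ) 9, 8 - 4 * a + 2 * c - e ≤ -1 → -8 - 4 * a - 2 * c - e ≤ 0 →
      1 ≤ 729 - 324 * a + 144 * c - 64 * e →
      0 < a ^ 2 * c ^ 2 - 4 * c ^ 3 - 4 * a ^ 3 * e - 27 * e ^ 2 + 18 * a * c * e →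
      (a = 0 ∧ c = -4 ∧ e = 1) ∨ (a = 0 ∧ c = -4 ∧ e = 2) ∨ (a = 1 ∧ c = -4 ∧ e = -3) ∨
        (a = 1 ∧ c = -3 ∧ e = -1) ∨ (a = 2 ∧ c = -1 ∧ e = -1) := by
  decide +kernel

theorem d3_sq {d s : ℤ} (h : d ^ 2 = s) (hs : s = 229 ∨ s = 148 ∨ s = 257) : False := by
  have h0 : d ^ 2 ≤ 257 := by omega
  have h1 : d ≤ 17 := by nlinarith
  have h2 : -17 ≤ d := by nlinarith
  interval_cases d <;> omega

/-- PROOF. Let `P(t) = (t - β) (t - x) (t - y) = t³ - a t² + c t - e`. First `x, y ≠ 2`: if `x = 2` then ... (or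
treat `P(2) = 0` as follows: `P(2) = (2 - β) (2 - x) (2 - y) ≤ 0` is an integer; if it is `0` then `x = 2` or
`y = 2`, say `x = 2`; then `β + y`, `β y` are integers and `d2_false` applies; symmetric for `y`). So
`P(2) ≤ -1`, `P(-2) ≤ 0`, `64 P(9/4) > 0` (an integer, so `≥ 1`), the discriminant
`a² c² - 4 c³ - 4 a³ e - 27 e² + 18 a c e = δ²` is the square of an integer `≠ 0`, and `-2 ≤ a ≤ 6`, `-14 ≤ c ≤ 14`,
`-10 ≤ e ≤ 10`, `|δ| ≤ 77` (`|δ| ≤ 4.3 * 4.3 * 4`). A finite check (`decide`) shows that only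
`(a, c, e) = (2, -1, -1)` is possible, `δ² = 49`. Then `β³ - 2 β² - β + 1 = 0`, against the hypothesis. (For the check:
the list of all `(a, c, e)` in the box with `8 - 4a + 2c - e ≤ -1`, `-8 - 4a - 2c - e ≤ 0`,
`729 - 324 a + 144 c - 64 e ≥ 1` and discriminant a nonzero square is exactly `[(2, -1, -1)]`.) -/
theorem d3_false {β x y : ℝ} (h1 : 2 < β) (h2 : β < 2.247)
    (h3 : β ^ 3 - 2 * β ^ 2 - β + 1 < 0) (hx : |x| ≤ 2) (hy : |y| ≤ 2)
    (ha : ∃ a : ℤ, β + x + y = a) (hc : ∃ c : ℤ, β * x + β * y + x * y = c)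
    (he : ∃ e : ℤ, β * x * y = e) (hd : ∃ δ : ℤ, (β - x) * (x - y) * (y - β) = δ)
    (hd0 : (β - x) * (x - y) * (y - β) ≠ 0)
    (hxn : x ≠ 2) (hyn : y ≠ 2) : False := by
  obtain ⟨a, ha⟩ := ha
  obtain ⟨c, hc⟩ := hc
  obtain ⟨e, he⟩ := he
  obtain ⟨δ, hd⟩ := hd
  norm_num at h2
  obtain ⟨hx1, hx2⟩ := abs_le.1 hx
  obtain ⟨hy1, hy2⟩ := abs_le.1 hy
  have hx3 : x < 2 := lt_of_le_of_ne hx2 hxn
  have hy3 : y < 2 := lt_of_le_of_ne hy2 hyn
  -- products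
  have hβ : 0 < β := by linarith
  have hbx1 : β * x ≤ 9 / 2 := by nlinarith
  have hbx2 : -(9 / 2) ≤ β * x := by nlinarith
  have hby1 : β * y ≤ 9 / 2 := by nlinarith
  have hby2 : -(9 / 2) ≤ β * y := by nlinarith
  have hxy : |x * y| ≤ 4 := by
    rw [abs_mul]
    nlinarith [abs_nonneg x, abs_nonneg y]
  obtain ⟨hxy1, hxy2⟩ := abs_le.1 hxy
  have hbxy : |β * x * y| ≤ 9 := by
    have h4 : |β * x| ≤ 9 / 2 := abs_le.2 ⟨hbx2, hbx1⟩
    rw [abs_mul]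
    nlinarith [abs_nonneg (β * x), abs_nonneg y]
  obtain ⟨hbxy1, hbxy2⟩ := abs_le.1 hbxy
  -- bounds for the integers
  have ba1 : (-2 : ℤ) ≤ a := by
    have : ((-2 : ℤ) : ℝ) ≤ (a : ℝ) := by rw [← ha]; push_cast; linarith
    exact_mod_cast this
  have ba2 : a ≤ 6 := by
    have : (a : ℝ) < ((7 : ℤ) : ℝ) := by rw [← ha]; push_cast; linarith
    have h4 : a < 7 := by exact_mod_cast this
    omega
  have bc1 : (-13 : ℤ) ≤ c := by
    have : ((-13 : ℤ) : ℝ) ≤ (c : ℝ) := by rw [← hc]; push_cast; linarith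
    exact_mod_cast this
  have bc2 : c ≤ 13 := by
    have : (c : ℝ) ≤ ((13 : ℤ) : ℝ) := by rw [← hc]; push_cast; linarith
    exact_mod_cast this
  have be1 : (-9 : ℤ) ≤ e := by
    have : ((-9 : ℤ) : ℝ) ≤ (e : ℝ) := by rw [← he]; push_cast; linarith
    exact_mod_cast this
  have be2 : e ≤ 9 := by
    have : (e : ℝ) ≤ ((9 : ℤ) : ℝ) := by rw [← he]; push_cast; linarith
    exact_mod_cast this
  -- the three values
  have i1 : 8 - 4 * a + 2 * c - e ≤ -1 := by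
    have h4 : (((8 - 4 * a + 2 * c - e : ℤ)) : ℝ) < 0 := by
      push_cast
      rw [← ha, ← hc, ← he]
      have h5 : 0 < (β - 2) * ((2 - x) * (2 - y)) :=
        mul_pos (by linarith) (mul_pos (by linarith) (by linarith))
      nlinarith
    have h6 : 8 - 4 * a + 2 * c - e < 0 := by exact_mod_cast h4
    omega
  have i2 : -8 - 4 * a - 2 * c - e ≤ 0 := by
    have h4 : (((-8 - 4 * a - 2 * c - e : ℤ)) : ℝ) ≤ 0 := by
      push_cast
      rw [← ha, ← hc, ← he]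
      have h5 : 0 ≤ (β + 2) * ((2 + x) * (2 + y)) :=
        mul_nonneg (by linarith) (mul_nonneg (by linarith) (by linarith))
      nlinarith
    exact_mod_cast h4
  have i3 : 1 ≤ 729 - 324 * a + 144 * c - 64 * e := by
    have h4 : (0 : ℝ) < (((729 - 324 * a + 144 * c - 64 * e : ℤ)) : ℝ) := by
      push_cast
      rw [← ha, ← hc, ← he]
      have h5 : 0 < (9 / 4 - β) * ((9 / 4 - x) * (9 / 4 - y)) :=
        mul_pos (by linarith) (mul_pos (by linarith) (by linarith))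
      nlinarith
    have h6 : 0 < 729 - 324 * a + 144 * c - 64 * e := by exact_mod_cast h4
    omega
  -- the discriminant
  have i4 : δ ^ 2 = a ^ 2 * c ^ 2 - 4 * c ^ 3 - 4 * a ^ 3 * e - 27 * e ^ 2 + 18 * a * c * e := by
    have h4 : ((δ ^ 2 : ℤ) : ℝ) =
        ((a ^ 2 * c ^ 2 - 4 * c ^ 3 - 4 * a ^ 3 * e - 27 * e ^ 2 + 18 * a * c * e : ℤ) : ℝ) := by
      push_cast
      rw [← ha, ← hc, ← he, ← hd]
      ring
    exact_mod_cast h4
  have i5 : δ ≠ 0 := by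
    rintro rfl
    apply hd0
    rw [hd]
    norm_num
  have i6 : 0 < δ ^ 2 := by positivity
  have hck := d3_check a (Finset.mem_Icc.2 ⟨ba1, ba2⟩) c (Finset.mem_Icc.2 ⟨bc1, bc2⟩)
    e (Finset.mem_Icc.2 ⟨be1, be2⟩) i1 i2 i3 (by rw [← i4]; exact i6)
  rcases hck with ⟨rfl, rfl, rfl⟩ | ⟨rfl, rfl, rfl⟩ | ⟨rfl, rfl, rfl⟩ | ⟨rfl, rfl, rfl⟩ |
    ⟨rfl, rfl, rfl⟩
  · exact d3_sq i4 (by norm_num)
  · exact d3_sq i4 (by norm_num)
  · exact d3_sq i4 (by norm_num)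
  · exact d3_sq i4 (by norm_num)
  · push_cast at ha hc he
    have h4 : β ^ 3 - (β + x + y) * β ^ 2 + (β * x + β * y + x * y) * β - β * x * y = 0 := by ring
    rw [ha, hc, he] at h4
    linarith

end SalemAb
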