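import Pool.Agent.Lib.MP_9599cf_nt.Norm
import Pool.Agent.Lib.MP_9599cf_nt.NumB
import Pool.Agent.Lib.MP_9599cf_nt.RealD3

/-! # Degree three -/

set_option autoImplicit false

namespace SalemAb

open Polynomial

variable {A Γ : Type} [CommRing A] [Group Γ] [MulSemiringAction Γ A] {ι : A →+* ℝ} {b : A}

private theorem abs3_smul_two (s : Γ) : s • (2 : A) = 2 := by
  have h : (2 : A) = 1 + 1 := by norm_num
  rw [h, smul_add, smul_one]

/-- PROOF. `Γ = {1, s, s²}` for any `s ≠ 1`; `β = ι b`, `x = ι (s • b)`, `y = ι (s² • b)`. The elements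
`b + s•b + s²•b`, `b (s•b) + b (s²•b) + (s•b) (s²•b)`, `b (s•b) (s²•b)`, `(b - s•b) (s•b - s²•b) (s²•b - b)` are fixed
by `s` (`s³ = 1`), so by `Γ`, so integers. The last one is not `0` by `eq_one_of_smul`. `x ≠ 2`: otherwise
`s • b = 2`, and applying `s⁻¹`, `b = 2`, against `gt`; the same for `y`. `d3_false` with `lt_2247`. -/
theorem Dat.card_ne_three [Fintype Γ] (D : Dat A Γ ι b) : Fintype.card Γ ≠ 3 := by
  intro hcard
  have h1card : 1 < Fintype.card Γ := by omega
  obtain ⟨s, hs⟩ : ∃ s : Γ, s ≠ 1 := by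
    have := Fintype.one_lt_card_iff_nontrivial.1 h1card
    exact exists_ne 1
  have hs3 : s ^ 3 = 1 := by
    have := pow_card_eq_one (x := s)
    rwa [hcard] at this
  have hss : s * s ≠ 1 := by
    intro h
    apply hs
    have : s ^ 3 = s * (s * s) := by rw [pow_succ, pow_two, mul_assoc]
    rw [h, mul_one] at this
    rw [← this, hs3]
  have htop : Subgroup.zpowers s = ⊤ := by
    have : Fact (Nat.Prime 3) := ⟨by norm_num⟩
    exact zpowers_eq_top_of_prime_card (p := 3) (by rw [Nat.card_eq_fintype_card, hcard]) hs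
  have hfix : ∀ u : A, s • u = u → ∃ n : ℤ, ι u = n := by
    intro u hu
    have hle : Subgroup.zpowers s ≤ MulAction.stabilizer Γ u := by
      rw [Subgroup.zpowers_le]
      exact hu
    obtain ⟨n, hn⟩ := D.fixed u (fun σ => by
      have : σ ∈ Subgroup.zpowers s := by rw [htop]; trivial
      exact hle this)
    exact ⟨n, by rw [hn]; simp⟩
  set c1 := s • b with hc1
  set c2 := s • c1 with hc2
  have hc3 : s • c2 = b := by
    rw [hc2, hc1, smul_smul, smul_smul]
    have : s * s * s = s ^ 3 := by rw [pow_succ, pow_two]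
    rw [this, hs3, one_smul]
  have hc2' : (s * s) • b = c2 := by rw [mul_smul]
  have hx : |ι c1| ≤ 2 := D.small s hs
  have hy : |ι c2| ≤ 2 := by
    rw [← hc2']
    exact D.small _ hss
  have hb2 : b ≠ 2 := by
    intro h
    have := D.gt
    rw [h, map_ofNat] at this
    exact lt_irrefl _ this
  have hc12 : c1 ≠ 2 := by
    intro h
    apply hb2
    have h2 : s • b = s • (2 : A) := by rw [abs3_smul_two]; exact h
    exact smul_left_cancel s h2
  have hc22 : c2 ≠ 2 := by
    intro h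
    apply hc12
    have h2 : s • c1 = s • (2 : A) := by rw [abs3_smul_two]; exact h
    exact smul_left_cancel s h2
  have hxn : ι c1 ≠ 2 := by
    intro h
    apply hc12
    apply D.inj
    rw [h, map_ofNat]
  have hyn : ι c2 ≠ 2 := by
    intro h
    apply hc22
    apply D.inj
    rw [h, map_ofNat]
  have hbc1 : b ≠ c1 := by
    intro h
    exact hs (D.eq_one_of_smul h.symm)
  have hc1c2 : c1 ≠ c2 := by
    intro h
    exact hbc1 (smul_left_cancel s h)
  have hc2b : c2 ≠ b := by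
    intro h
    exact hss (D.eq_one_of_smul (hc2'.trans h))
  have i1 : ι b ≠ ι c1 := fun h => hbc1 (D.inj h)
  have i2 : ι c1 ≠ ι c2 := fun h => hc1c2 (D.inj h)
  have i3 : ι c2 ≠ ι b := fun h => hc2b (D.inj h)
  have e1 : s • (b + c1 + c2) = b + c1 + c2 := by
    rw [smul_add, smul_add, ← hc1, ← hc2, hc3]; ring
  have e2 : s • (b * c1 + b * c2 + c1 * c2) = b * c1 + b * c2 + c1 * c2 := by
    rw [smul_add, smul_add, smul_mul', smul_mul', smul_mul', ← hc1, ← hc2, hc3]; ring
  have e3 : s • (b * c1 * c2) = b * c1 * c2 := by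
    rw [smul_mul', smul_mul', ← hc1, ← hc2, hc3]; ring
  have e4 : s • ((b - c1) * (c1 - c2) * (c2 - b)) = (b - c1) * (c1 - c2) * (c2 - b) := by
    rw [smul_mul', smul_mul', smul_sub, smul_sub, smul_sub, ← hc1, ← hc2, hc3]; ring
  obtain ⟨n1, hn1⟩ := hfix _ e1
  obtain ⟨n2, hn2⟩ := hfix _ e2
  obtain ⟨n3, hn3⟩ := hfix _ e3
  obtain ⟨n4, hn4⟩ := hfix _ e4
  simp only [map_add, map_mul, map_sub] at hn1 hn2 hn3 hn4
  refine d3_false (β := ι b) (x := ι c1) (y := ι c2) D.gt (lt_2247 D.gt D.lt) D.lt hx hy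
    ⟨n1, hn1⟩ ⟨n2, hn2⟩ ⟨n3, hn3⟩ ⟨n4, hn4⟩ ?_ hxn hyn
  exact mul_ne_zero (mul_ne_zero (sub_ne_zero.2 i1) (sub_ne_zero.2 i2)) (sub_ne_zero.2 i3)

end SalemAb
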