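import Pool.Agent.Lib.MP_9599cf_nt.Defs

/-! # Degree four, `7` ramified -/

set_option autoImplicit false

namespace SalemAb

/-- The sum and the product of the two squares. -/
theorem RealD4_sq {a b : ℝ} (ha0 : 0 < a) (ha : a < 18.04) (hb0 : 0 < b) (hb : b ≤ 16)
    (hT : ∃ T : ℤ, a + b = 7 * T) (hN : ∃ N : ℤ, a * b = 49 * N)
    (h7 : a = 7 → b = 7) (h14 : a = 14 → b = 14) : (a = 7 ∧ b = 7) ∨ (a = 14 ∧ b = 14) := by
  obtain ⟨T, hT⟩ := hT
  obtain ⟨N, hN⟩ := hN
  have hT1 : (0 : ℝ) < T := by linarith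
  have hT2 : (T : ℝ) < 5 := by linarith
  have hT1' : 0 < T := by exact_mod_cast hT1
  have hT2' : T < 5 := by exact_mod_cast hT2
  have hN1 : (0 : ℝ) < N := by nlinarith [mul_pos ha0 hb0]
  have hN1' : 0 < N := by exact_mod_cast hN1
  have hD : (0 : ℝ) ≤ (T : ℝ) ^ 2 - 4 * N := by nlinarith [sq_nonneg (a - b)]
  have hD' : 0 ≤ T ^ 2 - 4 * N := by exact_mod_cast hD
  have hcases : T = 1 ∨ T = 2 ∨ T = 3 ∨ T = 4 := by omega
  rcases hcases with rfl | rfl | rfl | rfl
  · omega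
  · have hN2 : N = 1 := by omega
    subst hN2
    left
    push_cast at hT hN
    have h1 : b = 14 - a := by linarith
    rw [h1] at hN
    have h2 : (a - 7) ^ 2 = 0 := by nlinarith
    have h3 : a = 7 := by
      have := pow_eq_zero_iff (two_ne_zero) |>.1 h2
      linarith
    exact ⟨h3, by rw [h1, h3]; norm_num⟩
  · have hN2 : N = 1 ∨ N = 2 := by omega
    push_cast at hT
    have h1 : b = 21 - a := by linarith
    rcases hN2 with rfl | rfl
    · exfalso
      push_cast at hN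
      rw [h1] at hN hb
      nlinarith [mul_nonneg (by linarith : (0 : ℝ) ≤ 18.04 - a) (by linarith : (0 : ℝ) ≤ a - 2.96)]
    · exfalso
      push_cast at hN
      rw [h1] at hN
      have h2 : (a - 7) * (a - 14) = 0 := by nlinarith
      rcases mul_eq_zero.1 h2 with h | h
      · have h3 : a = 7 := by linarith
        have := h7 h3
        linarith
      · have h3 : a = 14 := by linarith
        have := h14 h3
        linarith
  · push_cast at hT
    have h1 : b = 28 - a := by linarith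
    have h5 : N ≤ 3 ∨ N = 4 := by omega
    rcases h5 with h5 | rfl
    · exfalso
      have h6 : (N : ℝ) ≤ 3 := by exact_mod_cast h5
      rw [h1] at hN hb
      nlinarith [mul_nonneg (by linarith : (0 : ℝ) ≤ 18.04 - a) (by linarith : (0 : ℝ) ≤ a - 9.96)]
    · right
      push_cast at hN
      rw [h1] at hN
      have h2 : (a - 14) ^ 2 = 0 := by nlinarith
      have h3 : a = 14 := by
        have := pow_eq_zero_iff (two_ne_zero) |>.1 h2
        linarith
      exact ⟨h3, by rw [h1, h3]; norm_num⟩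

/-- The sum of two numbers of absolute value at most two with a given difference. -/
theorem RealD4_sum {z u r : ℝ} (hz : |z| ≤ 2) (hu : |u| ≤ 2) (hr : 0 < r)
    (h : (z - u) ^ 2 = r ^ 2) : -(4 - r) ≤ z + u ∧ z + u ≤ 4 - r := by
  obtain ⟨hz1, hz2⟩ := abs_le.1 hz
  obtain ⟨hu1, hu2⟩ := abs_le.1 hu
  rcases sq_eq_sq_iff_eq_or_eq_neg.1 h with h1 | h1
  · constructor <;> linarith
  · constructor <;> linarith

/-- PROOF. Let `w₁ = (β - y)² / 7`, `w₂ = (z - u)² / 7`, `0 < w₁ < 4.247² / 7 < 2.577`, `0 < w₂ ≤ 16 / 7 < 2.286`.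
`w₁ + w₂ = T`, `w₁ w₂ = N` are positive integers, `T ≤ 4`, `N ≤ 5`, `T² - 4 N = (w₁ - w₂)² ≥ 0`. So `(T, N)` is
`(2,1)`, `(3,1)`, `(3,2)`, `(4,1)`, `(4,2)`, `(4,3)`, `(4,4)`. `(3,1)`: `w₁` or `w₂` is `(3+√5)/2 > 2.6`; `(3,2)`: `{w₁,w₂} = {1,2}`,
excluded by `h7`, `h14`; `(4,1)`, `(4,2)`, `(4,3)`: one of them is `≥ 3`. So `w₁ = w₂ = 1` or `w₁ = w₂ = 2`
(Lean: from `T`, `N` get `w₁² - T w₁ + N = 0`, `nlinarith`).
Case `w = 1`: `β - y = √7`, `|z - u| = √7`. Let `x₁ = β + y = 2 β - √7`, between `1.354` and `1.849`, and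
`x₂ = z + u`, `|x₂| ≤ 4 - √7 < 1.3543` (`max (|z|, |u|) ≤ 2` and `|z - u| = √7`). `X = x₁ + x₂` is `1`, `2` or `3`,
`M = x₁ x₂ = x₁ (X - x₁)` is an integer: `X = 2` gives `0.27 < M < 0.88`, `X = 3` gives `x₁ > 1.645` and
`2.1 < M < 2.3`, impossible. `X = 1` gives `-1.57 < M < -0.47`, `M = -1`; then
`4 S = 4 β y + 4 z u = x₁² + x₂² - 14 = X² - 2 M - 14 = -11`, impossible.
Case `w = 2`: `β - y = √14`, `|z - u| = √14`: `0.258 < x₁ < 0.7524`, `|x₂| ≤ 4 - √14 < 0.2584`, so `X = 1`,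
`x₁ > 0.741`, `0.18 < M = x₁ (1 - x₁) < 0.2`, impossible. -/
theorem d4_false {β y z u : ℝ} (h1 : 2 < β) (h2 : β < 2.247) (hy : |y| ≤ 2) (hz : |z| ≤ 2)
    (hu : |u| ≤ 2) (hzu : z ≠ u)
    (hT : ∃ T : ℤ, (β - y) ^ 2 + (z - u) ^ 2 = 7 * T)
    (hN : ∃ N : ℤ, (β - y) ^ 2 * (z - u) ^ 2 = 49 * N)
    (h7 : (β - y) ^ 2 = 7 → (z - u) ^ 2 = 7) (h14 : (β - y) ^ 2 = 14 → (z - u) ^ 2 = 14)
    (hX : ∃ X : ℤ, β + y + z + u = X) (hM : ∃ M : ℤ, (β + y) * (z + u) = M)
    (hS : ∃ S : ℤ, β * y + z * u = S) : False := by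
  obtain ⟨hy1, hy2⟩ := abs_le.1 hy
  obtain ⟨hz1, hz2⟩ := abs_le.1 hz
  obtain ⟨hu1, hu2⟩ := abs_le.1 hu
  have hby0 : 0 < β - y := by linarith
  have hby1 : β - y < 4.247 := by linarith
  have hW1 : 0 < (β - y) ^ 2 := by positivity
  have hW1' : (β - y) ^ 2 < 18.04 := by nlinarith
  have hW2 : 0 < (z - u) ^ 2 := by
    have : z - u ≠ 0 := sub_ne_zero.2 hzu
    positivity
  have hW2' : (z - u) ^ 2 ≤ 16 := by
    nlinarith [mul_nonneg (by linarith : (0 : ℝ) ≤ 4 - (z - u)) (by linarith : (0 : ℝ) ≤ 4 + (z - u))]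
  obtain ⟨X, hX⟩ := hX
  obtain ⟨M, hM⟩ := hM
  obtain ⟨S, hS⟩ := hS
  have hx2 : z + u = X - (β + y) := by linarith
  rcases RealD4_sq hW1 hW1' hW2 hW2' hT hN h7 h14 with ⟨ha, hb⟩ | ⟨ha, hb⟩
  · -- the case 7
    have hr1 : 2.6457 < β - y := by nlinarith
    have hr2 : β - y < 2.6458 := by nlinarith
    obtain ⟨hs1, hs2⟩ := RealD4_sum hz hu hby0 (by rw [ha, hb])
    have hx1a : 4 - (β - y) < β + y := by linarith
    have hx1b : β + y < 1.8483 := by linarith
    have hx1c : 1.3542 < β + y := by linarith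
    have hX1 : (0 : ℝ) < X := by linarith
    have hX2 : (X : ℝ) < 4 := by linarith
    have hX1' : 0 < X := by exact_mod_cast hX1
    have hX2' : X < 4 := by exact_mod_cast hX2
    rw [hx2] at hM
    have hcases : X = 1 ∨ X = 2 ∨ X = 3 := by omega
    rcases hcases with rfl | rfl | rfl
    · push_cast at hM hx2
      have hM1 : (-2 : ℝ) < M := by rw [← hM]; nlinarith
      have hM2 : (M : ℝ) < 0 := by rw [← hM]; nlinarith
      have hM1' : -2 < M := by exact_mod_cast hM1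
      have hM2' : M < 0 := by exact_mod_cast hM2
      have hM3 : M = -1 := by omega
      subst hM3
      push_cast at hM
      have h4S : (4 * S : ℝ) = -11 := by
        rw [← hS]
        have e1 : 4 * (β * y + z * u) = (β + y) ^ 2 - (β - y) ^ 2 + ((z + u) ^ 2 - (z - u) ^ 2) := by
          ring
        rw [e1, ha, hb, hx2]
        nlinarith
      have h4S' : 4 * S = -11 := by exact_mod_cast h4S
      omega
    · push_cast at hM
      have hM1 : (0 : ℝ) < M := by rw [← hM]; nlinarith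
      have hM2 : (M : ℝ) < 1 := by
        rw [← hM]
        nlinarith [mul_pos (by linarith : (0 : ℝ) < (β + y) - 1.3542)
          (by linarith : (0 : ℝ) < (β + y) - 1.3542 + 0.7)]
      have hM1' : 0 < M := by exact_mod_cast hM1
      have hM2' : M < 1 := by exact_mod_cast hM2
      omega
    · push_cast at hM hx2
      have hx3 : 1.6457 < β + y := by linarith
      have hM1 : (2 : ℝ) < M := by
        rw [← hM]
        nlinarith [mul_pos (by linarith : (0 : ℝ) < (β + y) - 1.6457)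
          (by linarith : (0 : ℝ) < 1.8483 - (β + y))]
      have hM2 : (M : ℝ) < 3 := by
        rw [← hM]
        nlinarith [sq_nonneg (β + y - 1.5)]
      have hM1' : 2 < M := by exact_mod_cast hM1
      have hM2' : M < 3 := by exact_mod_cast hM2
      omega
  · -- the case 14
    have hr1 : 3.7416 < β - y := by nlinarith
    have hr2 : β - y < 3.7417 := by nlinarith
    obtain ⟨hs1, hs2⟩ := RealD4_sum hz hu hby0 (by rw [ha, hb])
    have hx1a : 4 - (β - y) < β + y := by linarith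
    have hx1b : β + y < 0.7525 := by linarith
    have hX1 : (0 : ℝ) < X := by linarith
    have hX2 : (X : ℝ) < 2 := by linarith
    have hX1' : 0 < X := by exact_mod_cast hX1
    have hX2' : X < 2 := by exact_mod_cast hX2
    have hX3 : X = 1 := by omega
    subst hX3
    push_cast at hx2
    rw [hx2] at hM
    have hx3 : 0.7416 - 0.0001 < β + y := by linarith
    have hM1 : (0 : ℝ) < M := by rw [← hM]; nlinarith
    have hM2 : (M : ℝ) < 1 := by rw [← hM]; nlinarith [sq_nonneg (β + y - 0.5)]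
    have hM1' : 0 < M := by exact_mod_cast hM1
    have hM2' : M < 1 := by exact_mod_cast hM2
    omega

end SalemAb
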