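import Pool.Agent.Lib.MP_9599cf_nt.Norm
import Pool.Agent.Lib.MP_9599cf_nt.NumB
import Pool.Agent.Lib.MP_9599cf_nt.RealD4

/-! # Degree four -/

set_option autoImplicit false

namespace SalemAb

open Polynomial

variable {A Γ : Type} [CommRing A] [Group Γ] [MulSemiringAction Γ A] {ι : A →+* ℝ} {b : A}

/-- PROOF. Choose `r` not in `{1, s}`; `Γ = {1, s, r, r s}`, commutative, `r² ∈ {1, s}` (the quotient by `{1, s}` has
order two). `(b - s • b)² = 7 w`, `w` is fixed by `s` (`s • (b - s • b) = -(b - s • b)`, and `A` is a domain of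
characteristic `0`). With `β = ι b`, `y = ι (s • b)`, `z = ι (r • b)`, `u = ι (r • s • b)`: `w + r • w`, `w (r • w)`,
`b + s•b + r•b + r•s•b`, `(b + s•b) (r • (b + s•b))`, `b (s•b) + r • (b (s•b))` are fixed by `s` and `r`, so by
`Γ`, so integers; `(β - y)² = 7` gives `ι w = 1`, `w = 1`, `r • w = 1`, so `(z - u)² = 7`, and the same for `14`, `w = 2`.
`z ≠ u` by `eq_one_of_smul`. `d4_false`. -/
theorem Dat.false_of_card_four [Fintype Γ] (D : Dat A Γ ι b) (hc : Fintype.card Γ = 4) (s : Γ)
    (hs : s ≠ 1) (hs2 : s ^ 2 = 1) (h : (7 : A) ∣ (b - s • b) ^ 2) : False := by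
  classical
  obtain ⟨r, hr1, hrs⟩ : ∃ r : Γ, r ≠ 1 ∧ r ≠ s := by
    by_contra hcon
    push Not at hcon
    have hsub : (Finset.univ : Finset Γ) ⊆ {1, s} := by
      intro g _
      by_cases hg : g = 1
      · simp [hg]
      · simp [hcon g hg]
    have h2 := Finset.card_le_card hsub
    have h3 : ({1, s} : Finset Γ).card ≤ 2 := Finset.card_le_two
    rw [Finset.card_univ, hc] at h2
    omega
  have hss : s * s = 1 := by rw [← pow_two]; exact hs2
  have hrs1 : r * s ≠ 1 := by
    intro e
    apply hrs
    calc r = r * (s * s) := by rw [hss, mul_one]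
      _ = (r * s) * s := by rw [mul_assoc]
      _ = s := by rw [e, one_mul]
  have huniv : ∀ g : Γ, g = 1 ∨ g = s ∨ g = r ∨ g = r * s := by
    have hcard : ({1, s, r, r * s} : Finset Γ).card = 4 := by
      rw [Finset.card_insert_of_notMem, Finset.card_insert_of_notMem,
        Finset.card_insert_of_notMem, Finset.card_singleton]
      · rw [Finset.mem_singleton]
        intro e
        exact hs (mul_left_cancel (e.symm.trans (mul_one r).symm))
      · simp only [Finset.mem_insert, Finset.mem_singleton, not_or]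
        refine ⟨fun e => hrs e.symm, fun e => ?_⟩
        exact hr1 (mul_right_cancel (e.symm.trans (one_mul s).symm))
      · simp only [Finset.mem_insert, Finset.mem_singleton, not_or]
        exact ⟨fun e => hs e.symm, fun e => hr1 e.symm, fun e => hrs1 e.symm⟩
    have hun : ({1, s, r, r * s} : Finset Γ) = Finset.univ :=
      Finset.eq_univ_of_card _ (by rw [hcard, hc])
    intro g
    have hg := Finset.mem_univ g
    rw [← hun] at hg
    simpa using hg
  have hrr : r * r = 1 ∨ r * r = s := by
    rcases huniv (r * r) with e | e | e | e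
    · exact Or.inl e
    · exact Or.inr e
    · exact absurd (mul_eq_left.mp e) hr1
    · exact absurd (mul_left_cancel e) hrs
  have hfix : ∀ x : A, s • x = x → r • x = x → ∃ n : ℤ, x = n := by
    intro x hsx hrx
    apply D.fixed
    intro g
    rcases huniv g with e | e | e | e
    · rw [e, one_smul]
    · rw [e, hsx]
    · rw [e, hrx]
    · rw [e, mul_smul, hsx, hrx]
  have hcancel : ∀ x y : A, 7 * x = 7 * y → x = y := by
    intro x y hxy
    apply D.inj
    have h1 := congrArg ι hxy
    rw [map_mul, map_mul, map_ofNat] at h1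
    linarith
  have hsr : ∀ x : A, s • r • x = r • s • x := by
    intro x
    rw [smul_smul, smul_smul, D.comm]
  have hs2' : ∀ x : A, s • s • x = x := by
    intro x
    rw [smul_smul, hss, one_smul]
  have hnum : ∀ (g : Γ) (n : ℕ), g • (n : A) = n := fun g n =>
    map_natCast (MulSemiringAction.toRingHom Γ A g) n
  have h7' : ∀ g : Γ, g • (7 : A) = 7 := fun g => by
    have := hnum g 7
    simpa using this
  have h2' : ∀ g : Γ, g • (2 : A) = 2 := fun g => by
    have := hnum g 2
    simpa using this
  obtain ⟨w, hw⟩ := h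
  have hsw : s • w = w := by
    apply hcancel
    have e1 : s • ((b - s • b) ^ 2) = 7 * (s • w) := by
      rw [hw, smul_mul', h7']
    rw [← e1, ← hw, smul_pow', smul_sub, hs2']
    ring
  have hrw : (r • b - r • s • b) ^ 2 = 7 * (r • w) := by
    have e1 : r • ((b - s • b) ^ 2) = 7 * (r • w) := by
      rw [hw, smul_mul', h7']
    rw [← e1, smul_pow', smul_sub]
  have hsrw : s • r • w = r • w := by rw [hsr, hsw]
  have hrrw : r • r • w = w := by
    rw [smul_smul]
    rcases hrr with e | e
    · rw [e, one_smul]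
    · rw [e, hsw]
  have hrr2 : (r • r • b = b ∧ r • r • s • b = s • b) ∨ (r • r • b = s • b ∧ r • r • s • b = b) := by
    rw [smul_smul, smul_smul]
    rcases hrr with e | e
    · left
      rw [e]
      exact ⟨one_smul _ _, one_smul _ _⟩
    · right
      rw [e]
      exact ⟨rfl, hs2' b⟩
  have hsrs : s • r • s • b = r • b := by rw [hsr, hs2']
  obtain ⟨T, hT⟩ := hfix (w + r • w) (by rw [smul_add, hsw, hsrw]) (by
    rw [smul_add, hrrw]; ring)
  obtain ⟨N, hN⟩ := hfix (w * (r • w)) (by rw [smul_mul', hsw, hsrw]) (by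
    rw [smul_mul', hrrw]; ring)
  obtain ⟨X, hX⟩ := hfix (b + s • b + r • b + r • s • b)
    (by rw [smul_add, smul_add, smul_add, hs2', hsrs, hsr]; ring)
    (by
      rw [smul_add, smul_add, smul_add]
      rcases hrr2 with ⟨e1, e2⟩ | ⟨e1, e2⟩
      · rw [e1, e2]; ring
      · rw [e1, e2]; ring)
  obtain ⟨M, hM⟩ := hfix ((b + s • b) * (r • b + r • s • b))
    (by rw [smul_mul', smul_add, smul_add, hs2', hsrs, hsr]; ring)
    (by
      rw [smul_mul', smul_add, smul_add]
      rcases hrr2 with ⟨e1, e2⟩ | ⟨e1, e2⟩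
      · rw [e1, e2]; ring
      · rw [e1, e2]; ring)
  obtain ⟨S, hS⟩ := hfix (b * (s • b) + (r • b) * (r • s • b))
    (by rw [smul_add, smul_mul', smul_mul', hs2', hsrs, hsr]; ring)
    (by
      rw [smul_add, smul_mul', smul_mul']
      rcases hrr2 with ⟨e1, e2⟩ | ⟨e1, e2⟩
      · rw [e1, e2]; ring
      · rw [e1, e2]; ring)
  have hw' : (ι b - ι (s • b)) ^ 2 = 7 * ι w := by
    have := congrArg ι hw
    rw [map_pow, map_sub, map_mul, map_ofNat] at this
    exact this
  have hrw' : (ι (r • b) - ι (r • s • b)) ^ 2 = 7 * ι (r • w) := by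
    have := congrArg ι hrw
    rw [map_pow, map_sub, map_mul, map_ofNat] at this
    exact this
  have hu : |ι (r • s • b)| ≤ 2 := by
    have := D.small (r * s) hrs1
    rwa [mul_smul] at this
  refine d4_false (β := ι b) (y := ι (s • b)) (z := ι (r • b)) (u := ι (r • s • b)) D.gt
    (lt_2247 D.gt D.lt) (D.small s hs) (D.small r hr1) hu ?_ ⟨T, ?_⟩ ⟨N, ?_⟩ ?_ ?_ ⟨X, ?_⟩ ⟨M, ?_⟩
    ⟨S, ?_⟩
  · intro e
    have e1 := D.inj e
    have e2 : b = s • b := by
      have := congrArg (fun x => r⁻¹ • x) e1
      simpa using this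
    exact hs (D.eq_one_of_smul e2.symm)
  · have := congrArg ι hT
    rw [map_add, map_intCast] at this
    rw [hw', hrw', ← this]
    ring
  · have := congrArg ι hN
    rw [map_mul, map_intCast] at this
    rw [hw', hrw', ← this]
    ring
  · intro e
    have e1 : w = 1 := by
      apply D.inj
      rw [map_one]
      linarith
    rw [hrw', e1, smul_one, map_one, mul_one]
  · intro e
    have e1 : w = 2 := by
      apply D.inj
      rw [map_ofNat]
      linarith
    rw [hrw', e1, h2', map_ofNat]
    norm_num
  · have := congrArg ι hX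
    rw [map_add, map_add, map_add, map_intCast] at this
    exact this
  · have := congrArg ι hM
    rw [map_mul, map_add, map_add, map_intCast] at this
    exact this
  · have := congrArg ι hS
    rw [map_add, map_mul, map_mul, map_intCast] at this
    exact this

end SalemAb
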