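import Pool.Agent.Lib.MP_9599cf_nt.Defs

/-! # Degrees two, three and four -/

set_option autoImplicit false

namespace SalemAb

/-- PROOF. `a = β + x ≥ 1` (it is an integer `> 0`), `(2 - β) (2 - x) = 4 - 2 a + c ≤ -1` if `x < 2` (if `x = 2`
then `β = a - 2` is an integer), and `(9/4 - β) (9/4 - x) = 81/16 - 9 a / 4 + c > 0` gives `c > 9 a / 4 - 81/16`;
together `a < 1/4`. Contradiction. -/
theorem d2_false {β x : ℝ} (h1 : 2 < β) (h2 : β < 2.247) (hx : |x| ≤ 2)
    (ha : ∃ a : ℤ, β + x = a) (hc : ∃ c : ℤ, β * x = c) : False := by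
  obtain ⟨a, ha⟩ := ha
  obtain ⟨c, hc⟩ := hc
  obtain ⟨hx1, hx2⟩ := abs_le.1 hx
  have a0 : (0 : ℝ) < a := by linarith
  have a1 : 1 ≤ a := by
    have : 0 < a := by exact_mod_cast a0
    omega
  have a1' : (1 : ℝ) ≤ a := by exact_mod_cast a1
  rcases hx2.lt_or_eq with h | h
  · have h3 : (2 - β) * (2 - x) < 0 := mul_neg_of_neg_of_pos (by linarith) (by linarith)
    have h4 : (2 - β) * (2 - x) = 4 - 2 * (β + x) + β * x := by ring
    rw [h4, ha, hc] at h3
    have h5 : 4 - 2 * a + c < 0 := by exact_mod_cast h3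
    have h6 : c ≤ 2 * a - 5 := by omega
    have h6' : (c : ℝ) ≤ 2 * a - 5 := by exact_mod_cast h6
    have h7 : 0 < (9 / 4 - β) * (9 / 4 - x) := mul_pos (by linarith) (by linarith)
    have h8 : (9 / 4 - β) * (9 / 4 - x) = 81 / 16 - 9 / 4 * (β + x) + β * x := by ring
    rw [h8, ha, hc] at h7
    linarith
  · rw [h] at ha
    have h3 : (4 : ℝ) < a := by linarith
    have h4 : (a : ℝ) < 5 := by linarith
    have h3' : 4 < a := by exact_mod_cast h3
    have h4' : a < 5 := by exact_mod_cast h4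
    omega

end SalemAb
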