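import Pool.Agent.Lib.MP_9599cf_nt.Norm
import Pool.Agent.Lib.MP_9599cf_nt.NumB
import Pool.Agent.Lib.MP_9599cf_nt.RealD
import Pool.Agent.Lib.MP_9599cf_nt.RealD3
import Pool.Agent.Lib.MP_9599cf_nt.RealD4

/-! # Small degrees -/

set_option autoImplicit false

namespace SalemAb

open Polynomial

variable {A Γ : Type} [CommRing A] [Group Γ] [MulSemiringAction Γ A] {ι : A →+* ℝ} {b : A}

/-- `b` is fixed, so an integer between `2` and `2.247`. -/
theorem Dat.card_ne_one [Fintype Γ] (D : Dat A Γ ι b) : Fintype.card Γ ≠ 1 := by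
  intro h
  have h1 := Fintype.card_eq_one_iff.1 h
  obtain ⟨g, hg⟩ := h1
  obtain ⟨n, hn⟩ := D.fixed b fun σ => by
    rw [hg σ, ← hg 1, one_smul]
  have h2 := D.gt
  have h3 := lt_2247 D.gt D.lt
  rw [hn, map_intCast] at h2 h3
  have h4 : (2 : ℤ) < n := by exact_mod_cast h2
  have h5 : (n : ℝ) < 3 := by linarith
  have h6 : n < 3 := by exact_mod_cast h5
  omega

/-- PROOF. `Γ = {1, s}`; `b + s • b` and `b (s • b)` are fixed; `d2_false`. -/
theorem Dat.card_ne_two [Fintype Γ] (D : Dat A Γ ι b) : Fintype.card Γ ≠ 2 := by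
  intro h
  have hnt : Nontrivial Γ := Fintype.one_lt_card_iff_nontrivial.1 (by omega)
  obtain ⟨s, hs⟩ := exists_ne (1 : Γ)
  classical
  have hall : ∀ σ : Γ, σ = 1 ∨ σ = s := by
    intro σ
    by_contra hcon
    push Not at hcon
    have h3 : ({1, s, σ} : Finset Γ).card = 3 := by
      rw [Finset.card_eq_three]
      exact ⟨1, s, σ, hs.symm, hcon.1.symm, hcon.2.symm, rfl⟩
    have h4 := Finset.card_le_univ ({1, s, σ} : Finset Γ)
    omega
  have hss : s * s = 1 := by
    rcases hall (s * s) with h1 | h1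
    · exact h1
    · exact absurd (mul_eq_left.1 h1) hs
  have hsb : s • (s • b) = b := by rw [smul_smul, hss, one_smul]
  obtain ⟨a, ha⟩ := D.fixed (b + s • b) fun σ => by
    rcases hall σ with rfl | rfl
    · rw [one_smul]
    · rw [smul_add, hsb, add_comm]
  obtain ⟨c, hc⟩ := D.fixed (b * s • b) fun σ => by
    rcases hall σ with rfl | rfl
    · rw [one_smul]
    · rw [smul_mul', hsb, mul_comm]
  refine d2_false D.gt (lt_2247 D.gt D.lt) (D.small s hs) ⟨a, ?_⟩ ⟨c, ?_⟩
  · have := congrArg ι ha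
    rwa [map_add, map_intCast] at this
  · have := congrArg ι hc
    rwa [map_mul, map_intCast] at this

end SalemAb
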