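import Pool.Agent.Lib.MP_9599cf_nt.Defs

/-! # Group theory -/

set_option autoImplicit false

namespace SalemAb

/-- A group of order six which is commutative has only one element of order two. PROOF. If `s ≠ t` then
`{1, s, t, s t}` is a subgroup with four elements, and `4` does not divide `6`. -/
theorem unique_invol {Γ : Type} [Group Γ] [Fintype Γ] (hcomm : ∀ σ τ : Γ, σ * τ = τ * σ)
    (hc : Fintype.card Γ = 6) {s t : Γ} (hs : s ≠ 1) (ht : t ≠ 1) (hs2 : s ^ 2 = 1)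
    (ht2 : t ^ 2 = 1) : s = t := by
  have h2 : orderOf s = 2 := orderOf_eq_prime hs2 hs
  have hN : (Subgroup.zpowers s).Normal :=
    ⟨fun n hn g => by rw [hcomm g n, mul_assoc, mul_inv_cancel, mul_one]; exact hn⟩
  have h3 : (Subgroup.zpowers s).index = 3 := by
    have h4 := (Subgroup.zpowers s).card_mul_index
    rw [Nat.card_zpowers, h2, Nat.card_eq_fintype_card, hc] at h4
    omega
  have h5 : t ^ 3 ∈ Subgroup.zpowers s := by
    rw [← h3]
    exact Subgroup.pow_index_mem _ t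
  have h6 : t ^ 3 = t := by rw [pow_succ, ht2, one_mul]
  rw [h6] at h5
  obtain ⟨k, hk⟩ := Subgroup.mem_zpowers_iff.1 h5
  obtain ⟨m, rfl | rfl⟩ := Int.even_or_odd' k
  · exfalso
    apply ht
    rw [← hk, zpow_mul, zpow_ofNat, hs2, one_zpow]
  · rw [← hk, zpow_add, zpow_mul, zpow_ofNat, hs2, one_zpow, one_mul, zpow_one]

/-- The `n`-th power of `s` for `n = gcd`: if `s ^ a = 1` and `s ^ c = 1` then `s ^ (gcd a c) = 1`
(`pow_gcd_eq_one`). -/
theorem pow_gcd_one {Γ : Type} [Group Γ] {s : Γ} {a c g : ℕ} (ha : s ^ a = 1) (hc : s ^ c = 1)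
    (hg : Nat.gcd a c = g) : s ^ g = 1 := by
  rw [← hg]
  exact pow_gcd_eq_one.2 ⟨ha, hc⟩

/-- `D_p = X ^ p` modulo `p`. -/
theorem dvd_D5 {A : Type} [CommRing A] (x : A) : ((5 : ℕ) : A) ∣ Polynomial.aeval x D5 - x ^ 5 := by
  refine ⟨x - x ^ 3, ?_⟩
  rw [aeval_D5]
  push_cast
  ring

theorem dvd_D7 {A : Type} [CommRing A] (x : A) : ((7 : ℕ) : A) ∣ Polynomial.aeval x D7 - x ^ 7 := by
  refine ⟨2 * x ^ 3 - x ^ 5 - x, ?_⟩
  rw [aeval_D7]
  push_cast
  ring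

theorem dvd_D11 {A : Type} [CommRing A] (x : A) :
    ((11 : ℕ) : A) ∣ Polynomial.aeval x D11 - x ^ 11 := by
  refine ⟨4 * x ^ 7 - x ^ 9 - 7 * x ^ 5 + 5 * x ^ 3 - x, ?_⟩
  rw [aeval_D11]
  push_cast
  ring

end SalemAb
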