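import Pool.Agent.Lib.MP_9599cf_nt.Norm

/-! # The main inequalities, ramified case -/

set_option autoImplicit false

namespace SalemAb

open Polynomial

private theorem ineqR_prod {Γ : Type} [Group Γ] [Fintype Γ] (f : Γ → ℝ) (hf0 : ∀ σ, 0 ≤ f σ)
    (s : Γ) (hs : s ≠ 1) (C K : ℝ) (_hK : 0 ≤ K) (h1 : f 1 ≤ K * C)
    (h2 : f s⁻¹ ≤ K * C) (h3 : ∀ σ, σ ≠ 1 → σ ≠ s⁻¹ → f σ ≤ K) :
    ∏ σ : Γ, f σ ≤ K ^ Fintype.card Γ * (C * C) := by
  classical
  have hs' : s⁻¹ ≠ 1 := fun h => hs (inv_eq_one.1 h)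
  have hle : ∀ σ : Γ, f σ ≤ K * ((if σ = 1 then C else 1) * (if σ = s⁻¹ then C else 1)) := by
    intro σ
    by_cases e1 : σ = 1
    · subst e1
      rw [if_pos rfl, if_neg (Ne.symm hs'), mul_one]
      exact h1
    · by_cases e2 : σ = s⁻¹
      · subst e2
        rw [if_neg e1, if_pos rfl, one_mul]
        exact h2
      · rw [if_neg e1, if_neg e2, mul_one, mul_one]
        exact h3 σ e1 e2
  calc ∏ σ : Γ, f σ ≤ ∏ σ : Γ, (K * ((if σ = 1 then C else 1) * (if σ = s⁻¹ then C else 1))) :=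
        Finset.prod_le_prod (fun σ _ => hf0 σ) (fun σ _ => hle σ)
    _ = K ^ Fintype.card Γ * (C * C) := by
        rw [Finset.prod_mul_distrib, Finset.prod_mul_distrib, Finset.prod_const,
          Finset.prod_ite_eq' Finset.univ (1 : Γ) (fun _ => C),
          Finset.prod_ite_eq' Finset.univ s⁻¹ (fun _ => C)]
        simp

variable {A Γ : Type} [CommRing A] [Group Γ] [MulSemiringAction Γ A] {ι : A →+* ℝ} {b : A}

private theorem ineqR_smul_aeval (P : ℤ[X]) (σ : Γ) (y : A) :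
    σ • aeval y P = aeval (σ • y) P := by
  have h := Polynomial.aeval_algHom_apply (MulSemiringAction.toRingHom Γ A σ).toIntAlgHom y P
  exact h.symm

private theorem ineqR_map_aeval (P : ℤ[X]) (y : A) : ι (aeval y P) = aeval (ι y) P := by
  have h := Polynomial.aeval_algHom_apply ι.toIntAlgHom y P
  exact h.symm

/-- PROOF. `x = P(b) - P(s • b)` is not zero: `P(β) > 2 ≥ P(ι (s • b))`. By `pow_le_prod` it suffices to bound
the product of `f σ = |P(v σ) - P(v (σ * s))|`, `v σ = ι (σ • b)`. `f σ ≤ 4 a(σ) c(σ)` with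
`a(1) = c(s⁻¹) = (P(β)+2)/4` and all other values `1` (`s⁻¹ ≠ 1`). -/
theorem Dat.ineqR [Fintype Γ] (D : Dat A Γ ι b) (P : ℤ[X])
    (hP : ∀ v : ℝ, |v| ≤ 2 → |aeval v P| ≤ 2) (hb : ι b < aeval (ι b) P) (p : ℕ) (s : Γ)
    (hs : s ≠ 1) (h : (p : A) ∣ aeval b P - aeval (s • b) P) :
    16 * (p : ℝ) ^ Fintype.card Γ ≤ 4 ^ Fintype.card Γ * (aeval (ι b) P + 2) ^ 2 := by
  have hb2 := D.gt
  have hval : ∀ σ : Γ, ι (σ • (aeval b P - aeval (s • b) P)) =
      aeval (ι (σ • b)) P - aeval (ι ((σ * s) • b)) P := by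
    intro σ
    rw [smul_sub, ineqR_smul_aeval, ineqR_smul_aeval, map_sub, ineqR_map_aeval, ineqR_map_aeval,
      mul_smul]
  have hsm : ∀ σ : Γ, σ ≠ 1 → |aeval (ι (σ • b)) P| ≤ 2 := fun σ hσ => hP _ (D.small σ hσ)
  have hx : aeval b P - aeval (s • b) P ≠ 0 := by
    intro h0
    have h1 := hval 1
    rw [h0, smul_zero, map_zero, one_smul, one_mul] at h1
    have h2 := abs_le.1 (hsm s hs)
    linarith [h2.2]
  have hmain := D.pow_le_prod hx h
  have hone : |aeval (ι ((1 : Γ) • b)) P| = aeval (ι b) P := by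
    rw [one_smul]
    exact abs_of_pos (by linarith)
  have hbd : ∀ σ : Γ, |ι (σ • (aeval b P - aeval (s • b) P))| ≤
      |aeval (ι (σ • b)) P| + |aeval (ι ((σ * s) • b)) P| := by
    intro σ
    rw [hval]
    exact abs_sub _ _
  have hprod := ineqR_prod (fun σ : Γ => |ι (σ • (aeval b P - aeval (s • b) P))|)
    (fun σ => abs_nonneg _) s hs ((aeval (ι b) P + 2) / 4) 4 (by norm_num)
    (by
      have h1 := hbd 1
      have h2 := hsm s hs
      rw [one_mul, hone] at h1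
      linarith)
    (by
      have h1 := hbd s⁻¹
      have h2 := hsm s⁻¹ (fun h => hs (inv_eq_one.1 h))
      rw [inv_mul_cancel, hone] at h1
      linarith)
    (by
      intro σ h1 h2
      have h3 := hbd σ
      have h4 := hsm σ h1
      have h5 := hsm (σ * s) (fun h => h2 (eq_inv_of_mul_eq_one_left h))
      linarith)
  have h6 := hmain.trans hprod
  nlinarith [h6]

/-- PROOF. The same with `x = (b - s • b) ^ 2`, `f σ = (v σ - v (σ * s)) ^ 2 ≤ 16 a(σ) c(σ)`,
`a(1) = c(s⁻¹) = ((β + 2) / 4) ^ 2`. -/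
theorem Dat.ineqE [Fintype Γ] (D : Dat A Γ ι b) (q : ℕ) (s : Γ)
    (hs : s ≠ 1) (h : (q : A) ∣ (b - s • b) ^ 2) :
    256 * (q : ℝ) ^ Fintype.card Γ ≤ 16 ^ Fintype.card Γ * (ι b + 2) ^ 4 := by
  have hb2 := D.gt
  have hval : ∀ σ : Γ, ι (σ • (b - s • b) ^ 2) = (ι (σ • b) - ι ((σ * s) • b)) ^ 2 := by
    intro σ
    rw [smul_pow', smul_sub, map_pow, map_sub, mul_smul]
  have hx : (b - s • b) ^ 2 ≠ 0 := by
    intro h0
    have h1 := hval 1
    rw [h0, smul_zero, map_zero, one_smul, one_mul] at h1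
    have h2 := abs_le.1 (D.small s hs)
    have h3 : ι b - ι (s • b) = 0 := by
      have := pow_eq_zero_iff (two_ne_zero) |>.1 h1.symm
      exact this
    linarith [h2.2]
  have hmain := D.pow_le_prod hx h
  have hone : |ι ((1 : Γ) • b)| = ι b := by
    rw [one_smul]
    exact abs_of_pos (by linarith)
  have hbd : ∀ σ : Γ, |ι (σ • (b - s • b) ^ 2)| ≤
      (|ι (σ • b)| + |ι ((σ * s) • b)|) ^ 2 := by
    intro σ
    rw [hval, abs_pow]
    exact pow_le_pow_left₀ (abs_nonneg _) (abs_sub _ _) 2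
  have hprod := ineqR_prod (fun σ : Γ => |ι (σ • (b - s • b) ^ 2)|)
    (fun σ => abs_nonneg _) s hs (((ι b + 2) / 4) ^ 2) 16 (by norm_num)
    (by
      have h1 := hbd 1
      have h2 := D.small s hs
      rw [one_mul, hone] at h1
      have h3 := abs_nonneg (ι (s • b))
      nlinarith)
    (by
      have h1 := hbd s⁻¹
      have h2 := D.small s⁻¹ (fun h => hs (inv_eq_one.1 h))
      rw [inv_mul_cancel, hone] at h1
      have h3 := abs_nonneg (ι (s⁻¹ • b))
      nlinarith)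
    (by
      intro σ h1 h2
      have h3 := hbd σ
      have h4 := D.small σ h1
      have h5 := D.small (σ * s) (fun h => h2 (eq_inv_of_mul_eq_one_left h))
      have h6 := abs_nonneg (ι (σ • b))
      have h7 := abs_nonneg (ι ((σ * s) • b))
      nlinarith)
  have h6 := hmain.trans hprod
  have h7 : ((ι b + 2) / 4) ^ 2 * ((ι b + 2) / 4) ^ 2 = (ι b + 2) ^ 4 / 256 := by ring
  rw [h7] at h6
  linarith

end SalemAb
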