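import Pool.Agent.Lib.MP_9599cf_nt.Defs

/-! # Values of the Dickson polynomials -/

set_option autoImplicit false

namespace SalemAb

open Polynomial

private theorem numA_aux {v d q : ℝ} (hv : |v| ≤ 2) (h : 4 - d ^ 2 = (4 - v ^ 2) * q ^ 2) :
    |d| ≤ 2 := by
  have h1 : v ^ 2 ≤ 4 := by
    have := (abs_le.1 hv)
    nlinarith [this.1, this.2]
  have h2 : 0 ≤ (4 - v ^ 2) * q ^ 2 := mul_nonneg (by linarith) (sq_nonneg q)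
  have h3 : d ^ 2 ≤ 2 ^ 2 := by linarith
  have h4 : |d| ^ 2 ≤ 2 ^ 2 := by rwa [sq_abs]
  exact (pow_le_pow_iff_left₀ (abs_nonneg d) (by norm_num) (by norm_num)).1 h4

private theorem numA_sq {v : ℝ} (hv : 2 < v) : 4 < v ^ 2 := by nlinarith

/-- `4 - D_5(v)² = (4 - v²) (v⁴ - 3 v² + 1)²`. -/
theorem D5_le {v : ℝ} (hv : |v| ≤ 2) : |aeval v D5| ≤ 2 := by
  rw [aeval_D5]
  exact numA_aux (q := v ^ 4 - 3 * v ^ 2 + 1) hv (by ring)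

/-- `4 - D_7(v)² = (4 - v²) (v⁶ - 5 v⁴ + 6 v² - 1)²`. -/
theorem D7_le {v : ℝ} (hv : |v| ≤ 2) : |aeval v D7| ≤ 2 := by
  rw [aeval_D7]
  exact numA_aux (q := v ^ 6 - 5 * v ^ 4 + 6 * v ^ 2 - 1) hv (by ring)

/-- `4 - D_11(v)² = (4 - v²) (v^10 - 9 v^8 + 28 v^6 - 35 v^4 + 15 v^2 - 1)²`. -/
theorem D11_le {v : ℝ} (hv : |v| ≤ 2) : |aeval v D11| ≤ 2 := by
  rw [aeval_D11]
  exact numA_aux (q := v ^ 10 - 9 * v ^ 8 + 28 * v ^ 6 - 35 * v ^ 4 + 15 * v ^ 2 - 1) hv (by ring)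

/-- `D_5(v) - v = v (v² - 1) (v² - 4)`. -/
theorem lt_D5 {v : ℝ} (hv : 2 < v) : v < aeval v D5 := by
  rw [aeval_D5]
  have h := numA_sq hv
  have h0 : 0 < v * (v ^ 2 - 1) * (v ^ 2 - 4) :=
    mul_pos (mul_pos (by linarith) (by linarith)) (by linarith)
  have e : v ^ 5 - 5 * v ^ 3 + 5 * v = v + v * (v ^ 2 - 1) * (v ^ 2 - 4) := by ring
  rw [e]
  linarith

/-- `D_7(v) - v = v (v² - 1) (v² - 2) (v² - 4)`. -/
theorem lt_D7 {v : ℝ} (hv : 2 < v) : v < aeval v D7 := by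
  rw [aeval_D7]
  have h := numA_sq hv
  have h0 : 0 < v * (v ^ 2 - 1) * (v ^ 2 - 2) * (v ^ 2 - 4) :=
    mul_pos (mul_pos (mul_pos (by linarith) (by linarith)) (by linarith)) (by linarith)
  have e : v ^ 7 - 7 * v ^ 5 + 14 * v ^ 3 - 7 * v =
      v + v * (v ^ 2 - 1) * (v ^ 2 - 2) * (v ^ 2 - 4) := by ring
  rw [e]
  linarith

/-- `D_11(v) - v = v (v² - 4) (v² - 1) (v² - 3) (v⁴ - 3 v² + 1)`. -/
theorem lt_D11 {v : ℝ} (hv : 2 < v) : v < aeval v D11 := by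
  rw [aeval_D11]
  have h := numA_sq hv
  have h4 : 0 < v ^ 4 - 3 * v ^ 2 + 1 := by
    have : v ^ 4 - 3 * v ^ 2 + 1 = v ^ 2 * (v ^ 2 - 3) + 1 := by ring
    rw [this]
    have : 0 < v ^ 2 * (v ^ 2 - 3) := mul_pos (by linarith) (by linarith)
    linarith
  have h0 : 0 < v * (v ^ 2 - 4) * (v ^ 2 - 1) * (v ^ 2 - 3) * (v ^ 4 - 3 * v ^ 2 + 1) :=
    mul_pos (mul_pos (mul_pos (mul_pos (by linarith) (by linarith)) (by linarith)) (by linarith)) h4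
  have e : v ^ 11 - 11 * v ^ 9 + 44 * v ^ 7 - 77 * v ^ 5 + 55 * v ^ 3 - 11 * v =
      v + v * (v ^ 2 - 4) * (v ^ 2 - 1) * (v ^ 2 - 3) * (v ^ 4 - 3 * v ^ 2 + 1) := by ring
  rw [e]
  linarith

end SalemAb
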