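import Pool.Agent.Lib.MP_9599cf_nt.IneqU
import Pool.Agent.Lib.MP_9599cf_nt.IneqR
import Pool.Agent.Lib.MP_9599cf_nt.AbsSmall
import Pool.Agent.Lib.MP_9599cf_nt.Abs3
import Pool.Agent.Lib.MP_9599cf_nt.Abs4
import Pool.Agent.Lib.MP_9599cf_nt.GrpA
import Pool.Agent.Lib.MP_9599cf_nt.NumA

/-! # The elementary part of the proof -/

set_option autoImplicit false

namespace SalemAb

open Polynomial

variable {A Γ : Type} [CommRing A] [Group Γ] [MulSemiringAction Γ A] {ι : A →+* ℝ} {b : A}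

/-- Unramified primes. -/
theorem Dat.useU [Fintype Γ] (D : Dat A Γ ι b) (P : ℤ[X])
    (hP : ∀ v : ℝ, |v| ≤ 2 → |aeval v P| ≤ 2) (hb : ι b < aeval (ι b) P) (p : ℕ)
    (hdv : ∀ x : A, (p : A) ∣ aeval x P - x ^ p) {c : ℝ} (hc : aeval (ι b) P ≤ c)
    (h : ∃ s : Γ, ∀ x : A, (p : A) ∣ x ^ p - s • x) :
    16 * (p : ℝ) ^ Fintype.card Γ ≤ 4 ^ Fintype.card Γ * ((c + 2) * 4.247) := by
  obtain ⟨s, hs⟩ := h
  have h1 : (p : A) ∣ aeval b P - s • b := by
    have e : aeval b P - s • b = (aeval b P - b ^ p) + (b ^ p - s • b) := by ring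
    rw [e]
    exact dvd_add (hdv b) (hs b)
  have h2 := D.ineqU P hP hb p s h1
  have h3 := lt_2247 D.gt D.lt
  have h4 := D.gt
  refine h2.trans (mul_le_mul_of_nonneg_left ?_ (by positivity))
  have h5 : 0 ≤ aeval (ι b) P + 2 := by linarith
  exact mul_le_mul (by linarith) (by linarith) (by linarith) (by linarith)

/-- Ramified primes. -/
theorem Dat.useR [Fintype Γ] (D : Dat A Γ ι b) (P : ℤ[X])
    (hP : ∀ v : ℝ, |v| ≤ 2 → |aeval v P| ≤ 2) (hb : ι b < aeval (ι b) P) (p : ℕ)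
    (hdv : ∀ x : A, (p : A) ∣ aeval x P - x ^ p) {c : ℝ} (hc : aeval (ι b) P ≤ c) (s : Γ)
    (hs1 : s ≠ 1) (hs : ∀ x : A, (p : A) ∣ x ^ p - (s • x) ^ p) :
    16 * (p : ℝ) ^ Fintype.card Γ ≤ 4 ^ Fintype.card Γ * (c + 2) ^ 2 := by
  have h1 : (p : A) ∣ aeval b P - aeval (s • b) P := by
    have e : aeval b P - aeval (s • b) P = (aeval b P - b ^ p) + (b ^ p - (s • b) ^ p) -
        (aeval (s • b) P - (s • b) ^ p) := by ring
    rw [e]
    exact dvd_sub (dvd_add (hdv b) (hs b)) (hdv (s • b))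
  have h2 := D.ineqR P hP hb p s hs1 h1
  have h4 := D.gt
  refine h2.trans (mul_le_mul_of_nonneg_left ?_ (by positivity))
  have h5 : 0 ≤ aeval (ι b) P + 2 := by linarith
  exact pow_le_pow_left₀ h5 (by linarith) 2

/-- ASSEMBLY (captain). Let `d` be the order of `Γ`. `U(p)`: `16 p^d ≤ 4^d (D_p(β) + 2) (β + 2)`, `R(7)`:
`16 7^d ≤ 4^d (D_7(β) + 2)²`. `d ≥ 8` is against `R(7)` (`U(7)` is stronger). `d = 7`: `s^7 = 1` and (`s^5 = 1` or
`s^4 = 1`) give `s = 1`, so `U(5)`: impossible. `d = 6`: `U(5)`, `U(11)` impossible, so there are `s`, `t ≠ 1` with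
`s² = t² = 1`, `s = t`, `55 ∣ (b - s • b)²`, against `ineqE`. `d = 5`: `U(7)`. `d = 4`: `U(7)` impossible, so
`false_of_card_four`. -/
theorem Dat.false [Fintype Γ] (D : Dat A Γ ι b) (h5 : Dich A Γ 5) (h7 : Dich A Γ 7)
    (h11 : Dich A Γ 11) : False := by
  have hβ := lt_2247 D.gt D.lt
  have hU5 := D.useU D5 (fun v hv => D5_le hv) (lt_D5 D.gt) 5 dvd_D5 (D5_ub D.gt hβ)
  have hU7 := D.useU D7 (fun v hv => D7_le hv) (lt_D7 D.gt) 7 dvd_D7 (D7_ub D.gt hβ)
  have hU11 := D.useU D11 (fun v hv => D11_le hv) (lt_D11 D.gt) 11 dvd_D11 (D11_ub D.gt hβ)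
  have hR7 := D.useR D7 (fun v hv => D7_le hv) (lt_D7 D.gt) 7 dvd_D7 (D7_ub D.gt hβ)
  have hpow : ∀ s : Γ, s ^ Fintype.card Γ = 1 := fun s => pow_card_eq_one
  have hpos : 0 < Fintype.card Γ := Fintype.card_pos
  have key : ∀ {s : Γ} {a g : ℕ}, s ^ a = 1 → Nat.gcd a (Fintype.card Γ) = g → s ^ g = 1 :=
    fun ha hg => pow_gcd_one ha (hpow _) hg
  have key1 : ∀ {s : Γ} {a : ℕ}, s ^ a = 1 → Nat.gcd a (Fintype.card Γ) = 1 → s = 1 :=
    fun ha hg => by simpa using key ha hg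
  -- the order is less than eight
  have hlt : Fintype.card Γ < 8 := by
    have h1 : 16 * ((7 : ℕ) : ℝ) ^ Fintype.card Γ ≤ 4 ^ Fintype.card Γ * (31.4 + 2) ^ 2 := by
      rcases h7 with h | ⟨s, hs1, hs, -⟩
      · refine (hU7 h).trans (mul_le_mul_of_nonneg_left ?_ (by positivity))
        norm_num
      · exact hR7 s hs1 hs
    by_contra hge
    push Not at hge
    obtain ⟨k, hk⟩ := Nat.exists_eq_add_of_le hge
    rw [hk, pow_add, pow_add] at h1
    have h2 : (4 : ℝ) ^ k ≤ ((7 : ℕ) : ℝ) ^ k := pow_le_pow_left₀ (by norm_num) (by norm_num) k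
    have h3 : (0 : ℝ) < 4 ^ k := by positivity
    have h4 : 16 * (((7 : ℕ) : ℝ) ^ 8 * 4 ^ k) ≤ 4 ^ 8 * 4 ^ k * (31.4 + 2) ^ 2 := by
      refine le_trans ?_ h1
      exact mul_le_mul_of_nonneg_left (mul_le_mul_of_nonneg_left h2 (by positivity))
        (by norm_num)
    have h5 : (4 : ℝ) ^ k * (16 * ((7 : ℕ) : ℝ) ^ 8) ≤ 4 ^ k * (4 ^ 8 * (31.4 + 2) ^ 2) := by
      calc (4 : ℝ) ^ k * (16 * ((7 : ℕ) : ℝ) ^ 8) = 16 * (((7 : ℕ) : ℝ) ^ 8 * 4 ^ k) := by ring
        _ ≤ 4 ^ 8 * 4 ^ k * (31.4 + 2) ^ 2 := h4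
        _ = 4 ^ k * (4 ^ 8 * (31.4 + 2) ^ 2) := by ring
    have h6 := le_of_mul_le_mul_left h5 h3
    norm_num at h6
  have hcases : Fintype.card Γ = 1 ∨ Fintype.card Γ = 2 ∨ Fintype.card Γ = 3 ∨
      Fintype.card Γ = 4 ∨ Fintype.card Γ = 5 ∨ Fintype.card Γ = 6 ∨ Fintype.card Γ = 7 := by
    omega
  rcases hcases with hd | hd | hd | hd | hd | hd | hd
  · exact D.card_ne_one hd
  · exact D.card_ne_two hd
  · exact D.card_ne_three hd
  · rcases h7 with h | ⟨s, hs1, hs, hs2⟩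
    · have h1 := hU7 h
      rw [hd] at h1
      norm_num at h1
    · rcases hs2 with h2 | ⟨h2, h3⟩
      · exact hs1 (key1 h2 (by rw [hd]; rfl))
      · have h4 : s ^ 2 = 1 := key h2 (by rw [hd]; rfl)
        refine D.false_of_card_four hd s hs1 h4 ?_
        have h5 := h3 h4 b
        exact_mod_cast h5
  · rcases h7 with h | ⟨s, hs1, hs, hs2⟩
    · have h1 := hU7 h
      rw [hd] at h1
      norm_num at h1
    · rcases hs2 with h2 | ⟨h2, -⟩
      · exact hs1 (key1 h2 (by rw [hd]; rfl))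
      · exact hs1 (key1 h2 (by rw [hd]; rfl))
  · rcases h5 with h | ⟨s, hs1, -, hs2⟩
    · have h1 := hU5 h
      rw [hd] at h1
      norm_num at h1
    · rcases hs2 with h2 | ⟨h2, h3⟩
      · exact hs1 (key1 h2 (by rw [hd]; rfl))
      · have h4 : s ^ 2 = 1 := key h2 (by rw [hd]; rfl)
        have hs5 := h3 h4 b
        rcases h11 with h | ⟨t, ht1, -, ht2⟩
        · have h1 := hU11 h
          rw [hd] at h1
          norm_num at h1
        · rcases ht2 with h6 | ⟨h6, h7'⟩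
          · exact ht1 (key1 h6 (by rw [hd]; rfl))
          · have h8 : t ^ 2 = 1 := key h6 (by rw [hd]; rfl)
            have hst : s = t := unique_invol D.comm hd hs1 ht1 h4 h8
            have ht11 := h7' h8 b
            rw [← hst] at ht11
            have h55 : ((55 : ℕ) : A) ∣ (b - s • b) ^ 2 := by
              have hcop : IsCoprime ((5 : ℕ) : A) ((11 : ℕ) : A) :=
                ⟨-2, 1, by push_cast; ring⟩
              have h9 := hcop.mul_dvd hs5 ht11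
              have e : ((55 : ℕ) : A) = ((5 : ℕ) : A) * ((11 : ℕ) : A) := by
                push_cast; ring
              rw [e]
              exact h9
            have h9 := D.ineqE 55 s hs1 h55
            rw [hd] at h9
            have h10 := D.gt
            have h11' : (ι b + 2) ^ 4 ≤ 4.247 ^ 4 := pow_le_pow_left₀ (by linarith)
              (by linarith) 4
            have h12 : (256 : ℝ) * ((55 : ℕ) : ℝ) ^ 6 ≤ 16 ^ 6 * 4.247 ^ 4 :=
              h9.trans (mul_le_mul_of_nonneg_left h11' (by positivity))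
            norm_num at h12
  · rcases h5 with h | ⟨s, hs1, -, hs2⟩
    · have h1 := hU5 h
      rw [hd] at h1
      norm_num at h1
    · rcases hs2 with h2 | ⟨h2, -⟩
      · exact hs1 (key1 h2 (by rw [hd]; rfl))
      · exact hs1 (key1 h2 (by rw [hd]; rfl))

end SalemAb
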