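import Pool.Agent.Lib.MP_9599cf_nt.Defs

/-! # Cyclotomic fields: Frobenius -/

set_option autoImplicit false

namespace SalemAb

open NumberField

namespace Fro

/-- Ring homomorphisms which agree at the root of unity are equal. -/
theorem hom_ext {L : Type} [Field L] [NumberField L] {m : ℕ} [NeZero m]
    [IsCyclotomicExtension {m} ℚ L] {ζ : L} (hζ : IsPrimitiveRoot ζ m) {B : Type} [CommRing B]
    (φ ψ : 𝓞 L →+* B) (h : φ hζ.toInteger = ψ hζ.toInteger) : φ = ψ := by
  have h1 := IsCyclotomicExtension.Rat.adjoin_singleton_eq_top hζ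
  have h2 : φ.toIntAlgHom = ψ.toIntAlgHom := by
    refine AlgHom.ext_of_adjoin_eq_top h1 ?_
    rintro x hx
    rw [Set.mem_singleton_iff] at hx
    subst hx
    exact h
  exact RingHom.ext fun x => by
    have := AlgHom.congr_fun h2 x
    exact this

/-- The map `x ↦ x ^ p` modulo `p` is a ring homomorphism. -/
theorem exists_frob (A : Type) [CommRing A] (p : ℕ) [Fact p.Prime] :
    ∃ φ : A →+* A ⧸ Ideal.span {(p : A)}, ∀ x, φ x = Ideal.Quotient.mk _ (x ^ p) := by
  rcases subsingleton_or_nontrivial (A ⧸ Ideal.span {(p : A)}) with hs | hn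
  · exact ⟨Ideal.Quotient.mk _, fun x => Subsingleton.elim _ _⟩
  · have h0 : ((p : ℕ) : A ⧸ Ideal.span {(p : A)}) = 0 := by
      have h1 : (Ideal.Quotient.mk (Ideal.span {(p : A)})) (p : A) = 0 :=
        Ideal.Quotient.eq_zero_iff_mem.2 (Ideal.subset_span rfl)
      rwa [map_natCast] at h1
    have : CharP (A ⧸ Ideal.span {(p : A)}) p :=
      (CharP.charP_iff_prime_eq_zero (Fact.out : p.Prime)).2 h0
    exact ⟨(frobenius (A ⧸ Ideal.span {(p : A)}) p).comp (Ideal.Quotient.mk _), fun x => by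
      rw [RingHom.comp_apply, frobenius_def, map_pow]⟩

end Fro

/-- PROOF. `s ζ = ζ ^ p` (`IsCyclotomicExtension.fromZetaAut` or `IsCyclotomicExtension.autEquivPow`). The two ring
homomorphisms `x ↦ x ^ p` and `x ↦ s • x` from `𝓞 L` to the ring `𝓞 L / p` of characteristic `p` agree at `ζ`, and
`𝓞 L = ℤ[ζ]` (`IsCyclotomicExtension.Rat.adjoin_singleton_eq_top`). -/
theorem frob (L : Type) [Field L] [NumberField L] (m : ℕ) [NeZero m]
    [IsCyclotomicExtension {m} ℚ L] (p : ℕ) [Fact p.Prime] (hpm : ¬ p ∣ m) :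
    ∃ s : L ≃ₐ[ℚ] L, ∀ x : 𝓞 L, (p : 𝓞 L) ∣ x ^ p - s • x := by
  have hζ := IsCyclotomicExtension.zeta_spec m ℚ L
  have hcop : Nat.Coprime p m := (Nat.Prime.coprime_iff_not_dvd (Fact.out : p.Prime)).2 hpm
  have hμ : IsPrimitiveRoot (IsCyclotomicExtension.zeta m ℚ L ^ p) m := hζ.pow_of_coprime p hcop
  have hirr : Irreducible (Polynomial.cyclotomic m ℚ) :=
    Polynomial.cyclotomic.irreducible_rat (Nat.pos_of_ne_zero (NeZero.ne m))
  refine ⟨IsCyclotomicExtension.fromZetaAut hμ hirr, fun x => ?_⟩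
  set s := IsCyclotomicExtension.fromZetaAut hμ hirr with hs
  have hsζ : s (IsCyclotomicExtension.zeta m ℚ L) = IsCyclotomicExtension.zeta m ℚ L ^ p :=
    IsCyclotomicExtension.fromZetaAut_spec hμ hirr
  obtain ⟨φ, hφ⟩ := Fro.exists_frob (𝓞 L) p
  have h1 : φ = (Ideal.Quotient.mk _).comp (MulSemiringAction.toRingHom (L ≃ₐ[ℚ] L) (𝓞 L) s) := by
    refine Fro.hom_ext hζ _ _ ?_
    rw [hφ, RingHom.comp_apply]
    congr 1
    apply RingOfIntegers.ext
    exact hsζ.symm
  have h2 := RingHom.congr_fun h1 x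
  rw [hφ, RingHom.comp_apply, Ideal.Quotient.eq, Ideal.mem_span_singleton] at h2
  exact h2

end SalemAb
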