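import Pool.Agent.Lib.MP_9599cf_nt.Descend
import Pool.Agent.Lib.MP_9599cf_nt.Frob

/-! # Cyclotomic fields: Frobenius -/

set_option autoImplicit false

namespace SalemAb

open NumberField

/-- PROOF. With `s` of `frob`: `p ∣ w ^ (p ^ j) - s ^ j • w` for all `j` (induction); take `j ≥ k` with `s ^ j = 1`
(a multiple of the order of `s`); `w ^ (p ^ j)` is divisible by `w ^ k`, so by `p`. -/
theorem dvd_of_dvd_pow (L : Type) [Field L] [NumberField L] (m : ℕ) [NeZero m]
    [IsCyclotomicExtension {m} ℚ L] (p : ℕ) [Fact p.Prime] (hpm : ¬ p ∣ m) (w : 𝓞 L) (k : ℕ)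
    (h : (p : 𝓞 L) ∣ w ^ k) : (p : 𝓞 L) ∣ w := by
  obtain ⟨s, hs⟩ := frob L m p hpm
  have hind : ∀ j : ℕ, (p : 𝓞 L) ∣ w ^ (p ^ j) - s ^ j • w := by
    intro j
    induction j with
    | zero => simp
    | succ j ih =>
      have h1 : (p : 𝓞 L) ∣ (w ^ (p ^ j)) ^ p - (s ^ j • w) ^ p :=
        ih.trans (sub_dvd_pow_sub_pow _ _ p)
      have h2 := hs (s ^ j • w)
      have h3 := dvd_add h1 h2
      rw [sub_add_sub_cancel, ← pow_mul, ← pow_succ, smul_smul, ← pow_succ'] at h3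
      exact h3
  have hpos : 0 < orderOf s := orderOf_pos s
  have hj : s ^ (orderOf s * k) = 1 := by rw [pow_mul, pow_orderOf_eq_one, one_pow]
  have h4 := hind (orderOf s * k)
  rw [hj, one_smul] at h4
  have hp2 : 1 < p := (Fact.out : p.Prime).one_lt
  have hk : k ≤ p ^ (orderOf s * k) := by
    have h5 : orderOf s * k < p ^ (orderOf s * k) := Nat.lt_pow_self hp2
    have h6 : k ≤ orderOf s * k := Nat.le_mul_of_pos_left k hpos
    omega
  have h7 : (p : 𝓞 L) ∣ w ^ (p ^ (orderOf s * k)) := h.trans (pow_dvd_pow w hk)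
  exact (dvd_sub_right h7).1 h4

end SalemAb
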