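import Pool.Agent.Lib.MP_9599cf_nt.SalemA

/-! # The data of a Salem number -/

set_option autoImplicit false

namespace SalemAb

open Polynomial IntermediateField NumberField

private theorem datA_rev {S : Type*} [Field S] (x : S) (hx : x ≠ 0) (p : ℤ[X]) :
    aeval x p.reverse = 0 ↔ aeval x⁻¹ p = 0 := by
  letI : Invertible x⁻¹ := invertibleOfNonzero (inv_ne_zero hx)
  have h := Polynomial.eval₂_reverse_eq_zero_iff (algebraMap ℤ S) x⁻¹ p
  have h1 : ⅟(x⁻¹) = x := by rw [invOf_eq_inv, inv_inv]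
  rw [h1] at h
  exact h

/-- PROOF. `β = t + t⁻¹` is integral over `ℤ` (`t⁻¹` is a conjugate of `t`, see `salem_roots` and its proof: `t⁻¹` is a root of
`minpoly ℚ t = minpoly ℤ t`). -/
theorem isIntegral_trace {t : ℝ} (h : IsSalem t) : IsIntegral ℤ (t + t⁻¹) := by
  obtain ⟨hint, ht1, -, z, hz, hn⟩ := h
  have ht0 : t ≠ 0 := by
    intro h0
    rw [h0] at ht1
    exact absurd ht1 (by norm_num)
  have hz0 : z ≠ 0 := by
    intro h0
    rw [h0, norm_zero] at hn
    exact zero_ne_one hn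
  have hmp := minpoly.isIntegrallyClosed_eq_field_fractions' ℚ hint
  have hzint : IsIntegral ℤ z := by
    refine ⟨minpoly ℤ t, minpoly.monic hint, ?_⟩
    rw [hmp, aeval_map_algebraMap] at hz
    exact hz
  have hinv : z⁻¹ = (starRingEnd ℂ) z := by
    rw [Complex.inv_def, Complex.normSq_eq_norm_sq, hn]
    simp
  have hzint' : IsIntegral ℤ z⁻¹ := by
    rw [hinv]
    exact hzint.map (starRingEnd ℂ).toIntAlgHom
  have h1 : aeval z (minpoly ℤ z⁻¹).reverse = 0 := (datA_rev z hz0 _).2 (minpoly.aeval ℤ z⁻¹)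
  have htQ : IsIntegral ℚ t := hint.tower_top
  have h2 : minpoly ℚ t = minpoly ℚ z :=
    minpoly.eq_of_irreducible_of_monic (minpoly.irreducible htQ) hz (minpoly.monic htQ)
  have h3 : minpoly ℚ z ∣ (minpoly ℤ z⁻¹).reverse.map (algebraMap ℤ ℚ) := by
    refine minpoly.dvd ℚ z ?_
    rw [aeval_map_algebraMap]
    exact h1
  rw [← h2] at h3
  have h4 : aeval t (minpoly ℤ z⁻¹).reverse = 0 := by
    obtain ⟨q, hq⟩ := h3
    rw [← aeval_map_algebraMap ℚ, hq, map_mul, minpoly.aeval, zero_mul]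
  have h5 : IsIntegral ℤ t⁻¹ := ⟨minpoly ℤ z⁻¹, minpoly.monic hzint', (datA_rev t ht0 _).1 h4⟩
  exact hint.add h5

end SalemAb
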