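import Mathlib

/-!
# MP_9599cf_nt: Salem numbers with abelian trace field: definitions
-/

set_option autoImplicit false

namespace SalemAb

open Polynomial

/-- Salem numbers (as in the frozen statement): real algebraic integers `t > 1` whose other
conjugates are in the closed unit disk, at least one of them on the unit circle. -/
def IsSalem (t : ℝ) : Prop :=
  IsIntegral ℤ t ∧ 1 < t ∧
    (∀ z : ℂ, Polynomial.aeval z (minpoly ℚ t) = 0 → z ≠ (t : ℂ) → ‖z‖ ≤ 1) ∧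
    (∃ z : ℂ, Polynomial.aeval z (minpoly ℚ t) = 0 ∧ ‖z‖ = 1)

/-- `t + 1 / t` (so the trace field `ℚ(t + 1 / t)`) is contained in a cyclotomic field. By the
theorem of Kronecker and Weber this means that the trace field is abelian over `ℚ`. -/
def CyclotomicTrace (t : ℝ) : Prop :=
  ∃ m : ℕ, 0 < m ∧ ∃ ζ : ℂ, IsPrimitiveRoot ζ m ∧
    ((t + t⁻¹ : ℝ) : ℂ) ∈ IntermediateField.adjoin ℚ {ζ}

/-- The data extracted from a Salem number with abelian trace field `K`: `A` is the ring of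
integers of `K`, `Γ` the Galois group, `ι` the embedding in `ℝ`, `b = t + 1 / t` with
`2 < b < 1 + 2 cos (2 π / 7)`. -/
structure Dat (A Γ : Type) [CommRing A] [Group Γ] [MulSemiringAction Γ A] (ι : A →+* ℝ)
    (b : A) : Prop where
  comm : ∀ σ τ : Γ, σ * τ = τ * σ
  inj : Function.Injective ι
  fixed : ∀ u : A, (∀ σ : Γ, σ • u = u) → ∃ n : ℤ, u = n
  gt : 2 < ι b
  lt : ι b ^ 3 - 2 * ι b ^ 2 - ι b + 1 < 0
  small : ∀ σ : Γ, σ ≠ 1 → |ι (σ • b)| ≤ 2

/-- The behaviour of the prime `p`: unramified with Frobenius `s`, or ramified with an element `s`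
of a ramification group. -/
def Dich (A Γ : Type) [CommRing A] [Group Γ] [MulSemiringAction Γ A] (p : ℕ) : Prop :=
  (∃ s : Γ, ∀ x : A, (p : A) ∣ x ^ p - s • x) ∨
  (∃ s : Γ, s ≠ 1 ∧ (∀ x : A, (p : A) ∣ x ^ p - (s • x) ^ p) ∧
    (s ^ p = 1 ∨ (s ^ (p - 1) = 1 ∧ (s ^ 2 = 1 → ∀ x : A, (p : A) ∣ (x - s • x) ^ 2))))

/-- The Dickson polynomial `D_5`: `D_5 (z + 1 / z) = z ^ 5 + 1 / z ^ 5`. -/
noncomputable def D5 : ℤ[X] := X ^ 5 - 5 * X ^ 3 + 5 * X

/-- The Dickson polynomial `D_7`. -/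
noncomputable def D7 : ℤ[X] := X ^ 7 - 7 * X ^ 5 + 14 * X ^ 3 - 7 * X

/-- The Dickson polynomial `D_11`. -/
noncomputable def D11 : ℤ[X] :=
  X ^ 11 - 11 * X ^ 9 + 44 * X ^ 7 - 77 * X ^ 5 + 55 * X ^ 3 - 11 * X

theorem aeval_D5 {R : Type*} [CommRing R] (x : R) : aeval x D5 = x ^ 5 - 5 * x ^ 3 + 5 * x := by
  simp only [D5, map_add, map_sub, map_mul, map_pow, aeval_X, map_ofNat]

theorem aeval_D7 {R : Type*} [CommRing R] (x : R) :
    aeval x D7 = x ^ 7 - 7 * x ^ 5 + 14 * x ^ 3 - 7 * x := by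
  simp only [D7, map_add, map_sub, map_mul, map_pow, aeval_X, map_ofNat]

theorem aeval_D11 {R : Type*} [CommRing R] (x : R) :
    aeval x D11 = x ^ 11 - 11 * x ^ 9 + 44 * x ^ 7 - 77 * x ^ 5 + 55 * x ^ 3 - 11 * x := by
  simp only [D11, map_add, map_sub, map_mul, map_pow, aeval_X, map_ofNat]

end SalemAb
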