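import Pool.Agent.Lib.MP_9599cf_nt.Defs

/-! # Cyclotomic fields: Frobenius -/

set_option autoImplicit false

namespace SalemAb

open NumberField

/-- PROOF. If `x = n z` in `L` with `z` integral over `ℤ`, then `z = x / n` is in (the image of) `K`, and integral. -/
theorem dvd_descend {K L : Type} [Field K] [Field L] [CharZero K] [CharZero L] (f : K →+* L)
    (n : ℕ) (hn : n ≠ 0) (x : 𝓞 K) (z : 𝓞 L) (h : f (x : K) = n * (z : L)) :
    (n : 𝓞 K) ∣ x := by
  have hnK : (n : K) ≠ 0 := by exact_mod_cast hn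
  have hnL : (n : L) ≠ 0 := by exact_mod_cast hn
  have h1 : f ((x : K) / n) = (z : L) := by
    rw [map_div₀, map_natCast, h, mul_div_cancel_left₀ _ hnL]
  have h2 : IsIntegral ℤ ((x : K) / n) := by
    have h3 : IsIntegral ℤ (f.toIntAlgHom ((x : K) / n)) := by
      have h4 : f.toIntAlgHom ((x : K) / n) = (z : L) := h1
      rw [h4]
      exact RingOfIntegers.isIntegral_coe z
    exact (isIntegral_algHom_iff f.toIntAlgHom f.injective).1 h3
  refine ⟨⟨(x : K) / n, h2⟩, ?_⟩
  apply RingOfIntegers.coe_injective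
  show (x : K) = algebraMap (𝓞 K) K ((n : 𝓞 K) * ⟨(x : K) / n, h2⟩)
  rw [map_mul, map_natCast]
  show (x : K) = (n : K) * ((x : K) / n)
  rw [mul_div_cancel₀ _ hnK]

end SalemAb
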