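import Pool.Agent.Lib.MP_9599cf_nt.Defs

/-! # Elements fixed by the inertia group, 2 -/

set_option autoImplicit false

namespace SalemAb

open NumberField IntermediateField

/-- PROOF. Galois correspondence (`IsGalois.fixedField_fixingSubgroup`, `L / ℚ` is Galois,
`IsCyclotomicExtension.isGalois`): an automorphism in the fixing subgroup of `ℚ⟮ζ ^ p⟯` fixes `ζ ^ p`. -/
theorem mem_adjoin_of_fixed (L : Type) [Field L] [NumberField L] (m : ℕ) [NeZero m]
    [IsCyclotomicExtension {m} ℚ L] {ζ : L} (hζ : IsPrimitiveRoot ζ m) (p : ℕ) (x : L)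
    (hx : ∀ σ : L ≃ₐ[ℚ] L, σ (ζ ^ p) = ζ ^ p → σ x = x) : x ∈ ℚ⟮ζ ^ p⟯ := by
  haveI : IsGalois ℚ L := IsCyclotomicExtension.isGalois {m} ℚ L
  have h := IsGalois.fixedField_fixingSubgroup (ℚ⟮ζ ^ p⟯ : IntermediateField ℚ L)
  rw [← h, IntermediateField.mem_fixedField_iff]
  intro σ hσ
  apply hx
  exact (IntermediateField.mem_fixingSubgroup_iff _ _).1 hσ _ (mem_adjoin_simple_self ℚ _)

end SalemAb
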