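import Pool.Agent.Lib.MP_9599cf_nt.Prod
import Pool.Agent.Lib.MP_9599cf_nt.FixA
import Pool.Agent.Lib.MP_9599cf_nt.Cyc

/-! # Elements fixed by the inertia group, 2 -/

set_option autoImplicit false

namespace SalemAb

open NumberField IntermediateField

/-- PROOF. `F = ℚ⟮ζ ^ p⟯` is an `n`-th cyclotomic extension of `ℚ` (`ζ ^ p` is a primitive `n`-th root of unity;
`IsPrimitiveRoot.intermediateField_adjoin_isCyclotomicExtension`), `w` is in `F` (`mem_adjoin_of_fixed`), so it comes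
from `w' : 𝓞 F`. By `dvd_pow_of_fixed` and `dvd_descend`, `p ∣ w' ^ (p - 1)`, so `p ∣ w'` by `dvd_of_dvd_pow`. -/
theorem dvd_of_fixed (L : Type) [Field L] [NumberField L] (n p : ℕ) [NeZero n] [Fact p.Prime]
    [NeZero (p * n)] [IsCyclotomicExtension {p * n} ℚ L] {ζ : L}
    (hζ : IsPrimitiveRoot ζ (p * n)) (hpn : ¬ p ∣ n) (w : 𝓞 L)
    (hw : ∀ σ : L ≃ₐ[ℚ] L, σ (ζ ^ p) = ζ ^ p → σ • w = w)
    (h : (1 - hζ.toInteger ^ n) ∣ w) : (p : 𝓞 L) ∣ w := by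
  have hζp : IsPrimitiveRoot (ζ ^ p) n := hζ.pow (NeZero.pos _) (a := p) (b := n) rfl
  have hcyc : IsCyclotomicExtension {n} ℚ ℚ⟮ζ ^ p⟯ :=
    hζp.intermediateField_adjoin_isCyclotomicExtension ℚ
  have hmem : (w : L) ∈ ℚ⟮ζ ^ p⟯ := by
    refine mem_adjoin_of_fixed L (p * n) hζ p (w : L) ?_
    intro σ hσ
    have h1 := congrArg (fun x : 𝓞 L => (x : L)) (hw σ hσ)
    exact h1
  have hint : IsIntegral ℤ (⟨(w : L), hmem⟩ : ℚ⟮ζ ^ p⟯) := by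
    have h1 : IsIntegral ℤ (w : L) := RingOfIntegers.isIntegral_coe w
    exact (isIntegral_algHom_iff (ℚ⟮ζ ^ p⟯.val.restrictScalars ℤ)
      (RingHom.injective ℚ⟮ζ ^ p⟯.val.toRingHom)).1 h1
  let w' : 𝓞 ℚ⟮ζ ^ p⟯ := ⟨⟨(w : L), hmem⟩, hint⟩
  have hww : algebraMap (𝓞 ℚ⟮ζ ^ p⟯) (𝓞 L) w' = w := by
    apply RingOfIntegers.ext
    rfl
  obtain ⟨z, hz⟩ := dvd_pow_of_fixed L n p hζ hpn w hw h
  have h2 : (p : 𝓞 ℚ⟮ζ ^ p⟯) ∣ w' ^ (p - 1) := by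
    refine dvd_descend (algebraMap ℚ⟮ζ ^ p⟯ L) p (Fact.out : p.Prime).ne_zero (w' ^ (p - 1)) z ?_
    have h3 := congrArg (fun x : 𝓞 L => (x : L)) hz
    simp only [map_pow, map_mul, map_natCast] at h3
    show algebraMap ℚ⟮ζ ^ p⟯ L (algebraMap (𝓞 ℚ⟮ζ ^ p⟯) ℚ⟮ζ ^ p⟯ (w' ^ (p - 1))) =
      p * algebraMap (𝓞 L) L z
    rw [map_pow, map_pow]
    exact h3
  have h4 : (p : 𝓞 ℚ⟮ζ ^ p⟯) ∣ w' := dvd_of_dvd_pow ℚ⟮ζ ^ p⟯ n p hpn w' (p - 1) h2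
  have h5 := map_dvd (algebraMap (𝓞 ℚ⟮ζ ^ p⟯) (𝓞 L)) h4
  rw [map_natCast, hww] at h5
  exact h5

end SalemAb
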