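import Pool.Agent.Lib.MP_9599cf_nt.FixA

/-! # Elements fixed by the inertia group, 2 -/

set_option autoImplicit false

namespace SalemAb

open NumberField IntermediateField

/-- PROOF. By `mem_adjoin_of_fixed` the image of `f` is contained in `F = ℚ⟮ζ ^ p⟯`, which is an `n`-th cyclotomic extension
of `ℚ`, so isomorphic to `CyclotomicField n ℚ` (`IsCyclotomicExtension.algEquiv`). -/
theorem emb_of_fixed (K L : Type) [Field K] [NumberField K] [Field L] [NumberField L] (n p : ℕ)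
    [NeZero n] [Fact p.Prime] [NeZero (p * n)] [IsCyclotomicExtension {p * n} ℚ L] {ζ : L}
    (hζ : IsPrimitiveRoot ζ (p * n)) (f : K →ₐ[ℚ] L)
    (h : ∀ σ : L ≃ₐ[ℚ] L, σ (ζ ^ p) = ζ ^ p → ∀ x : K, σ (f x) = f x) :
    Nonempty (K →ₐ[ℚ] CyclotomicField n ℚ) := by
  have hprim : IsPrimitiveRoot (ζ ^ p) n :=
    hζ.pow (Nat.pos_of_ne_zero (NeZero.ne (p * n))) rfl
  have hF : IsCyclotomicExtension {n} ℚ ℚ⟮ζ ^ p⟯ :=
    hprim.intermediateField_adjoin_isCyclotomicExtension ℚ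
  have hmem : ∀ x : K, f x ∈ (ℚ⟮ζ ^ p⟯ : IntermediateField ℚ L) := fun x =>
    mem_adjoin_of_fixed L (p * n) hζ p (f x) (fun σ hσ => h σ hσ x)
  let g : K →ₐ[ℚ] (ℚ⟮ζ ^ p⟯ : IntermediateField ℚ L) :=
    AlgHom.codRestrict f (ℚ⟮ζ ^ p⟯ : IntermediateField ℚ L).toSubalgebra hmem
  have hn0 : NeZero ((n : ℕ) : ℚ) := ⟨Nat.cast_ne_zero.2 (NeZero.ne n)⟩
  have hC : IsCyclotomicExtension {n} ℚ (CyclotomicField n ℚ) :=
    CyclotomicField.isCyclotomicExtension n ℚ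
  let e : (ℚ⟮ζ ^ p⟯ : IntermediateField ℚ L) ≃ₐ[ℚ] CyclotomicField n ℚ :=
    IsCyclotomicExtension.algEquiv {n} ℚ _ _
  exact ⟨(e : (ℚ⟮ζ ^ p⟯ : IntermediateField ℚ L) →ₐ[ℚ] CyclotomicField n ℚ).comp g⟩

end SalemAb
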