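import Pool.Agent.Lib.MP_9599cf_nt.Defs

/-! # Cyclotomic fields: the tame inertia group is cyclic -/

set_option autoImplicit false

namespace SalemAb

open NumberField

/-- PROOF. Let `g` be a generator of `(ZMod p)ˣ` (cyclic), `a = g` modulo `p`, `a = 1` modulo `n` (`Nat.chineseRemainder`,
`ZMod.chineseRemainder`), `σ ζ = ζ ^ a` (`IsCyclotomicExtension.autEquivPow`). If `τ (ζ ^ p) = ζ ^ p` then `τ ζ = ζ ^ c`
with `c = 1` modulo `n`, `c = a ^ j` modulo `p` for some `j`, so `c = a ^ j` modulo `p n` and `τ = σ ^ j`. (Another way: the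
group of these `τ` is isomorphic to a subgroup of `(ZMod p)ˣ`, so cyclic.) -/
theorem exists_gen (L : Type) [Field L] [NumberField L] (n p : ℕ) [NeZero n] [Fact p.Prime]
    [NeZero (p * n)] [IsCyclotomicExtension {p * n} ℚ L] {ζ : L}
    (hζ : IsPrimitiveRoot ζ (p * n)) (hpn : ¬ p ∣ n) :
    ∃ σ : L ≃ₐ[ℚ] L, σ (ζ ^ p) = ζ ^ p ∧
      ∀ τ : L ≃ₐ[ℚ] L, τ (ζ ^ p) = ζ ^ p → ∃ j : ℕ, τ = σ ^ j := by
  classical
  have hp : p.Prime := Fact.out
  have hinj : Function.Injective (hζ.autToPow ℚ) :=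
    IsPrimitiveRoot.autToPow_injective ℚ hζ
  let H : Subgroup (L ≃ₐ[ℚ] L) :=
    { carrier := {τ | τ (ζ ^ p) = ζ ^ p}
      mul_mem' := fun {a b} ha hb => by
        show a (b (ζ ^ p)) = ζ ^ p
        rw [show b (ζ ^ p) = ζ ^ p from hb]
        exact ha
      one_mem' := rfl
      inv_mem' := fun {a} ha => by
        show a.symm (ζ ^ p) = ζ ^ p
        rw [AlgEquiv.symm_apply_eq]
        exact (show a (ζ ^ p) = ζ ^ p from ha).symm }
  let φ : H →* (ZMod p)ˣ :=
    (ZMod.unitsMap (Dvd.intro n rfl : p ∣ p * n)).comp ((hζ.autToPow ℚ).comp H.subtype)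
  have hφ : Function.Injective φ := by
    rw [injective_iff_map_eq_one]
    rintro ⟨τ, hτ⟩ h
    have hτ' : τ (ζ ^ p) = ζ ^ p := hτ
    set u := hζ.autToPow ℚ τ with hu
    set c : ℕ := (u : ZMod (p * n)).val with hc
    have hspec : ζ ^ c = τ ζ := hζ.autToPow_spec ℚ τ
    have h1 : c ≡ 1 [MOD n] := by
      have e : ζ ^ (p * c) = ζ ^ (p * 1) := by
        rw [mul_one, mul_comm, pow_mul, hspec, ← map_pow, hτ']
      obtain ⟨z, hz⟩ := hζ.isUnit (NeZero.ne (p * n))
      have ez : z ^ (p * c) = z ^ (p * 1) := by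
        apply Units.ext
        rw [Units.val_pow_eq_pow_val, Units.val_pow_eq_pow_val, hz, e]
      have ho : orderOf z = p * n := by
        rw [← orderOf_units, hz, ← hζ.eq_orderOf]
      rw [pow_eq_pow_iff_modEq, ho] at ez
      exact Nat.ModEq.mul_left_cancel' hp.ne_zero ez
    have h2 : c ≡ 1 [MOD p] := by
      have e : (ZMod.unitsMap (Dvd.intro n rfl : p ∣ p * n)) u = 1 := h
      have e2 : ((u : ZMod (p * n)).cast : ZMod p) = 1 := by
        have := congrArg (Units.val) e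
        rw [ZMod.unitsMap_val] at this
        simpa using this
      rw [← ZMod.natCast_val, ← hc] at e2
      rw [← ZMod.natCast_eq_natCast_iff, e2]
      simp
    have hcop : Nat.Coprime p n := (Nat.Prime.coprime_iff_not_dvd hp).mpr hpn
    have h3 : c ≡ 1 [MOD p * n] := (Nat.modEq_and_modEq_iff_modEq_mul hcop).mp ⟨h2, h1⟩
    have h4 : u = 1 := by
      apply Units.ext
      have : ((c : ℕ) : ZMod (p * n)) = ((1 : ℕ) : ZMod (p * n)) :=
        (ZMod.natCast_eq_natCast_iff _ _ _).mpr h3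
      rw [hc, ZMod.natCast_zmod_val] at this
      simpa using this
    have h5 : τ = 1 := hinj (by rw [← hu, h4, map_one])
    exact Subtype.ext h5
  have : IsCyclic H := isCyclic_of_injective φ hφ
  obtain ⟨σ, hσ⟩ := IsCyclic.exists_generator (α := H)
  refine ⟨σ.1, σ.2, fun τ hτ => ?_⟩
  have h6 : (⟨τ, hτ⟩ : H) ∈ Subgroup.zpowers σ := hσ ⟨τ, hτ⟩
  rw [← mem_powers_iff_mem_zpowers] at h6
  obtain ⟨j, hj⟩ := h6
  exact ⟨j, (congrArg Subtype.val hj).symm⟩

end SalemAb
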