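import Pool.Agent.Lib.MP_9599cf_nt.Frob

/-! # Cyclotomic fields: inertia -/

set_option autoImplicit false

namespace SalemAb

open NumberField

/-- PROOF. The two ring homomorphisms `x ↦ x ^ p` and `x ↦ (σ • x) ^ p` from `𝓞 L` to the ring `𝓞 L / p` of
characteristic `p` agree at `ζ` (`σ (ζ ^ p) = ζ ^ p`), and `𝓞 L = ℤ[ζ]`
(`IsCyclotomicExtension.Rat.adjoin_singleton_eq_top`). -/
theorem inert_pow (L : Type) [Field L] [NumberField L] (m : ℕ) [NeZero m]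
    [IsCyclotomicExtension {m} ℚ L] {ζ : L} (hζ : IsPrimitiveRoot ζ m) (p : ℕ) [Fact p.Prime]
    (σ : L ≃ₐ[ℚ] L) (hσ : σ (ζ ^ p) = ζ ^ p) (x : 𝓞 L) :
    (p : 𝓞 L) ∣ x ^ p - (σ • x) ^ p := by
  obtain ⟨φ, hφ⟩ := Fro.exists_frob (𝓞 L) p
  have h1 : φ = φ.comp (MulSemiringAction.toRingHom (L ≃ₐ[ℚ] L) (𝓞 L) σ) := by
    refine Fro.hom_ext hζ _ _ ?_
    rw [RingHom.comp_apply, hφ, hφ]
    congr 1
    apply RingOfIntegers.ext
    have h2 : ζ ^ p = (σ ζ) ^ p := by rw [← map_pow]; exact hσ.symm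
    exact h2
  have h2 := RingHom.congr_fun h1 x
  rw [RingHom.comp_apply, hφ, hφ, Ideal.Quotient.eq, Ideal.mem_span_singleton] at h2
  exact h2

end SalemAb
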