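import Pool.Agent.Lib.MP_9599cf_nt.Frob

/-! # Cyclotomic fields: inertia -/

set_option autoImplicit false

namespace SalemAb

open NumberField

/-- PROOF. `σ ζ = ζ ^ a` with `ζ ^ (a p) = ζ ^ p`, so `a = 1` modulo `n` and `ζ - σ ζ = ζ (1 - ζ ^ (n j))` is divisible by
`1 - ζ ^ n`; the ring homomorphisms `x ↦ x`, `x ↦ σ • x` to `𝓞 L / (1 - ζ ^ n)` agree at `ζ`. -/
theorem inert_sub (L : Type) [Field L] [NumberField L] (n p : ℕ) [NeZero n] [Fact p.Prime]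
    [NeZero (p * n)] [IsCyclotomicExtension {p * n} ℚ L] {ζ : L}
    (hζ : IsPrimitiveRoot ζ (p * n)) (σ : L ≃ₐ[ℚ] L) (hσ : σ (ζ ^ p) = ζ ^ p) (x : 𝓞 L) :
    (1 - hζ.toInteger ^ n) ∣ x - σ • x := by
  -- `σ ζ` and `ζ` have the same `p`-th power, so they differ by a power of `ζ ^ n`
  have hζ0 : ζ ≠ 0 := hζ.ne_zero (NeZero.ne _)
  have hpr : IsPrimitiveRoot (ζ ^ n) p := hζ.pow (Nat.pos_of_ne_zero (NeZero.ne _)) (mul_comm p n)
  have h3 : (σ ζ / ζ) ^ p = 1 := by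
    rw [div_pow, ← map_pow, hσ, div_self (pow_ne_zero _ hζ0)]
  have : NeZero p := ⟨(Fact.out : p.Prime).ne_zero⟩
  obtain ⟨i, _, hi⟩ := hpr.eq_pow_of_pow_eq_one h3
  have h4 : σ ζ = ζ * (ζ ^ n) ^ i := by
    rw [hi]
    field_simp
  have h1 : (Ideal.Quotient.mk (Ideal.span {1 - hζ.toInteger ^ n})) =
      (Ideal.Quotient.mk (Ideal.span {1 - hζ.toInteger ^ n})).comp
        (MulSemiringAction.toRingHom (L ≃ₐ[ℚ] L) (𝓞 L) σ) := by
    refine Fro.hom_ext hζ _ _ ?_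
    rw [RingHom.comp_apply, Ideal.Quotient.eq, Ideal.mem_span_singleton]
    have h5 : MulSemiringAction.toRingHom (L ≃ₐ[ℚ] L) (𝓞 L) σ hζ.toInteger =
        hζ.toInteger * (hζ.toInteger ^ n) ^ i := by
      apply RingOfIntegers.ext
      exact h4
    rw [h5]
    have h6 : (1 - hζ.toInteger ^ n) ∣ 1 - (hζ.toInteger ^ n) ^ i := by
      have := sub_dvd_pow_sub_pow (1 : 𝓞 L) (hζ.toInteger ^ n) i
      rwa [one_pow] at this
    have h7 : hζ.toInteger - hζ.toInteger * (hζ.toInteger ^ n) ^ i =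
        hζ.toInteger * (1 - (hζ.toInteger ^ n) ^ i) := by ring
    rw [h7]
    exact h6.mul_left _
  have h2 := RingHom.congr_fun h1 x
  rw [RingHom.comp_apply, Ideal.Quotient.eq, Ideal.mem_span_singleton] at h2
  exact h2

end SalemAb
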