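import Pool.Agent.Lib.MP_9599cf_nt.Defs

/-! # Cyclotomic fields: the inertia group -/

set_option autoImplicit false

namespace SalemAb

open NumberField

/-- The action on the root of unity is a power map, and the order of `σ` is controlled by the
exponent. -/
private theorem order_exists (L : Type) [Field L] [NumberField L] (m : ℕ) [NeZero m]
    [IsCyclotomicExtension {m} ℚ L] {ζ : L} (hζ : IsPrimitiveRoot ζ m) (σ : L ≃ₐ[ℚ] L) :
    ∃ a : ℕ, σ ζ = ζ ^ a ∧ a.Coprime m ∧ ∀ j : ℕ, (m : ℤ) ∣ (a : ℤ) ^ j - 1 → σ ^ j = 1 := by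
  have h0 : (σ ζ) ^ m = 1 := by
    rw [← map_pow, hζ.pow_eq_one, map_one]
  obtain ⟨a, -, ha⟩ := hζ.eq_pow_of_pow_eq_one h0
  have h1 : IsPrimitiveRoot (σ ζ) m := hζ.map_of_injective σ.injective
  rw [← ha] at h1
  have h2 : a.Coprime m := (hζ.pow_iff_coprime (NeZero.pos m) a).1 h1
  refine ⟨a, ha.symm, h2, fun j hj => ?_⟩
  have h3 : ∀ i : ℕ, (σ ^ i) ζ = ζ ^ (a ^ i) := by
    intro i
    induction i with
    | zero => simp
    | succ i ih =>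
      rw [pow_succ, AlgEquiv.mul_apply, ← ha, map_pow, ih, ← pow_mul, pow_succ]
  have h4 : ζ ^ (a ^ j) = ζ := by
    have h5 : a ^ j ≡ 1 [MOD m] := by
      refine (Nat.modEq_iff_dvd.2 ?_).symm
      push_cast
      exact hj
    have h6 : ζ ^ (a ^ j) = ζ ^ 1 := pow_eq_pow_of_modEq h5 hζ.pow_eq_one
    rw [h6, pow_one]
  have h7 : ((σ ^ j : L ≃ₐ[ℚ] L) : L →ₐ[ℚ] L) = ((1 : L ≃ₐ[ℚ] L) : L →ₐ[ℚ] L) := by
    refine (hζ.powerBasis ℚ).algHom_ext ?_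
    rw [IsPrimitiveRoot.powerBasis_gen]
    show (σ ^ j) ζ = ζ
    rw [h3, h4]
  ext x
  exact DFunLike.congr_fun h7 x

/-- If `σ` fixes `ζ ^ p` then the exponent is one modulo `n`. -/
private theorem order_dvd {L : Type} [Field L] (n p : ℕ) (hp : p ≠ 0) (hpn : p * n ≠ 0) {ζ : L}
    (hζ : IsPrimitiveRoot ζ (p * n)) {a : ℕ} (h : (ζ ^ a) ^ p = ζ ^ p) :
    (n : ℤ) ∣ (a : ℤ) - 1 := by
  have h0 : ζ ≠ 0 := by
    rintro rfl
    have h3 := hζ.isUnit hpn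
    exact not_isUnit_zero h3
  have h1 : ((p * n : ℕ) : ℤ) ∣ (a : ℤ) * (p : ℤ) - (p : ℤ) := by
    rw [← hζ.zpow_eq_one_iff_dvd, zpow_sub₀ h0, zpow_mul, zpow_natCast, zpow_natCast,
      zpow_natCast, h, div_self (pow_ne_zero p h0)]
  push_cast at h1
  have h2 : (p : ℤ) * (n : ℤ) ∣ (p : ℤ) * ((a : ℤ) - 1) := by
    have e : (p : ℤ) * ((a : ℤ) - 1) = (a : ℤ) * (p : ℤ) - (p : ℤ) := by ring
    rw [e]
    exact h1
  exact (mul_dvd_mul_iff_left (by exact_mod_cast hp)).1 h2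

/-- PROOF. `σ ζ = ζ ^ a` (`IsPrimitiveRoot.autToPow_spec` or `hζ.eq_pow_of_pow_eq_one`), `a = 1` modulo `n`; as `p`
divides `n`, `a ^ p = 1` modulo `p n` (`a = 1 + n k`); `σ ^ p` fixes `ζ` (`ζ` generates `L`,
`IsPrimitiveRoot.autToPow_injective`). -/
theorem inert_order_wild (L : Type) [Field L] [NumberField L] (n p : ℕ) [NeZero n] [Fact p.Prime]
    [NeZero (p * n)] [IsCyclotomicExtension {p * n} ℚ L] {ζ : L}
    (hζ : IsPrimitiveRoot ζ (p * n)) (hpn : p ∣ n) (σ : L ≃ₐ[ℚ] L) (hσ : σ (ζ ^ p) = ζ ^ p) :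
    σ ^ p = 1 := by
  have hp : p.Prime := Fact.out
  obtain ⟨a, ha, -, hord⟩ := order_exists L (p * n) hζ σ
  rw [map_pow, ha] at hσ
  have h1 := order_dvd n p hp.ne_zero (NeZero.ne _) hζ hσ
  refine hord p ?_
  have h2 : (a : ℤ) ^ p - 1 = (∑ i ∈ Finset.range p, (a : ℤ) ^ i) * ((a : ℤ) - 1) :=
    (geom_sum_mul (a : ℤ) p).symm
  have h3 : (p : ℤ) ∣ ∑ i ∈ Finset.range p, (a : ℤ) ^ i := by
    have h4 : (p : ℤ) ∣ (a : ℤ) - 1 := (Int.natCast_dvd_natCast.2 hpn).trans h1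
    have h5 : (p : ℤ) ∣ ∑ i ∈ Finset.range p, ((a : ℤ) ^ i - 1) := by
      refine Finset.dvd_sum fun i _ => ?_
      have h6 := sub_dvd_pow_sub_pow (a : ℤ) 1 i
      rw [one_pow] at h6
      exact h4.trans h6
    rw [Finset.sum_sub_distrib, Finset.sum_const, Finset.card_range, nsmul_eq_mul, mul_one] at h5
    exact (dvd_sub_left dvd_rfl).1 h5
  rw [h2]
  push_cast
  exact mul_dvd_mul h3 h1

/-- PROOF. `σ ζ = ζ ^ a`, `a = 1` modulo `n`, `a` prime to `p`, so `a ^ (p - 1) = 1` modulo `p` and modulo `n`, so modulo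
`p n`. -/
theorem inert_order_tame (L : Type) [Field L] [NumberField L] (n p : ℕ) [NeZero n] [Fact p.Prime]
    [NeZero (p * n)] [IsCyclotomicExtension {p * n} ℚ L] {ζ : L}
    (hζ : IsPrimitiveRoot ζ (p * n)) (hpn : ¬ p ∣ n) (σ : L ≃ₐ[ℚ] L) (hσ : σ (ζ ^ p) = ζ ^ p) :
    σ ^ (p - 1) = 1 := by
  have hp : p.Prime := Fact.out
  obtain ⟨a, ha, hcop, hord⟩ := order_exists L (p * n) hζ σ
  rw [map_pow, ha] at hσ
  have h1 := order_dvd n p hp.ne_zero (NeZero.ne _) hζ hσ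
  refine hord (p - 1) ?_
  have h2 : IsCoprime (a : ℤ) (p : ℤ) :=
    Nat.isCoprime_iff_coprime.2 (Nat.Coprime.coprime_mul_right_right hcop)
  have h3 : (p : ℤ) ∣ (a : ℤ) ^ (p - 1) - 1 :=
    (Int.ModEq.pow_card_sub_one_eq_one hp h2).symm.dvd
  have h4 : (n : ℤ) ∣ (a : ℤ) ^ (p - 1) - 1 := by
    have h6 := sub_dvd_pow_sub_pow (a : ℤ) 1 (p - 1)
    rw [one_pow] at h6
    exact h1.trans h6
  have h5 : IsCoprime (p : ℤ) (n : ℤ) :=
    Nat.isCoprime_iff_coprime.2 ((Nat.Prime.coprime_iff_not_dvd hp).2 hpn)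
  push_cast
  exact h5.mul_dvd h3 h4

end SalemAb
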