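import Pool.Agent.Lib.MP_9599cf_nt.Defs

/-! # Restriction of automorphisms -/

set_option autoImplicit false

namespace SalemAb

open NumberField

/-- PROOF. `AlgEquiv.restrictNormal` for the algebra structure `f.toAlgebra` on `L` (`IsScalarTower ℚ K L` by
`IsScalarTower.of_algebraMap_eq`), `AlgEquiv.restrictNormal_commutes`. -/
theorem exists_restrict {K L : Type} [Field K] [NumberField K] [Field L] [NumberField L]
    [IsGalois ℚ K] (f : K →ₐ[ℚ] L) (σ : L ≃ₐ[ℚ] L) :
    ∃ s : K ≃ₐ[ℚ] K, ∀ x, f (s x) = σ (f x) := by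
  letI : Algebra K L := f.toRingHom.toAlgebra
  haveI : IsScalarTower ℚ K L := IsScalarTower.of_algebraMap_eq (fun x => (f.commutes x).symm)
  exact ⟨AlgEquiv.restrictNormal σ K, fun x => AlgEquiv.restrictNormal_commutes σ K x⟩

end SalemAb
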