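import Pool.Agent.Lib.MP_9599cf_nt.Descend
import Pool.Agent.Lib.MP_9599cf_nt.Inert
import Pool.Agent.Lib.MP_9599cf_nt.InertB
import Pool.Agent.Lib.MP_9599cf_nt.Order
import Pool.Agent.Lib.MP_9599cf_nt.Gen
import Pool.Agent.Lib.MP_9599cf_nt.FixB
import Pool.Agent.Lib.MP_9599cf_nt.FixC
import Pool.Agent.Lib.MP_9599cf_nt.Restr

/-! # The dichotomy for a prime -/

set_option autoImplicit false

namespace SalemAb

open NumberField

theorem dichT_pow {K L : Type} [Field K] [NumberField K] [Field L] [NumberField L]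
    (f : K →ₐ[ℚ] L) (σ : L ≃ₐ[ℚ] L) (s : K ≃ₐ[ℚ] K) (hs : ∀ x, f (s x) = σ (f x)) (j : ℕ) :
    ∀ x, f ((s ^ j) x) = (σ ^ j) (f x) := by
  induction j with
  | zero => intro x; simp
  | succ j ih =>
    intro x
    rw [pow_succ, pow_succ, AlgEquiv.mul_apply, AlgEquiv.mul_apply, ih, hs]

/-- PROOF (tame case). Let `σ` be the generator of `exists_gen` and `s` its restriction. `s ≠ 1`, otherwise all `τ` with
`τ (ζ ^ p) = ζ ^ p` (powers of `σ`) fix `f K`, against `emb_of_fixed`. `inert_pow`, `inert_order_tame`, `dvd_descend` as in the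
wild case. If `s ^ 2 = 1` and `y = x - s • x`, then `s • y = - y`, so `w = (f y) ^ 2` (in `𝓞 L`) is fixed by `σ`, so by all `τ`;
`1 - ζ ^ n` divides `f y` (`inert_sub`), so `w`; `dvd_of_fixed`, `dvd_descend`. -/
theorem dich_tame (K : Type) [Field K] [NumberField K] [IsGalois ℚ K] (n p : ℕ) [NeZero n]
    [Fact p.Prime] [NeZero (p * n)] (f : K →ₐ[ℚ] CyclotomicField (p * n) ℚ)
    (hn : ¬ Nonempty (K →ₐ[ℚ] CyclotomicField n ℚ)) (hpn : ¬ p ∣ n) :
    ∃ s : K ≃ₐ[ℚ] K, s ≠ 1 ∧ (∀ x : 𝓞 K, (p : 𝓞 K) ∣ x ^ p - (s • x) ^ p) ∧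
      s ^ (p - 1) = 1 ∧ (s ^ 2 = 1 → ∀ x : 𝓞 K, (p : 𝓞 K) ∣ (x - s • x) ^ 2) := by
  have hne : NeZero ((p * n : ℕ) : ℚ) := NeZero.charZero
  have hcyc : IsCyclotomicExtension {p * n} ℚ (CyclotomicField (p * n) ℚ) :=
    CyclotomicField.isCyclotomicExtension (p * n) ℚ
  have hζ := IsCyclotomicExtension.zeta_spec (p * n) ℚ (CyclotomicField (p * n) ℚ)
  set ζ := IsCyclotomicExtension.zeta (p * n) ℚ (CyclotomicField (p * n) ℚ) with hζdef
  have hp0 : p ≠ 0 := (Fact.out : p.Prime).ne_zero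
  obtain ⟨σ, hσ, hgen⟩ := exists_gen (CyclotomicField (p * n) ℚ) n p hζ hpn
  obtain ⟨s, hs⟩ := exists_restrict f σ
  let F : 𝓞 K →+* 𝓞 (CyclotomicField (p * n) ℚ) := RingOfIntegers.mapRingHom f
  have hF : ∀ x : 𝓞 K, ((F x : 𝓞 (CyclotomicField (p * n) ℚ)) : CyclotomicField (p * n) ℚ) =
      f (x : K) := fun x => rfl
  have hsm : ∀ (t : K ≃ₐ[ℚ] K) (x : 𝓞 K), ((t • x : 𝓞 K) : K) = t (x : K) := fun t x => rfl
  have hsm' : ∀ (t : CyclotomicField (p * n) ℚ ≃ₐ[ℚ] CyclotomicField (p * n) ℚ)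
      (x : 𝓞 (CyclotomicField (p * n) ℚ)),
      ((t • x : 𝓞 (CyclotomicField (p * n) ℚ)) : CyclotomicField (p * n) ℚ) =
        t (x : CyclotomicField (p * n) ℚ) := fun t x => rfl
  have hFs : ∀ x : 𝓞 K, F (s • x) = σ • F x := fun x => by
    apply RingOfIntegers.ext
    rw [hF, hsm, hsm', hF]
    exact hs _
  have hdesc : ∀ x : 𝓞 K, (p : 𝓞 (CyclotomicField (p * n) ℚ)) ∣ F x → (p : 𝓞 K) ∣ x := by
    rintro x ⟨z, hz⟩
    refine dvd_descend (f : K →+* CyclotomicField (p * n) ℚ) p hp0 x z ?_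
    have h1 : ((F x : 𝓞 (CyclotomicField (p * n) ℚ)) : CyclotomicField (p * n) ℚ) =
        ((p : 𝓞 (CyclotomicField (p * n) ℚ)) * z : 𝓞 (CyclotomicField (p * n) ℚ)) := by rw [hz]
    rw [hF] at h1
    have h2 : (((p : 𝓞 (CyclotomicField (p * n) ℚ)) * z : 𝓞 (CyclotomicField (p * n) ℚ)) :
        CyclotomicField (p * n) ℚ) = (p : CyclotomicField (p * n) ℚ) * (z : _) := by
      push_cast
      rfl
    rw [h2] at h1
    exact h1
  refine ⟨s, ?_, fun x => ?_, ?_, fun hs2 x => ?_⟩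
  · intro h1
    refine hn (emb_of_fixed K (CyclotomicField (p * n) ℚ) n p hζ f fun τ hτ x => ?_)
    obtain ⟨j, rfl⟩ := hgen τ hτ
    rw [← dichT_pow f σ s hs j x, h1, one_pow]
    rfl
  · apply hdesc
    rw [map_sub, map_pow, map_pow, hFs]
    exact inert_pow (CyclotomicField (p * n) ℚ) (p * n) hζ p σ hσ (F x)
  · have h1 := inert_order_tame (CyclotomicField (p * n) ℚ) n p hζ hpn σ hσ
    ext x
    have h2 := dichT_pow f σ s hs (p - 1) x
    rw [h1] at h2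
    exact f.injective h2
  · apply hdesc
    rw [map_pow]
    have hy : s • (x - s • x) = -(x - s • x) := by
      rw [smul_sub, smul_smul, ← pow_two, hs2, one_smul]
      ring
    have hFy : σ • F (x - s • x) = -F (x - s • x) := by
      rw [← hFs, hy, map_neg]
    refine dvd_of_fixed (CyclotomicField (p * n) ℚ) n p hζ hpn _ (fun τ hτ => ?_) ?_
    · obtain ⟨j, rfl⟩ := hgen τ hτ
      have h1 : σ • (F (x - s • x) ^ 2) = F (x - s • x) ^ 2 := by
        rw [smul_pow', hFy, neg_sq]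
      have h2 : ∀ i : ℕ, (σ ^ i) • (F (x - s • x) ^ 2) = F (x - s • x) ^ 2 := by
        intro i
        induction i with
        | zero => rw [pow_zero, one_smul]
        | succ i ih => rw [pow_succ, mul_smul, h1, ih]
      exact h2 j
    · have h1 := inert_sub (CyclotomicField (p * n) ℚ) n p hζ σ hσ (F x)
      rw [← hFs, ← map_sub] at h1
      rw [pow_two]
      exact h1.mul_right _

end SalemAb
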