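import Pool.Agent.Lib.MP_9599cf_nt.Descend
import Pool.Agent.Lib.MP_9599cf_nt.Inert
import Pool.Agent.Lib.MP_9599cf_nt.Order
import Pool.Agent.Lib.MP_9599cf_nt.FixC
import Pool.Agent.Lib.MP_9599cf_nt.Restr

/-! # The dichotomy for a prime -/

set_option autoImplicit false

namespace SalemAb

open NumberField

/-- PROOF (wild case). By `emb_of_fixed` some `σ` with `σ (ζ ^ p) = ζ ^ p` does not fix `f K`; `s` = its restriction;
`inert_pow`, `dvd_descend`, `inert_order_wild` (`s ^ p = 1` because `f` is injective). -/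
theorem dich_wild (K : Type) [Field K] [NumberField K] [IsGalois ℚ K] (n p : ℕ) [NeZero n]
    [Fact p.Prime] [NeZero (p * n)] (f : K →ₐ[ℚ] CyclotomicField (p * n) ℚ)
    (hn : ¬ Nonempty (K →ₐ[ℚ] CyclotomicField n ℚ)) (hpn : p ∣ n) :
    ∃ s : K ≃ₐ[ℚ] K, s ≠ 1 ∧ (∀ x : 𝓞 K, (p : 𝓞 K) ∣ x ^ p - (s • x) ^ p) ∧ s ^ p = 1 := by
  have hn0 : NeZero (((p * n : ℕ)) : ℚ) := ⟨Nat.cast_ne_zero.2 (NeZero.ne (p * n))⟩
  have hL : IsCyclotomicExtension {p * n} ℚ (CyclotomicField (p * n) ℚ) :=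
    CyclotomicField.isCyclotomicExtension (p * n) ℚ
  obtain ⟨ζ, hζ⟩ : ∃ ζ : CyclotomicField (p * n) ℚ, IsPrimitiveRoot ζ (p * n) :=
    ⟨_, IsCyclotomicExtension.zeta_spec (p * n) ℚ (CyclotomicField (p * n) ℚ)⟩
  obtain ⟨σ, hσ, x₀, hx₀⟩ : ∃ σ : CyclotomicField (p * n) ℚ ≃ₐ[ℚ] CyclotomicField (p * n) ℚ,
      σ (ζ ^ p) = ζ ^ p ∧ ∃ x : K, σ (f x) ≠ f x := by
    by_contra hcon
    push Not at hcon
    exact hn (emb_of_fixed K _ n p hζ f (fun σ hσ x => hcon σ hσ x))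
  obtain ⟨s, hs⟩ := exists_restrict f σ
  have hj : ∀ (j : ℕ) (x : K), f ((s ^ j) x) = (σ ^ j) (f x) := by
    intro j
    induction j with
    | zero => intro x; simp
    | succ j ih =>
      intro x
      rw [pow_succ, pow_succ, AlgEquiv.mul_apply, AlgEquiv.mul_apply, ih, hs]
  refine ⟨s, ?_, ?_, ?_⟩
  · rintro rfl
    apply hx₀
    rw [← hs, AlgEquiv.one_apply]
  · intro x
    obtain ⟨z, hz⟩ := inert_pow (CyclotomicField (p * n) ℚ) (p * n) hζ p σ hσ
      (RingOfIntegers.mapRingHom f.toRingHom x)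
    refine dvd_descend f.toRingHom p (Fact.out : p.Prime).ne_zero _ z ?_
    have h1 : (algebraMap (𝓞 (CyclotomicField (p * n) ℚ)) (CyclotomicField (p * n) ℚ))
        (RingOfIntegers.mapRingHom f.toRingHom x ^ p -
          (σ • RingOfIntegers.mapRingHom f.toRingHom x) ^ p) =
        (algebraMap (𝓞 (CyclotomicField (p * n) ℚ)) (CyclotomicField (p * n) ℚ))
          ((p : 𝓞 (CyclotomicField (p * n) ℚ)) * z) := congrArg _ hz
    rw [map_mul, map_natCast, map_sub, map_pow, map_pow] at h1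
    refine Eq.trans ?_ h1
    have h2 : (algebraMap (𝓞 (CyclotomicField (p * n) ℚ)) (CyclotomicField (p * n) ℚ))
        (RingOfIntegers.mapRingHom f.toRingHom x) = f (x : K) := rfl
    have h3 : (algebraMap (𝓞 (CyclotomicField (p * n) ℚ)) (CyclotomicField (p * n) ℚ))
        (σ • RingOfIntegers.mapRingHom f.toRingHom x) = σ (f (x : K)) := rfl
    rw [h2, h3, ← hs]
    show f (algebraMap (𝓞 K) K (x ^ p - (s • x) ^ p)) = _
    rw [map_sub, map_pow, map_pow, map_sub, map_pow, map_pow]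
    rfl
  · have h := inert_order_wild (CyclotomicField (p * n) ℚ) n p hζ hpn σ hσ
    ext x
    have h4 : f ((s ^ p) x) = f x := by rw [hj, h, AlgEquiv.one_apply]
    exact f.toRingHom.injective h4

end SalemAb
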