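import Pool.Agent.Lib.MP_9599cf_nt.DichU
import Pool.Agent.Lib.MP_9599cf_nt.DichW
import Pool.Agent.Lib.MP_9599cf_nt.DichT

/-! # The dichotomy for a prime -/

set_option autoImplicit false

namespace SalemAb

open NumberField

/-- ASSEMBLY (captain): the least `m > 0` such that `K` embeds in `CyclotomicField m ℚ`. -/
theorem dich_of_emb (K : Type) [Field K] [NumberField K] [IsGalois ℚ K] (m : ℕ) (hm : 0 < m)
    (h : Nonempty (K →ₐ[ℚ] CyclotomicField m ℚ)) (p : ℕ) [Fact p.Prime] :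
    Dich (𝓞 K) (K ≃ₐ[ℚ] K) p := by
  induction m using Nat.strong_induction_on with
  | _ m ih =>
    have : NeZero m := ⟨hm.ne'⟩
    by_cases hpm : p ∣ m
    · obtain ⟨n, rfl⟩ := hpm
      have hn0 : 0 < n := Nat.pos_of_mul_pos_left hm
      have : NeZero n := ⟨hn0.ne'⟩
      by_cases hn : Nonempty (K →ₐ[ℚ] CyclotomicField n ℚ)
      · refine ih n ?_ hn0 hn
        have h2 : 2 ≤ p := (Fact.out : p.Prime).two_le
        nlinarith
      · obtain ⟨f⟩ := h
        by_cases hpn : p ∣ n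
        · obtain ⟨s, hs1, hs2, hs3⟩ := dich_wild K n p f hn hpn
          exact Or.inr ⟨s, hs1, hs2, Or.inl hs3⟩
        · obtain ⟨s, hs1, hs2, hs3, hs4⟩ := dich_tame K n p f hn hpn
          exact Or.inr ⟨s, hs1, hs2, Or.inr ⟨hs3, hs4⟩⟩
    · obtain ⟨f⟩ := h
      exact Or.inl (dich_unram K m f p hpm)

end SalemAb
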