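import Pool.Agent.Lib.MP_9599cf_nt.Descend
import Pool.Agent.Lib.MP_9599cf_nt.Frob
import Pool.Agent.Lib.MP_9599cf_nt.Restr

/-! # The dichotomy for a prime -/

set_option autoImplicit false

namespace SalemAb

open NumberField

/-- PROOF (unramified case). `s` = restriction (`exists_restrict`) of the Frobenius automorphism of
`L = CyclotomicField m ℚ` (`frob`), and `dvd_descend`. -/
theorem dich_unram (K : Type) [Field K] [NumberField K] [IsGalois ℚ K] (m : ℕ) [NeZero m]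
    (f : K →ₐ[ℚ] CyclotomicField m ℚ) (p : ℕ) [Fact p.Prime] (hpm : ¬ p ∣ m) :
    ∃ s : K ≃ₐ[ℚ] K, ∀ x : 𝓞 K, (p : 𝓞 K) ∣ x ^ p - s • x := by
  have : NeZero ((m : ℕ) : ℚ) := ⟨Nat.cast_ne_zero.2 (NeZero.ne m)⟩
  have : IsCyclotomicExtension {m} ℚ (CyclotomicField m ℚ) :=
    CyclotomicField.isCyclotomicExtension m ℚ
  obtain ⟨σ, hσ⟩ := frob (CyclotomicField m ℚ) m p hpm
  obtain ⟨s, hs⟩ := exists_restrict f σ
  refine ⟨s, fun x => ?_⟩
  obtain ⟨z, hz⟩ := hσ (RingOfIntegers.mapRingHom (f : K →+* CyclotomicField m ℚ) x)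
  refine dvd_descend (f : K →+* CyclotomicField m ℚ) p (Fact.out : p.Prime).ne_zero _ z ?_
  have h1 : f (x : K) ^ p - σ (f (x : K)) =
      (p : CyclotomicField m ℚ) * (z : CyclotomicField m ℚ) := by
    have h := congrArg (algebraMap (𝓞 (CyclotomicField m ℚ)) (CyclotomicField m ℚ)) hz
    rw [map_sub, map_pow, map_mul, map_natCast] at h
    exact h
  show f (algebraMap (𝓞 K) K (x ^ p - s • x)) = _
  rw [map_sub, map_pow, map_sub, map_pow]
  show f (x : K) ^ p - f (s (x : K)) = _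
  rw [hs]
  exact h1

end SalemAb
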