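import Pool.Agent.Lib.MP_9599cf_nt.Defs

/-! # The trace field -/

set_option autoImplicit false

namespace SalemAb

open Polynomial IntermediateField

/-- The inclusion of the reals in the complex numbers, over the rationals. -/
noncomputable def FieldK_incl : ℝ →ₐ[ℚ] ℂ := Complex.ofRealAm.restrictScalars ℚ

theorem FieldK_incl_apply (x : ℝ) : FieldK_incl x = (x : ℂ) := rfl

theorem FieldK_mem {β : ℝ} {L : IntermediateField ℚ ℂ} (h : (β : ℂ) ∈ L) (x : ℚ⟮β⟯) :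
    ((x : ℝ) : ℂ) ∈ L := by
  have hle : ℚ⟮β⟯ ≤ L.comap FieldK_incl := by
    rw [IntermediateField.adjoin_simple_le_iff]
    exact h
  exact hle x.2

theorem FieldK_cyc {m : ℕ} (hm : 0 < m) {ζ : ℂ} (hζ : IsPrimitiveRoot ζ m) :
    IsCyclotomicExtension {m} ℚ (IntermediateField.adjoin ℚ {ζ}) := by
  have : NeZero m := ⟨hm.ne'⟩
  have halg : IsAlgebraic ℚ ζ := (hζ.isIntegral hm).tower_top.isAlgebraic
  change IsCyclotomicExtension {m} ℚ (IntermediateField.adjoin ℚ {ζ}).toSubalgebra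
  rw [IntermediateField.adjoin_simple_toSubalgebra_of_isAlgebraic halg]
  exact hζ.adjoin_isCyclotomicExtension ℚ

/-- PROOF. `L = ℚ⟮ζ⟯` (in `ℂ`) is an `m`-th cyclotomic extension of `ℚ`
(`IsPrimitiveRoot.intermediateField_adjoin_isCyclotomicExtension`), so Galois with commutative group
(`IsCyclotomicExtension.isGalois`, `IsCyclotomicExtension.isMulCommutative`, `IsAbelianGalois`). `ℚ⟮β⟯` (in `ℝ`) embeds in
`L` by `Complex.ofReal`: it is isomorphic to the intermediate field `ℚ⟮(β : ℂ)⟯` of `L`. Subextensions of abelian extensions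
are abelian (`IsAbelianGalois` instances, or: all subgroups are normal). -/
theorem trace_field {β : ℝ} {m : ℕ} (hm : 0 < m) {ζ : ℂ} (hζ : IsPrimitiveRoot ζ m)
    (h : (β : ℂ) ∈ IntermediateField.adjoin ℚ {ζ}) :
    IsGalois ℚ ℚ⟮β⟯ ∧ (∀ σ τ : ℚ⟮β⟯ ≃ₐ[ℚ] ℚ⟮β⟯, σ * τ = τ * σ) ∧
      Nonempty (ℚ⟮β⟯ →ₐ[ℚ] CyclotomicField m ℚ) := by
  have : NeZero m := ⟨hm.ne'⟩
  have : NeZero ((m : ℕ) : ℚ) := ⟨by exact_mod_cast hm.ne'⟩
  have hcf : IsCyclotomicExtension {m} ℚ (CyclotomicField m ℚ) :=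
    CyclotomicField.isCyclotomicExtension m ℚ
  have hcyc := FieldK_cyc hm hζ
  have hab : IsAbelianGalois ℚ (IntermediateField.adjoin ℚ {ζ}) :=
    IsCyclotomicExtension.isAbelianGalois {m} ℚ _
  let f : ℚ⟮β⟯ →ₐ[ℚ] (IntermediateField.adjoin ℚ {ζ} : IntermediateField ℚ ℂ) :=
    (FieldK_incl.comp (IntermediateField.val ℚ⟮β⟯)).codRestrict
      (IntermediateField.adjoin ℚ {ζ}).toSubalgebra (fun x => FieldK_mem h x)
  have hab2 : IsAbelianGalois ℚ ℚ⟮β⟯ := IsAbelianGalois.of_algHom f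
  refine ⟨hab2.toIsGalois, fun σ τ => ?_, ?_⟩
  · exact hab2.toIsMulCommutative.is_comm.comm σ τ
  · exact ⟨((IsCyclotomicExtension.algEquiv {m} ℚ (IntermediateField.adjoin ℚ {ζ})
      (CyclotomicField m ℚ)).toAlgHom).comp f⟩

end SalemAb
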