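import Pool.Agent.Lib.MP_9599cf_nt.Star

/-! # The number `1.6355731…` is a Salem number -/

set_option autoImplicit false

namespace SalemAb

open Polynomial

/-- the cubic polynomial of `β` -/
private noncomputable def starB_Q : ℚ[X] := X ^ 3 - 2 * X ^ 2 - X + 1

private theorem starB_Q_eq : starB_Q = X ^ 3 + C (-2) * X ^ 2 + C (-1) * X + C 1 := by
  simp only [starB_Q, map_neg, C_1]
  have : (C (2 : ℚ) : ℚ[X]) = 2 := rfl
  rw [this]
  ring

private theorem starB_Q_monic : starB_Q.Monic := by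
  rw [starB_Q_eq]
  monicity!

private theorem starB_Q_natDegree : starB_Q.natDegree = 3 := by
  rw [starB_Q_eq]
  compute_degree!

private theorem starB_Q_irred : Irreducible starB_Q := by
  rw [starB_Q_monic.irreducible_iff_roots_eq_zero_of_degree_le_three
    (by rw [starB_Q_natDegree]; norm_num) (by rw [starB_Q_natDegree])]
  refine Multiset.eq_zero_of_forall_notMem fun r hr => ?_
  have h1 := (mem_roots'.1 hr).2
  have h2 : r ^ 3 - 2 * r ^ 2 - r + 1 = 0 := by
    simpa [starB_Q, IsRoot.def] using h1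
  have hint : IsIntegral ℤ r := by
    refine ⟨X ^ 3 - 2 * X ^ 2 - X + 1, ?_, ?_⟩
    · have : (X ^ 3 - 2 * X ^ 2 - X + 1 : ℤ[X]) = X ^ 3 + C (-2) * X ^ 2 + C (-1) * X + C 1 := by
        simp only [map_neg, C_1]
        have : (C (2 : ℤ) : ℤ[X]) = 2 := rfl
        rw [this]
        ring
      rw [this]
      monicity!
    · simpa [eval₂_sub, eval₂_add, eval₂_mul, eval₂_pow] using h2
  obtain ⟨n, rfl⟩ := IsIntegrallyClosed.algebraMap_eq_of_integral hint
  have h3 : n ^ 3 - 2 * n ^ 2 - n + 1 = 0 := by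
    have h4 : ((n : ℚ)) ^ 3 - 2 * (n : ℚ) ^ 2 - (n : ℚ) + 1 = 0 := by simpa using h2
    exact_mod_cast h4
  have h5 : n * (n ^ 2 - 2 * n - 1) = -1 := by linarith
  have h6 : n ∣ 1 := ⟨-(n ^ 2 - 2 * n - 1), by linarith⟩
  rcases Int.isUnit_iff.1 (isUnit_of_dvd_one h6) with h7 | h7 <;> subst h7 <;> norm_num at h3

private theorem starB_bounds {β : ℝ} (hβ : β ^ 3 - 2 * β ^ 2 - β + 1 = 0) (h2 : 2 < β) :
    β < 12 / 5 := by
  by_contra h
  push Not at h
  have h3 : 0 < β * (β ^ 2 - 2 * β - 1) + 1 - 0 := by nlinarith [mul_nonneg (sub_nonneg.2 h) (sub_nonneg.2 h)]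
  nlinarith

/-- the quadratic equation of a complex number with real trace less than two -/
private theorem starB_norm {z : ℂ} {y : ℝ} (hy : -2 < y) (hy2 : y < 2)
    (hz : z ^ 2 - y * z + 1 = 0) : ‖z‖ = 1 := by
  have hre := congrArg Complex.re hz
  have him := congrArg Complex.im hz
  simp [pow_two] at hre him
  have him' : z.im * (2 * z.re - y) = 0 := by linarith
  rcases mul_eq_zero.1 him' with h | h
  · exfalso
    rw [h] at hre
    nlinarith [sq_nonneg (2 * z.re - y)]
  · have h3 : z.re * z.re + z.im * z.im = 1 := by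
      have : y = 2 * z.re := by linarith
      rw [this] at hre
      linarith
    have h4 : ‖z‖ ^ 2 = 1 := by
      rw [← Complex.normSq_eq_norm_sq, Complex.normSq_apply]
      exact h3
    have h5 : 0 ≤ ‖z‖ := norm_nonneg z
    nlinarith

/-- the polynomial of degree six -/
private noncomputable def starB_P : ℤ[X] :=
  X ^ 6 + C (-2) * X ^ 5 + C 2 * X ^ 4 + C (-3) * X ^ 3 + C 2 * X ^ 2 + C (-2) * X + C 1

private theorem starB_P_monic : starB_P.Monic := by
  unfold starB_P
  monicity!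

private theorem starB_P_aeval {R : Type*} [CommRing R] [Algebra ℤ R] (x : R) :
    aeval x starB_P = x ^ 6 - 2 * x ^ 5 + 2 * x ^ 4 - 3 * x ^ 3 + 2 * x ^ 2 - 2 * x + 1 := by
  simp only [starB_P, map_add, map_mul, map_pow, aeval_X, map_neg, map_ofNat, map_one]
  ring

private theorem starB_conj {β : ℝ} (hβ : β ^ 3 - 2 * β ^ 2 - β + 1 = 0) (h2 : 2 < β) {s : ℝ}
    (hs : 1 < s) (h : s + s⁻¹ = β) {z : ℂ} (hz : aeval z (minpoly ℚ s) = 0) :
    z = (s : ℂ) ∨ z = ((s⁻¹ : ℝ) : ℂ) ∨ ‖z‖ = 1 := by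
  have hs0 : s ≠ 0 := by linarith
  have hP : aeval s starB_P = 0 := by
    rw [starB_P_aeval]
    have e : s ^ 6 - 2 * s ^ 5 + 2 * s ^ 4 - 3 * s ^ 3 + 2 * s ^ 2 - 2 * s + 1
        = s ^ 3 * (β ^ 3 - 2 * β ^ 2 - β + 1) := by
      rw [← h]
      field_simp
      ring
    rw [e, hβ, mul_zero]
  have hdvd : minpoly ℚ s ∣ starB_P.map (algebraMap ℤ ℚ) := by
    refine minpoly.dvd ℚ s ?_
    rw [aeval_map_algebraMap]
    exact hP
  have hz' : aeval z starB_P = 0 := by
    obtain ⟨q, hq⟩ := hdvd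
    have h3 : aeval z (starB_P.map (algebraMap ℤ ℚ)) = 0 := by
      rw [hq, map_mul, hz, zero_mul]
    rwa [aeval_map_algebraMap] at h3
  rw [starB_P_aeval] at hz'
  have hz0 : z ≠ 0 := by
    rintro rfl
    norm_num at hz'
  set y : ℂ := z + z⁻¹ with hy
  have hyz : z ^ 2 - y * z + 1 = 0 := by
    rw [hy]
    field_simp
    ring
  have hycub : y ^ 3 - 2 * y ^ 2 - y + 1 = 0 := by
    have e : z ^ 6 - 2 * z ^ 5 + 2 * z ^ 4 - 3 * z ^ 3 + 2 * z ^ 2 - 2 * z + 1
        = z ^ 3 * (y ^ 3 - 2 * y ^ 2 - y + 1) := by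
      rw [hy]
      field_simp
      ring
    rw [e] at hz'
    exact (mul_eq_zero.1 hz').resolve_left (pow_ne_zero _ hz0)
  have hβc : (β : ℂ) ^ 3 - 2 * (β : ℂ) ^ 2 - β + 1 = 0 := by
    exact_mod_cast congrArg (fun t : ℝ => (t : ℂ)) hβ
  have hfac : (y - β) * (y ^ 2 + (β - 2) * y + (β ^ 2 - 2 * β - 1)) = 0 := by
    linear_combination hycub - hβc
  rcases mul_eq_zero.1 hfac with h3 | h3
  · have h4 : y = β := by linear_combination h3
    have h5 : (z - s) * (z - ((s⁻¹ : ℝ) : ℂ)) = 0 := by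
      have hsc : (s : ℂ) ≠ 0 := by exact_mod_cast hs0
      have h6 : (β : ℂ) = s + (s : ℂ)⁻¹ := by
        rw [← h]
        push_cast
        ring
      rw [h4, h6] at hyz
      push_cast
      have h7 : (s : ℂ) * (s : ℂ)⁻¹ = 1 := mul_inv_cancel₀ hsc
      linear_combination hyz + h7
    rcases mul_eq_zero.1 h5 with h6 | h6
    · exact Or.inl (by linear_combination h6)
    · exact Or.inr (Or.inl (by linear_combination h6))
  · right
    right
    have hb := starB_bounds hβ h2
    have hdisc : 0 < -3 * β ^ 2 + 4 * β + 8 := by nlinarith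
    set D : ℝ := Real.sqrt (-3 * β ^ 2 + 4 * β + 8) with hD
    have hD2 : D ^ 2 = -3 * β ^ 2 + 4 * β + 8 := Real.sq_sqrt hdisc.le
    have hD2c : (D : ℂ) ^ 2 = -3 * (β : ℂ) ^ 2 + 4 * β + 8 := by
      have := congrArg (fun t : ℝ => (t : ℂ)) hD2
      push_cast at this
      exact this
    have h4 : (2 * y + (β - 2) - D) * (2 * y + (β - 2) + D) = 0 := by
      linear_combination 4 * h3 - hD2c
    have hD0 : 0 ≤ D := Real.sqrt_nonneg _
    have hDlt : D < 2 + β := by nlinarith
    have hDlt' : D < 6 - β := by nlinarith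
    rcases mul_eq_zero.1 h4 with h5 | h5
    · have h6 : y = (((2 - β + D) / 2 : ℝ) : ℂ) := by
        push_cast
        linear_combination h5 / 2
      refine starB_norm (y := (2 - β + D) / 2) (by linarith) (by linarith) ?_
      rw [← h6]
      exact hyz
    · have h6 : y = (((2 - β - D) / 2 : ℝ) : ℂ) := by
        push_cast
        linear_combination h5 / 2
      refine starB_norm (y := (2 - β - D) / 2) (by linarith) (by linarith) ?_
      rw [← h6]
      exact hyz

private theorem starB_int {s β : ℝ} (hβ : β ^ 3 - 2 * β ^ 2 - β + 1 = 0) (hs : 1 < s)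
    (h : s + s⁻¹ = β) : IsIntegral ℤ s := by
  have hs0 : s ≠ 0 := by linarith
  refine ⟨starB_P, starB_P_monic, ?_⟩
  have hP : aeval s starB_P = 0 := by
    rw [starB_P_aeval]
    have e : s ^ 6 - 2 * s ^ 5 + 2 * s ^ 4 - 3 * s ^ 3 + 2 * s ^ 2 - 2 * s + 1
        = s ^ 3 * (β ^ 3 - 2 * β ^ 2 - β + 1) := by
      rw [← h]
      field_simp
      ring
    rw [e, hβ, mul_zero]
  exact hP

private theorem starB_deg {s β : ℝ} (hβ : β ^ 3 - 2 * β ^ 2 - β + 1 = 0) (hs : 1 < s)
    (h : s + s⁻¹ = β) : 3 ≤ (minpoly ℚ s).natDegree := by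
  have hint : IsIntegral ℚ s := (starB_int hβ hs h).tower_top
  have hmin : minpoly ℚ β = starB_Q := by
    refine (minpoly.eq_of_irreducible_of_monic starB_Q_irred ?_ starB_Q_monic).symm
    simp only [starB_Q, map_add, map_sub, map_mul, map_pow, aeval_X, map_one, map_ofNat]
    linarith
  have hβmem : β ∈ IntermediateField.adjoin ℚ {s} := by
    have h1 : s ∈ IntermediateField.adjoin ℚ {s} :=
      IntermediateField.mem_adjoin_simple_self ℚ s
    rw [← h]
    exact add_mem h1 (inv_mem h1)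
  have : FiniteDimensional ℚ (IntermediateField.adjoin ℚ {s}) :=
    IntermediateField.adjoin.finiteDimensional hint
  have h2 := minpoly.degree_dvd (K := ℚ)
    (x := (⟨β, hβmem⟩ : IntermediateField.adjoin ℚ {s})) (Algebra.IsIntegral.isIntegral _)
  have h3 : minpoly ℚ (⟨β, hβmem⟩ : IntermediateField.adjoin ℚ {s}) = minpoly ℚ β := by
    have := minpoly.algebraMap_eq (A := ℚ)
      (algebraMap (IntermediateField.adjoin ℚ {s}) ℝ).injective
      (⟨β, hβmem⟩ : IntermediateField.adjoin ℚ {s})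
    exact this.symm
  rw [h3, hmin, starB_Q_natDegree, IntermediateField.adjoin.finrank hint] at h2
  exact Nat.le_of_dvd (minpoly.natDegree_pos hint) h2

/-- PROOF. `s² - β s + 1 = 0`, so `s⁶ - 2 s⁵ + 2 s⁴ - 3 s³ + 2 s² - 2 s + 1 = s³ (β³ - 2 β² - β + 1) = 0`. Every root `z` of
`minpoly ℚ s` is a root of this polynomial, so `y = z + z⁻¹` is a root of `y³ - 2 y² - y + 1`, so real (this cubic changes
sign at `-1`, `0`, `1`, `2`, `3`: `-1, 1, -1, -1, 7`; three real roots, in `(-1,0)`, `(0,1)`, `(2,3)`): `y = β` gives `z = s` or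
`z = s⁻¹`, of norm `≤ 1` if not `s`; `|y| < 2` gives `‖z‖ = 1` (the roots of `z² - y z + 1` are complex conjugate with
product `1`). Some root has norm one: otherwise all roots of `minpoly ℚ s` (separable) are `s`, `s⁻¹`, the degree is one or two;
degree one: `s` is rational, so an integer, but `1 < s < 2`; degree two: `minpoly = (X - s) (X - s⁻¹)`, so `β = s + s⁻¹` is rational
and integral, so an integer, but `2 < β < 3`. -/
theorem star_isSalem {s β : ℝ} (hβ : β ^ 3 - 2 * β ^ 2 - β + 1 = 0) (h2 : 2 < β) (hs : 1 < s)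
    (h : s + s⁻¹ = β) : IsSalem s := by
  have hint := starB_int hβ hs h
  have hintQ : IsIntegral ℚ s := hint.tower_top
  refine ⟨hint, hs, ?_, ?_⟩
  · intro z hz hzs
    rcases starB_conj hβ h2 hs h hz with h3 | h3 | h3
    · exact absurd h3 hzs
    · rw [h3, Complex.norm_real, Real.norm_eq_abs, abs_of_pos (by positivity)]
      exact inv_le_one_of_one_le₀ hs.le
    · exact h3.le
  · by_contra hno
    push Not at hno
    have hsep : (minpoly ℚ s).Separable := (minpoly.irreducible hintQ).separable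
    have hcard := card_rootSet_eq_natDegree (K := ℂ) hsep (IsAlgClosed.splits _)
    have hsub : (minpoly ℚ s).rootSet ℂ ⊆ ({(s : ℂ), ((s⁻¹ : ℝ) : ℂ)} : Set ℂ) := by
      intro z hz
      have hz' : aeval z (minpoly ℚ s) = 0 := (mem_rootSet.1 hz).2
      rcases starB_conj hβ h2 hs h hz' with h3 | h3 | h3
      · exact Or.inl h3
      · exact Or.inr h3
      · exact absurd h3 (hno z hz')
    have hle : ((minpoly ℚ s).rootSet ℂ).ncard ≤ 2 :=
      (Set.ncard_le_ncard hsub (Set.toFinite _)).trans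
        ((Set.ncard_insert_le _ _).trans (by rw [Set.ncard_singleton]))
    have h3 := starB_deg hβ hs h
    rw [← hcard, ← Nat.card_eq_fintype_card] at h3
    have h4 : Nat.card ((minpoly ℚ s).rootSet ℂ) = ((minpoly ℚ s).rootSet ℂ).ncard := rfl
    omega

end SalemAb
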