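import Pool.Agent.Lib.MP_9599cf_nt.AbsMain
import Pool.Agent.Lib.MP_9599cf_nt.DichMain
import Pool.Agent.Lib.MP_9599cf_nt.DatK
import Pool.Agent.Lib.MP_9599cf_nt.FieldK
import Pool.Agent.Lib.MP_9599cf_nt.StarB

/-! # The least Salem number with abelian trace field -/

set_option autoImplicit false

namespace SalemAb

open Polynomial IntermediateField NumberField

/-- Assembly (captain). -/
theorem lower {t : ℝ} (h : IsSalem t) (hc : CyclotomicTrace t) :
    0 ≤ (t + t⁻¹) ^ 3 - 2 * (t + t⁻¹) ^ 2 - (t + t⁻¹) + 1 := by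
  by_contra hlt
  push Not at hlt
  obtain ⟨m, hm, ζ, hζ, hmem⟩ := hc
  obtain ⟨hgal, hcomm, hemb⟩ := trace_field hm hζ hmem
  have hfd : FiniteDimensional ℚ ℚ⟮t + t⁻¹⟯ :=
    IntermediateField.adjoin.finiteDimensional
      ((isIntegral_trace h).tower_top)
  have : NumberField ℚ⟮t + t⁻¹⟯ := { to_charZero := inferInstance, to_finiteDimensional := hfd }
  have : Fact (Nat.Prime 5) := ⟨by norm_num⟩
  have : Fact (Nat.Prime 7) := ⟨by norm_num⟩
  have : Fact (Nat.Prime 11) := ⟨by norm_num⟩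
  exact (dat_of_salem h hcomm hlt).false (dich_of_emb _ m hm hemb 5) (dich_of_emb _ m hm hemb 7)
    (dich_of_emb _ m hm hemb 11)

/-- Assembly (captain). -/
theorem main : ∃ s : ℝ, IsSalem s ∧ CyclotomicTrace s ∧
    s + s⁻¹ = 1 + 2 * Real.cos (2 * Real.pi / 7) ∧
    s ^ 6 - 2 * s ^ 5 + 2 * s ^ 4 - 3 * s ^ 3 + 2 * s ^ 2 - 2 * s + 1 = 0 ∧
    ∀ t : ℝ, IsSalem t → CyclotomicTrace t → s ≤ t := by
  obtain ⟨hβ, h2⟩ := star_eq
  obtain ⟨β, hβd⟩ : ∃ β, β = 1 + 2 * Real.cos (2 * Real.pi / 7) := ⟨_, rfl⟩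
  rw [← hβd] at hβ h2 ⊢
  have hd : 0 < β ^ 2 - 4 := by nlinarith
  obtain ⟨r, hr⟩ : ∃ r, r = √(β ^ 2 - 4) := ⟨_, rfl⟩
  have hr0 : 0 < r := by rw [hr]; exact Real.sqrt_pos.2 hd
  have hr2 : r ^ 2 = β ^ 2 - 4 := by rw [hr]; exact Real.sq_sqrt hd.le
  obtain ⟨s, hs⟩ : ∃ s, s = (β + r) / 2 := ⟨_, rfl⟩
  have hs1 : 1 < s := by rw [hs]; linarith
  have hs0 : s ≠ 0 := by linarith
  have hq : s ^ 2 - β * s + 1 = 0 := by
    rw [hs]; nlinarith
  have htr : s + s⁻¹ = β := by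
    field_simp
    linarith
  refine ⟨s, star_isSalem hβ h2 hs1 htr, ?_, htr, ?_, ?_⟩
  · refine ⟨7, by norm_num, Complex.exp (2 * Real.pi * Complex.I / 7), ?_, ?_⟩
    · have := Complex.isPrimitiveRoot_exp 7 (by norm_num)
      exact_mod_cast this
    · rw [htr, hβd]
      have h1 : ((1 + 2 * Real.cos (2 * Real.pi / 7) : ℝ) : ℂ) =
          1 + Complex.exp (2 * Real.pi * Complex.I / 7) +
            (Complex.exp (2 * Real.pi * Complex.I / 7))⁻¹ := by
        push_cast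
        rw [Complex.cos, ← Complex.exp_neg]
        have e1 : (2 * (Real.pi : ℂ) / 7) * Complex.I = 2 * Real.pi * Complex.I / 7 := by ring
        have e2 : -(2 * (Real.pi : ℂ) / 7) * Complex.I = -(2 * Real.pi * Complex.I / 7) := by ring
        rw [e1, e2]
        ring
      rw [h1]
      have hz := IntermediateField.mem_adjoin_simple_self ℚ
        (Complex.exp (2 * Real.pi * Complex.I / 7))
      exact add_mem (add_mem (one_mem _) hz) (inv_mem hz)
  · have e : s ^ 6 - 2 * s ^ 5 + 2 * s ^ 4 - 3 * s ^ 3 + 2 * s ^ 2 - 2 * s + 1 =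
        s ^ 3 * ((s + s⁻¹) ^ 3 - 2 * (s + s⁻¹) ^ 2 - (s + s⁻¹) + 1) := by
      field_simp
      ring
    rw [e, htr, hβ, mul_zero]
  · intro t ht hc
    by_contra hlt
    push Not at hlt
    have ht1 : 1 < t := ht.2.1
    have h3 := lower ht hc
    obtain ⟨γ, hγ⟩ : ∃ γ, γ = t + t⁻¹ := ⟨_, rfl⟩
    rw [← hγ] at h3
    have ht0 : 0 < t := by linarith
    have hγ2 : 2 < γ := by
      rw [hγ]
      have h5 : 0 < (t - 1) ^ 2 / t := by
        have : (t - 1) ^ 2 ≠ 0 := pow_ne_zero 2 (by linarith)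
        positivity
      have h6 : t + t⁻¹ - 2 = (t - 1) ^ 2 / t := by field_simp; ring
      linarith
    have hγβ : γ < β := by
      rw [hγ, ← htr]
      have h5 : s + s⁻¹ - (t + t⁻¹) = (s - t) * (s * t - 1) / (s * t) := by
        field_simp
        ring
      have h6 : 0 < (s - t) * (s * t - 1) / (s * t) := by
        have h7 : 0 < s * t := by positivity
        have h8 : 1 < s * t := by nlinarith
        have h9 : 0 < s - t := by linarith
        have h10 : 0 < s * t - 1 := by linarith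
        positivity
      linarith
    have h7 : β ^ 3 - 2 * β ^ 2 - β + 1 - (γ ^ 3 - 2 * γ ^ 2 - γ + 1) =
        (β - γ) * (β ^ 2 + β * γ + γ ^ 2 - 2 * (β + γ) - 1) := by ring
    have h8 : 0 < (β - γ) * (β ^ 2 + β * γ + γ ^ 2 - 2 * (β + γ) - 1) := by
      apply mul_pos (by linarith)
      nlinarith
    linarith

end SalemAb
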