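import Pool.Agent.Lib.MP_9599cf_nt.Defs

/-!
# MP_9599cf_nt: the data without an upper bound for the trace
-/

set_option autoImplicit false

namespace SalemAb

/-- The data of a Salem number with abelian trace field, as in `Dat`, without the upper bound. -/
structure DatG (A Γ : Type) [CommRing A] [Group Γ] [MulSemiringAction Γ A] (ι : A →+* ℝ)
    (b : A) : Prop where
  comm : ∀ σ τ : Γ, σ * τ = τ * σ
  inj : Function.Injective ι
  fixed : ∀ u : A, (∀ σ : Γ, σ • u = u) → ∃ n : ℤ, u = n
  gt : 2 < ι b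
  small : ∀ σ : Γ, σ ≠ 1 → |ι (σ • b)| ≤ 2

end SalemAb
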