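import Pool.Agent.Lib.MP_9599cf_nt.DatK
import Pool.Agent.Lib.MP_9599cf_nt.GDefs

/-! # The data of a Salem number, no upper bound -/

set_option autoImplicit false

namespace SalemAb

open Polynomial IntermediateField NumberField

/-- PROOF. `fixed`: an element of `ℚ⟮β⟯` fixed by the Galois group is rational
(`IsGalois.mem_bot_iff_fixed` or `IsGalois` API), and an algebraic integer. `gt`: `β > 2` as `t > 1`. `small`: `σ • β` is a root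
of the minimal polynomial of `β`, so `β` or of absolute value at most two (`trace_conj`); if it is `β` then `σ = 1`
(`AdjoinSimple.gen` generates). -/
theorem datG_of_salem {t : ℝ} (h : IsSalem t) [IsGalois ℚ ℚ⟮t + t⁻¹⟯]
    (hcomm : ∀ σ τ : ℚ⟮t + t⁻¹⟯ ≃ₐ[ℚ] ℚ⟮t + t⁻¹⟯, σ * τ = τ * σ) :
    DatG (𝓞 ℚ⟮t + t⁻¹⟯) (ℚ⟮t + t⁻¹⟯ ≃ₐ[ℚ] ℚ⟮t + t⁻¹⟯) (emO (t + t⁻¹))
      (genO (isIntegral_trace h)) := by
  have hβ : IsIntegral ℤ (t + t⁻¹) := isIntegral_trace h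
  obtain ⟨β, hβe⟩ : ∃ β : ℝ, β = t + t⁻¹ := ⟨_, rfl⟩
  have ht : 1 < t := h.2.1
  have hgt : 2 < t + t⁻¹ := by
    have h1 : t + t⁻¹ - 2 = (t - 1) ^ 2 / t := by
      field_simp
      ring
    have h2 : 0 < (t - 1) ^ 2 / t := by
      have : 0 < t - 1 := by linarith
      positivity
    linarith
  have hem : emO (t + t⁻¹) (genO hβ) = t + t⁻¹ := by
    show ((AdjoinSimple.gen ℚ (t + t⁻¹) : ℚ⟮t + t⁻¹⟯) : ℝ) = t + t⁻¹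
    exact AdjoinSimple.coe_gen ℚ _
  have hinj : Function.Injective (emO (t + t⁻¹)) :=
    (algebraMap ℚ⟮t + t⁻¹⟯ ℝ).injective.comp RingOfIntegers.coe_injective
  refine ⟨hcomm, hinj, ?_, ?_, ?_⟩
  · intro u hu
    have h1 : ∀ σ : ℚ⟮t + t⁻¹⟯ ≃ₐ[ℚ] ℚ⟮t + t⁻¹⟯, σ (u : ℚ⟮t + t⁻¹⟯) = (u : ℚ⟮t + t⁻¹⟯) := by
      intro σ
      exact congrArg (fun x : 𝓞 ℚ⟮t + t⁻¹⟯ => (x : ℚ⟮t + t⁻¹⟯)) (hu σ)
    have h2 : (u : ℚ⟮t + t⁻¹⟯) ∈ (⊥ : IntermediateField ℚ ℚ⟮t + t⁻¹⟯) :=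
      (InfiniteGalois.mem_bot_iff_fixed _).2 h1
    rw [IntermediateField.mem_bot] at h2
    obtain ⟨r, hr⟩ := h2
    have h3 : IsIntegral ℤ r := by
      have h4 : IsIntegral ℤ (algebraMap ℚ ℚ⟮t + t⁻¹⟯ r) := by
        rw [hr]
        exact RingOfIntegers.isIntegral_coe u
      exact (isIntegral_algebraMap_iff (algebraMap ℚ ℚ⟮t + t⁻¹⟯).injective).1 h4
    obtain ⟨n, hn⟩ := IsIntegrallyClosed.isIntegral_iff.1 h3
    refine ⟨n, RingOfIntegers.coe_injective ?_⟩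
    show (u : ℚ⟮t + t⁻¹⟯) = algebraMap (𝓞 ℚ⟮t + t⁻¹⟯) ℚ⟮t + t⁻¹⟯ (n : 𝓞 ℚ⟮t + t⁻¹⟯)
    rw [← hr, ← hn]
    simp
  · rw [hem]; exact hgt
  · intro σ hσ
    have h1 : emO (t + t⁻¹) (σ • genO hβ) =
        algebraMap ℚ⟮t + t⁻¹⟯ ℝ (σ (AdjoinSimple.gen ℚ (t + t⁻¹))) := rfl
    have h2 : aeval (emO (t + t⁻¹) (σ • genO hβ)) (minpoly ℚ (t + t⁻¹)) = 0 := by
      have h3 : minpoly ℚ (t + t⁻¹) = minpoly ℚ (AdjoinSimple.gen ℚ (t + t⁻¹)) :=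
        (minpoly_gen ℚ (t + t⁻¹)).symm
      rw [h1, aeval_algebraMap_apply, h3]
      have h4 : aeval (σ (AdjoinSimple.gen ℚ (t + t⁻¹)))
          (minpoly ℚ (AdjoinSimple.gen ℚ (t + t⁻¹))) =
          σ (aeval (AdjoinSimple.gen ℚ (t + t⁻¹)) (minpoly ℚ (AdjoinSimple.gen ℚ (t + t⁻¹)))) :=
        aeval_algHom_apply (σ : ℚ⟮t + t⁻¹⟯ →ₐ[ℚ] ℚ⟮t + t⁻¹⟯) _ _
      rw [h4, minpoly.aeval, map_zero, map_zero]
    rcases trace_conj h _ h2 with h5 | h5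
    · exfalso
      apply hσ
      have h6 : σ (AdjoinSimple.gen ℚ (t + t⁻¹)) = AdjoinSimple.gen ℚ (t + t⁻¹) := by
        apply (algebraMap ℚ⟮t + t⁻¹⟯ ℝ).injective
        rw [← h1, h5]
        exact (AdjoinSimple.coe_gen ℚ (t + t⁻¹)).symm
      have h7 : (σ : ℚ⟮t + t⁻¹⟯ →ₐ[ℚ] ℚ⟮t + t⁻¹⟯) = AlgHom.id ℚ _ := by
        apply adjoin_algHom_ext
        intro x hx
        rw [Set.mem_singleton_iff] at hx
        subst hx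
        exact h6
      ext1 x
      exact DFunLike.congr_fun h7 x
    · exact h5

end SalemAb
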