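import Mathlib

/-! # Dickson polynomials of prime degree -/

set_option autoImplicit false

namespace SalemAb

open Polynomial

/-- The Dickson polynomial `D_n`: `D_n (z + 1 / z) = z ^ n + 1 / z ^ n`. -/
noncomputable def Dk (n : ℕ) : ℤ[X] := dickson 1 (1 : ℤ) n

theorem aeval_Dk {R : Type*} [CommRing R] (x y : R) (h : x * y = 1) (n : ℕ) :
    aeval (x + y) (Dk n) = x ^ n + y ^ n := by
  have h1 := dickson_one_one_eval_add_inv x y h n
  rw [← h1, Dk, aeval_def, eval₂_eq_eval_map, map_dickson]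
  simp

theorem Dk_le {v : ℝ} (hv : |v| ≤ 2) (n : ℕ) : |aeval v (Dk n)| ≤ 2 := by
  rw [abs_le] at hv
  obtain ⟨θ, hθ⟩ : ∃ θ, θ = Real.arccos (v / 2) := ⟨_, rfl⟩
  have hcos : Real.cos θ = v / 2 := by
    rw [hθ]; exact Real.cos_arccos (by linarith) (by linarith)
  obtain ⟨z, hz⟩ : ∃ z, z = Complex.exp (θ * Complex.I) := ⟨_, rfl⟩
  have hz1 : ‖z‖ = 1 := by rw [hz]; exact Complex.norm_exp_ofReal_mul_I θ
  have hz0 : z ≠ 0 := by rw [hz]; exact Complex.exp_ne_zero _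
  have hsum : z + z⁻¹ = (v : ℂ) := by
    have h1 : (v : ℂ) = 2 * Complex.cos θ := by
      rw [← Complex.ofReal_cos, hcos]; push_cast; ring
    rw [h1, hz, Complex.cos, ← Complex.exp_neg, neg_mul]
    ring
  have h2 := aeval_Dk z z⁻¹ (mul_inv_cancel₀ hz0) n
  rw [hsum] at h2
  have h3 : ((aeval v (Dk n) : ℝ) : ℂ) = z ^ n + z⁻¹ ^ n := by
    rw [← h2]
    have h4 := aeval_algebraMap_apply ℂ v (Dk n)
    simpa using h4.symm
  have h5 : |aeval v (Dk n)| = ‖((aeval v (Dk n) : ℝ) : ℂ)‖ := by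
    rw [Complex.norm_real, Real.norm_eq_abs]
  rw [h5, h3]
  refine (norm_add_le _ _).trans ?_
  rw [norm_pow, norm_pow, norm_inv, hz1]
  norm_num

theorem lt_Dk {t : ℝ} (ht : 1 < t) {n : ℕ} (hn : 2 ≤ n) : t + t⁻¹ < aeval (t + t⁻¹) (Dk n) := by
  have h0 : 0 < t := by linarith
  rw [aeval_Dk t t⁻¹ (mul_inv_cancel₀ h0.ne')]
  have h1 : t < t ^ n := by
    calc t = t ^ 1 := (pow_one t).symm
      _ < t ^ n := pow_lt_pow_right₀ ht (by omega)
  have h2 : 0 < t ^ n := by positivity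
  have h3 : t ^ n + t⁻¹ ^ n - (t + t⁻¹) = (t ^ n - t) * (t ^ n * t - 1) / (t ^ n * t) := by
    rw [inv_pow]
    field_simp
    ring
  have h4 : 0 < (t ^ n - t) * (t ^ n * t - 1) / (t ^ n * t) := by
    have h5 : 0 < t ^ n * t - 1 := by nlinarith
    have h6 : 0 < t ^ n - t := by linarith
    positivity
  linarith

theorem dvd_Dk {A : Type} [CommRing A] (p : ℕ) [Fact p.Prime] (x : A) :
    (p : A) ∣ aeval x (Dk p) - x ^ p := by
  have h1 : (Dk p).map (Int.castRingHom (ZMod p)) = X ^ p := by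
    rw [Dk, map_dickson]
    simpa using dickson_one_one_zmod_p p
  have h2 : (Dk p - X ^ p).map (Int.castRingHom (ZMod p)) = 0 := by
    rw [Polynomial.map_sub, h1]
    simp
  have h3 : (C (p : ℤ)) ∣ Dk p - X ^ p := by
    rw [Polynomial.C_dvd_iff_dvd_coeff]
    intro i
    have h4 := congrArg (fun q => Polynomial.coeff q i) h2
    simp only [coeff_map, coeff_zero] at h4
    rw [eq_intCast, ZMod.intCast_zmod_eq_zero_iff_dvd] at h4
    exact h4
  obtain ⟨Q, hQ⟩ := h3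
  refine ⟨aeval x Q, ?_⟩
  have h5 : aeval x (Dk p - X ^ p) = aeval x (C (p : ℤ) * Q) := by rw [hQ]
  rw [map_sub, map_mul, map_pow, aeval_X] at h5
  rw [h5]
  simp

end SalemAb
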