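import Pool.Agent.Lib.MP_9599cf_nt.GDefs

/-! # The norm, for the data without an upper bound -/

set_option autoImplicit false

namespace SalemAb

open Polynomial

variable {A Γ : Type} [CommRing A] [Group Γ] [MulSemiringAction Γ A] {ι : A →+* ℝ} {b : A}

theorem DatG.one_le_prod [Fintype Γ] (D : DatG A Γ ι b) {x : A} (hx : x ≠ 0) :
    1 ≤ ∏ σ : Γ, |ι (σ • x)| := by
  obtain ⟨u, hu⟩ : ∃ u : A, u = ∏ σ : Γ, σ • x := ⟨_, rfl⟩
  have hfix : ∀ τ : Γ, τ • u = u := by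
    intro τ
    rw [hu, Finset.smul_prod']
    have h1 : ∏ σ : Γ, τ • σ • x = ∏ σ : Γ, (fun ρ : Γ => ρ • x) (Equiv.mulLeft τ σ) := by
      refine Finset.prod_congr rfl fun σ _ => ?_
      simp [smul_smul]
    rw [h1, Equiv.prod_comp (Equiv.mulLeft τ) (fun ρ : Γ => ρ • x)]
  obtain ⟨n, hn⟩ := D.fixed u hfix
  have h2 : ι u = ∏ σ : Γ, ι (σ • x) := by
    rw [hu, map_prod]
  have h3 : ∏ σ : Γ, |ι (σ • x)| = |ι u| := by
    rw [h2, Finset.abs_prod]
  have h4 : ι u ≠ 0 := by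
    rw [h2, Finset.prod_ne_zero_iff]
    intro σ _ h0
    have h5 : σ • x = 0 := D.inj (by rw [h0, map_zero])
    have h6 : σ⁻¹ • σ • x = 0 := by rw [h5, smul_zero]
    rw [inv_smul_smul] at h6
    exact hx h6
  rw [h3, hn, map_intCast]
  rw [hn, map_intCast] at h4
  have h7 : n ≠ 0 := by
    rintro rfl
    exact h4 (by simp)
  have h8 : (1 : ℤ) ≤ |n| := Int.one_le_abs h7
  exact_mod_cast h8

theorem DatG.pow_le_prod [Fintype Γ] (D : DatG A Γ ι b) {x : A} (hx : x ≠ 0) {p : ℕ}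
    (h : (p : A) ∣ x) : (p : ℝ) ^ Fintype.card Γ ≤ ∏ σ : Γ, |ι (σ • x)| := by
  obtain ⟨z, rfl⟩ := h
  have hz : z ≠ 0 := by
    rintro rfl
    exact hx (mul_zero _)
  have h1 := D.one_le_prod hz
  have h2 : ∏ σ : Γ, |ι (σ • ((p : A) * z))| = (p : ℝ) ^ Fintype.card Γ * ∏ σ : Γ, |ι (σ • z)| := by
    rw [← Finset.card_univ, ← Finset.prod_const, ← Finset.prod_mul_distrib]
    refine Finset.prod_congr rfl fun σ _ => ?_
    have h3 : σ • ((p : A) * z) = (p : A) * (σ • z) := by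
      rw [smul_mul']
      congr 1
      exact map_natCast (MulSemiringAction.toRingHom Γ A σ) p
    rw [h3, map_mul, map_natCast, abs_mul, abs_of_nonneg (by positivity : (0 : ℝ) ≤ (p : ℝ))]
  rw [h2]
  have h4 : (0 : ℝ) ≤ (p : ℝ) ^ Fintype.card Γ := by positivity
  nlinarith

end SalemAb
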