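import Pool.Agent.Lib.MP_9599cf_nt.GIneqU
import Pool.Agent.Lib.MP_9599cf_nt.GIneqR
import Pool.Agent.Lib.MP_9599cf_nt.GDatK
import Pool.Agent.Lib.MP_9599cf_nt.GDick
import Pool.Agent.Lib.MP_9599cf_nt.DichMain
import Pool.Agent.Lib.MP_9599cf_nt.FieldK

/-! # An explicit lower bound in terms of the degree of the trace field -/

set_option autoImplicit false

namespace SalemAb

open Polynomial IntermediateField NumberField

theorem DatG.main {A Γ : Type} [CommRing A] [Group Γ] [MulSemiringAction Γ A] {ι : A →+* ℝ}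
    {b : A} [Fintype Γ] (D : DatG A Γ ι b) (p : ℕ) [Fact p.Prime] (h : Dich A Γ p)
    (hb : ι b < aeval (ι b) (Dk p)) :
    16 * (p : ℝ) ^ Fintype.card Γ ≤
      4 ^ Fintype.card Γ * (aeval (ι b) (Dk p) + 2) ^ 2 := by
  have hgt := D.gt
  have hle : ∀ v : ℝ, |v| ≤ 2 → |aeval v (Dk p)| ≤ 2 := fun v hv => Dk_le hv p
  rcases h with ⟨s, hs⟩ | ⟨s, hs1, hs, -⟩
  · have h1 : (p : A) ∣ aeval b (Dk p) - s • b := by
      have e : aeval b (Dk p) - s • b = (aeval b (Dk p) - b ^ p) + (b ^ p - s • b) := by ring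
      rw [e]
      exact dvd_add (dvd_Dk p b) (hs b)
    have h2 := D.ineqU (Dk p) hle hb p s h1
    refine h2.trans (mul_le_mul_of_nonneg_left ?_ (by positivity))
    nlinarith
  · have h1 : (p : A) ∣ aeval b (Dk p) - aeval (s • b) (Dk p) := by
      have e : aeval b (Dk p) - aeval (s • b) (Dk p) =
          (aeval b (Dk p) - b ^ p) + (b ^ p - (s • b) ^ p) -
            (aeval (s • b) (Dk p) - (s • b) ^ p) := by ring
      rw [e]
      exact dvd_sub (dvd_add (dvd_Dk p b) (hs b)) (dvd_Dk p (s • b))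
    exact D.ineqR (Dk p) hle hb p s hs1 h1

/-- Growth: for a Salem number `t` with abelian trace field of degree `d` and every prime `p`,
`16 p ^ d ≤ 4 ^ d (t ^ p + 1 / t ^ p + 2) ^ 2`. -/
theorem growth {t : ℝ} (h : IsSalem t) (hc : CyclotomicTrace t) (p : ℕ) (hp : p.Prime) :
    16 * (p : ℝ) ^ (minpoly ℚ (t + t⁻¹)).natDegree ≤
      4 ^ (minpoly ℚ (t + t⁻¹)).natDegree * (t ^ p + t⁻¹ ^ p + 2) ^ 2 := by
  obtain ⟨m, hm, ζ, hζ, hmem⟩ := hc
  obtain ⟨hgal, hcomm, hemb⟩ := trace_field hm hζ hmem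
  have hint : IsIntegral ℚ (t + t⁻¹) := (isIntegral_trace h).tower_top
  have hfd : FiniteDimensional ℚ ℚ⟮t + t⁻¹⟯ :=
    IntermediateField.adjoin.finiteDimensional hint
  have : NumberField ℚ⟮t + t⁻¹⟯ := { to_charZero := inferInstance, to_finiteDimensional := hfd }
  have : Fact (Nat.Prime p) := ⟨hp⟩
  have ht : 1 < t := h.2.1
  have h0 : t ≠ 0 := by linarith
  have hem : emO (t + t⁻¹) (genO (isIntegral_trace h)) = t + t⁻¹ := by
    show ((AdjoinSimple.gen ℚ (t + t⁻¹) : ℚ⟮t + t⁻¹⟯) : ℝ) = t + t⁻¹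
    exact AdjoinSimple.coe_gen ℚ _
  have h1 := (datG_of_salem h hcomm).main p (dich_of_emb _ m hm hemb p)
    (by rw [hem]; exact lt_Dk ht hp.two_le)
  rw [hem, aeval_Dk t t⁻¹ (mul_inv_cancel₀ h0)] at h1
  have hcard : Fintype.card (ℚ⟮t + t⁻¹⟯ ≃ₐ[ℚ] ℚ⟮t + t⁻¹⟯) =
      (minpoly ℚ (t + t⁻¹)).natDegree := by
    rw [← IntermediateField.adjoin.finrank hint, ← IsGalois.card_aut_eq_finrank,
      Nat.card_eq_fintype_card]
  rw [hcard] at h1
  exact h1

end SalemAb
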