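import Pool.Agent.Lib.MP_9599cf_nt.Norm

/-! # The main inequalities -/

set_option autoImplicit false

namespace SalemAb

open Polynomial

variable {A Γ : Type} [CommRing A] [Group Γ] [MulSemiringAction Γ A] {ι : A →+* ℝ} {b : A}

theorem ineqU_aeval_hom {R S : Type} [CommRing R] [CommRing S] (φ : R →+* S) (x : R) (P : ℤ[X]) :
    φ (aeval x P) = aeval (φ x) P := by
  have h := Polynomial.aeval_algHom_apply φ.toIntAlgHom x P
  simpa using h.symm

/-- PROOF. `x = P(b) - s • b` is not zero: `ι x = P(β) - ι (s • b)`, `P(β) > β > 2`, and `ι (s • b)` is `β` or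
at most `2`. By `pow_le_prod` it suffices to bound the product of `f σ = |ι (σ • x)|
= |P(v σ) - v (σ * s)|`, `v σ = ι (σ • b)` (`σ • aeval b P = aeval (σ • b) P`: `σ` acts by ring
homomorphisms). `f σ ≤ 4 a(σ) c(σ)` with `a(1) = (P(β)+2)/4`, `c(s⁻¹) = (β+2)/4` and all other values `1`
(if `s = 1`: `f 1 = P(β) - β ≤ 4 (P(β)+2)/4 (β+2)/4` as `β + 2 ≥ 4`). `Finset.prod_mul_distrib`,
`Finset.prod_ite_eq`. -/
theorem Dat.ineqU [Fintype Γ] (D : Dat A Γ ι b) (P : ℤ[X])
    (hP : ∀ v : ℝ, |v| ≤ 2 → |aeval v P| ≤ 2) (hb : ι b < aeval (ι b) P) (p : ℕ) (s : Γ)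
    (h : (p : A) ∣ aeval b P - s • b) :
    16 * (p : ℝ) ^ Fintype.card Γ ≤
      4 ^ Fintype.card Γ * ((aeval (ι b) P + 2) * (ι b + 2)) := by
  classical
  have hgt := D.gt
  have hsm : ∀ σ : Γ, ι (σ • (aeval b P - s • b)) = aeval (ι (σ • b)) P - ι ((σ * s) • b) := by
    intro σ
    have h1 : σ • aeval b P = aeval (σ • b) P :=
      ineqU_aeval_hom (MulSemiringAction.toRingHom Γ A σ) b P
    rw [smul_sub, map_sub, smul_smul, h1, ineqU_aeval_hom]
  obtain ⟨Q, hQ⟩ : ∃ Q : ℝ, Q = aeval (ι b) P := ⟨_, rfl⟩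
  obtain ⟨β, hβ⟩ : ∃ β : ℝ, β = ι b := ⟨_, rfl⟩
  have hQβ : β < Q := by rw [hQ, hβ]; exact hb
  have hβ2 : 2 < β := by rw [hβ]; exact hgt
  have hx : aeval b P - s • b ≠ 0 := by
    intro h0
    have h1 := hsm 1
    rw [h0, smul_zero, map_zero, one_smul, one_mul, ← hQ] at h1
    by_cases hs : s = 1
    · rw [hs, one_smul, ← hβ] at h1
      linarith
    · have h2 := D.small s hs
      rw [abs_le] at h2
      linarith [h2.2]
  have hkey : ∀ σ : Γ, |ι (σ • (aeval b P - s • b))| ≤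
      4 * ((if σ = 1 then (Q + 2) / 4 else 1) * (if σ = s⁻¹ then (β + 2) / 4 else 1)) := by
    intro σ
    rw [hsm σ]
    by_cases h1 : σ = 1
    · by_cases h2 : σ = s⁻¹
      · rw [if_pos h1, if_pos h2]
        have h3 : σ * s = 1 := by rw [h2, inv_mul_cancel]
        rw [h3, h1, one_smul, ← hQ, ← hβ, abs_of_pos (by linarith)]
        nlinarith
      · rw [if_pos h1, if_neg h2]
        have h3 : σ * s ≠ 1 := fun h => h2 (eq_inv_of_mul_eq_one_left h)
        have h4 := D.small _ h3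
        rw [h1, one_smul, ← hQ] at *
        rw [abs_le] at h4 ⊢
        constructor <;> linarith [h4.1, h4.2]
    · have h5 := hP _ (D.small σ h1)
      by_cases h2 : σ = s⁻¹
      · rw [if_neg h1, if_pos h2]
        have h3 : σ * s = 1 := by rw [h2, inv_mul_cancel]
        rw [h3, one_smul, ← hβ]
        rw [abs_le] at h5 ⊢
        constructor <;> linarith [h5.1, h5.2]
      · rw [if_neg h1, if_neg h2]
        have h3 : σ * s ≠ 1 := fun h => h2 (eq_inv_of_mul_eq_one_left h)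
        have h4 := D.small _ h3
        rw [abs_le] at h4 h5 ⊢
        constructor <;> linarith [h4.1, h4.2, h5.1, h5.2]
  have hprod : ∏ σ : Γ, |ι (σ • (aeval b P - s • b))| ≤
      4 ^ Fintype.card Γ * (((Q + 2) / 4) * ((β + 2) / 4)) := by
    refine (Finset.prod_le_prod (fun σ _ => abs_nonneg _) (fun σ _ => hkey σ)).trans (le_of_eq ?_)
    rw [Finset.prod_mul_distrib, Finset.prod_mul_distrib, Finset.prod_const, Finset.card_univ,
      Finset.prod_ite_eq' Finset.univ (1 : Γ) (fun _ => (Q + 2) / 4),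
      Finset.prod_ite_eq' Finset.univ s⁻¹ (fun _ => (β + 2) / 4), if_pos (Finset.mem_univ _),
      if_pos (Finset.mem_univ _)]
  have hfin := (D.pow_le_prod hx h).trans hprod
  rw [← hQ, ← hβ]
  linarith

end SalemAb
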