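import Pool.Agent.Lib.MP_9599cf_nt.Defs

/-! # The norm -/

set_option autoImplicit false

namespace SalemAb

open Polynomial

variable {A Γ : Type} [CommRing A] [Group Γ] [MulSemiringAction Γ A] {ι : A →+* ℝ} {b : A}

/-- PROOF. `u = ∏ σ, σ • x` is fixed by all `τ` (reindex the product, `Finset.smul_prod'` or
`smul_prod'`), so `u = n` for an integer `n` (`D.fixed`); `n ≠ 0` because `A` is a domain (embedded in
`ℝ`) and `σ • x ≠ 0`; `ι u = ∏ ι (σ • x)`, so the product of the absolute values is `|n| ≥ 1`. -/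
theorem Dat.one_le_prod [Fintype Γ] (D : Dat A Γ ι b) {x : A} (hx : x ≠ 0) :
    1 ≤ ∏ σ : Γ, |ι (σ • x)| := by
  classical
  obtain ⟨n, hn⟩ : ∃ n : ℤ, (∏ σ : Γ, σ • x) = n := by
    apply D.fixed
    intro τ
    rw [Finset.smul_prod']
    have h1 : (∏ σ : Γ, τ • σ • x) = ∏ σ : Γ, (fun σ : Γ => σ • x) ((Equiv.mulLeft τ) σ) := by
      apply Finset.prod_congr rfl
      intro σ _
      simp only [Equiv.coe_mulLeft, mul_smul]
    rw [h1]
    exact Equiv.prod_comp (Equiv.mulLeft τ) (fun σ : Γ => σ • x)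
  have h2 : ι (∏ σ : Γ, σ • x) = (n : ℝ) := by
    rw [hn]
    simp
  have h3 : (∏ σ : Γ, |ι (σ • x)|) = |(n : ℝ)| := by
    rw [← h2, map_prod, Finset.abs_prod]
  have h4 : ι (∏ σ : Γ, σ • x) ≠ 0 := by
    rw [map_prod, Finset.prod_ne_zero_iff]
    intro σ _ h5
    apply hx
    have h6 : σ • x = 0 := D.inj (by rw [h5, map_zero])
    have h7 : σ⁻¹ • σ • x = 0 := by rw [h6, smul_zero]
    rwa [inv_smul_smul] at h7
  rw [h3]
  have h8 : n ≠ 0 := by
    intro h9
    apply h4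
    rw [h2, h9]
    simp
  have h10 : (1 : ℤ) ≤ |n| := Int.one_le_abs h8
  have h11 : ((1 : ℤ) : ℝ) ≤ ((|n| : ℤ) : ℝ) := by exact_mod_cast h10
  simpa using h11

/-- PROOF. `x = p z`, `σ • x = p (σ • z)`, and `one_le_prod` for `z`. -/
theorem Dat.pow_le_prod [Fintype Γ] (D : Dat A Γ ι b) {x : A} (hx : x ≠ 0) {p : ℕ}
    (h : (p : A) ∣ x) : (p : ℝ) ^ Fintype.card Γ ≤ ∏ σ : Γ, |ι (σ • x)| := by
  obtain ⟨z, rfl⟩ := h
  have hz : z ≠ 0 := by
    intro h0
    apply hx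
    rw [h0, mul_zero]
  have h1 : ∀ σ : Γ, |ι (σ • ((p : A) * z))| = (p : ℝ) * |ι (σ • z)| := by
    intro σ
    have h2 : σ • (p : A) = (p : A) := by
      exact map_natCast (MulSemiringAction.toRingHom Γ A σ) p
    rw [smul_mul', h2, map_mul, map_natCast, abs_mul, Nat.abs_cast]
  simp only [h1]
  rw [Finset.prod_mul_distrib, Finset.prod_const, Finset.card_univ]
  have h4 := D.one_le_prod hz
  have h5 : (0 : ℝ) ≤ (p : ℝ) ^ Fintype.card Γ := by positivity
  nlinarith [mul_le_mul_of_nonneg_left h4 h5]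

/-- `b` is fixed only by `1` (`small` and `gt`). -/
theorem Dat.eq_one_of_smul (D : Dat A Γ ι b) {σ : Γ} (h : σ • b = b) : σ = 1 := by
  by_contra hne
  have h1 := D.small σ hne
  rw [h] at h1
  have h2 := D.gt
  have h3 := le_abs_self (ι b)
  linarith

end SalemAb
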