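import Pool.Agent.Lib.MP_9599cf_nt.Defs

/-! # Elements fixed by the inertia group -/

set_option autoImplicit false

namespace SalemAb

open NumberField

/-- An automorphism of the inertia group with given action on the `p`-th roots of unity. -/
theorem exists_inertia_aut (L : Type) [Field L] [NumberField L] (n p : ℕ) [NeZero n]
    [Fact p.Prime] [NeZero (p * n)] [IsCyclotomicExtension {p * n} ℚ L] {ζ : L}
    (hζ : IsPrimitiveRoot ζ (p * n)) (hpn : ¬ p ∣ n) (i : ℕ) (hi : Nat.Coprime i p) :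
    ∃ σ : L ≃ₐ[ℚ] L, σ (ζ ^ p) = ζ ^ p ∧
      σ • (hζ.toInteger ^ n) = (hζ.toInteger ^ n) ^ i := by
  have hp : p.Prime := Fact.out
  have hcop : Nat.Coprime p n := (Nat.Prime.coprime_iff_not_dvd hp).2 hpn
  obtain ⟨a, ha1, ha2⟩ := Nat.chineseRemainder hcop i 1
  have hcop1 : Nat.Coprime a p := by
    have := ha1.gcd_eq
    rw [Nat.coprime_iff_gcd_eq_one, this]
    exact hi
  have hcop2 : Nat.Coprime a n := by
    have := ha2.gcd_eq
    rw [Nat.coprime_iff_gcd_eq_one, this]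
    simp
  have hcopa : Nat.Coprime a (p * n) := Nat.Coprime.mul_right hcop1 hcop2
  let u : (ZMod (p * n))ˣ := ZMod.unitOfCoprime a hcopa
  let σ : L ≃ₐ[ℚ] L := (IsCyclotomicExtension.Rat.galEquivZMod (p * n) L).symm u
  have hσ : IsCyclotomicExtension.Rat.galEquivZMod (p * n) L σ = u :=
    MulEquiv.apply_symm_apply _ _
  have hval : ((IsCyclotomicExtension.Rat.galEquivZMod (p * n) L σ).val).val = a % (p * n) := by
    rw [hσ, ZMod.coe_unitOfCoprime, ZMod.val_natCast]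
  have hpow : ζ ^ (p * n) = 1 := hζ.pow_eq_one
  have h1 : (ζ ^ p) ^ n = 1 := by rw [← pow_mul]; exact hpow
  have hint : hζ.toInteger ^ (p * n) = 1 := hζ.toInteger_isPrimitiveRoot.pow_eq_one
  have h3 : (hζ.toInteger ^ n) ^ p = 1 := by rw [← pow_mul, mul_comm n p]; exact hint
  refine ⟨σ, ?_, ?_⟩
  · have h2 : (ζ ^ p) ^ (p * n) = 1 := by rw [mul_comm p n, pow_mul, h1, one_pow]
    rw [IsCyclotomicExtension.Rat.galEquivZMod_apply_of_pow_eq (p * n) L σ h2, hval]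
    have h4 : a % (p * n) ≡ 1 [MOD n] :=
      ((Nat.mod_modEq a (p * n)).of_dvd (Dvd.intro_left p rfl)).trans ha2
    have h5 := pow_eq_pow_of_modEq h4 h1
    rw [h5, pow_one]
  · have h2 : (hζ.toInteger ^ n) ^ (p * n) = 1 := by rw [pow_mul, h3, one_pow]
    rw [IsCyclotomicExtension.Rat.galEquivZMod_smul_of_pow_eq (p * n) L σ h2, hval]
    have h4 : a % (p * n) ≡ i [MOD p] :=
      ((Nat.mod_modEq a (p * n)).of_dvd (Dvd.intro n rfl)).trans ha1
    exact pow_eq_pow_of_modEq h4 h3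

/-- PROOF. Let `I` be the finite set of all `σ` with `σ (ζ ^ p) = ζ ^ p`. For `1 ≤ i ≤ p - 1` there is `σ ∈ I` with
`σ (ζ ^ n) = (ζ ^ n) ^ i` (Chinese remainder theorem, `IsCyclotomicExtension.autEquivPow`), and these are different, so
`∏_{σ ∈ I'} σ • (1 - ζ ^ n) = ∏_{i=1}^{p-1} (1 - (ζ ^ n) ^ i) = p` for the set `I'` of these `p - 1` elements
(`ζ ^ n` is a primitive `p`-th root of unity, `Polynomial.cyclotomic_prime`, `eval_one_cyclotomic_prime`,
`IsPrimitiveRoot.prod_one_sub_pow_eq_order` or similar). As `w = (1 - ζ ^ n) z` is fixed by `I'`,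
`w ^ (p - 1) = ∏_{σ ∈ I'} σ • w` is divisible by `p`. -/
theorem dvd_pow_of_fixed (L : Type) [Field L] [NumberField L] (n p : ℕ) [NeZero n]
    [Fact p.Prime] [NeZero (p * n)] [IsCyclotomicExtension {p * n} ℚ L] {ζ : L}
    (hζ : IsPrimitiveRoot ζ (p * n)) (hpn : ¬ p ∣ n) (w : 𝓞 L)
    (hw : ∀ σ : L ≃ₐ[ℚ] L, σ (ζ ^ p) = ζ ^ p → σ • w = w)
    (h : (1 - hζ.toInteger ^ n) ∣ w) : (p : 𝓞 L) ∣ w ^ (p - 1) := by
  have hp : p.Prime := Fact.out
  obtain ⟨z, hz⟩ := h
  have hprim : IsPrimitiveRoot (hζ.toInteger ^ n) p :=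
    hζ.toInteger_isPrimitiveRoot.pow (Nat.pos_of_ne_zero (NeZero.ne (p * n))) (mul_comm p n)
  have hdvd : ∀ k ∈ Finset.range (p - 1), (1 - (hζ.toInteger ^ n) ^ (k + 1)) ∣ w := by
    intro k hk
    have hk' : k + 1 < p := by have := Finset.mem_range.1 hk; omega
    have hcop : Nat.Coprime (k + 1) p :=
      ((Nat.Prime.coprime_iff_not_dvd hp).2
        (fun hd => absurd (Nat.le_of_dvd (Nat.succ_pos k) hd) (by omega))).symm
    obtain ⟨σ, hσ1, hσ2⟩ := exists_inertia_aut L n p hζ hpn (k + 1) hcop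
    refine ⟨σ • z, ?_⟩
    have h1 := hw σ hσ1
    calc w = σ • w := h1.symm
      _ = σ • ((1 - hζ.toInteger ^ n) * z) := by rw [← hz]
      _ = (1 - (hζ.toInteger ^ n) ^ (k + 1)) * σ • z := by
        rw [smul_mul', smul_sub, smul_one, hσ2]
  have hprod := Finset.prod_dvd_prod_of_dvd _ _ hdvd
  rw [Finset.prod_const, Finset.card_range] at hprod
  have hp1 : p - 1 + 1 = p := Nat.sub_add_cancel hp.one_le
  have hprim' : IsPrimitiveRoot (hζ.toInteger ^ n) (p - 1 + 1) := by rw [hp1]; exact hprim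
  have hcalc := hprim'.prod_one_sub_pow_eq_order
  rw [hcalc] at hprod
  have hcast : ((p - 1 : ℕ) : 𝓞 L) + 1 = (p : 𝓞 L) := by
    exact_mod_cast congrArg (Nat.cast : ℕ → 𝓞 L) hp1
  rwa [hcast] at hprod

end SalemAb
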