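import Pool.Agent.Lib.MP_9599cf_nt.Defs

/-! # Conjugates of Salem numbers -/

set_option autoImplicit false

namespace SalemAb

open Polynomial

private theorem salemA_reverse {P : ℚ[X]} {x : ℂ} (hx : x ≠ 0) :
    aeval x⁻¹ P.reverse = 0 ↔ aeval x P = 0 := by
  let : Invertible x := invertibleOfNonzero hx
  have h := eval₂_reverse_eq_zero_iff (algebraMap ℚ ℂ) x P
  rw [invOf_eq_inv] at h
  rw [aeval_def, aeval_def]
  exact h

private theorem salemA_conj {P : ℚ[X]} {x : ℂ} (hx : aeval x P = 0) :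
    aeval ((starRingEnd ℂ) x) P = 0 := by
  have h := aeval_algHom_apply (RingHom.toRatAlgHom (starRingEnd ℂ)) x P
  rw [hx, map_zero] at h
  exact h

/-- PROOF. Some root `z₀` of the minimal polynomial `P` of `t` has `‖z₀‖ = 1`, and `1 / z₀` is its complex conjugate, a root
too. So the reversed polynomial (`Polynomial.reverse`, roots `1 / z` for the roots `z ≠ 0` of `P`) has the root `z₀`; as `P` is
irreducible, `P` is the minimal polynomial of `z₀` over `ℚ` and divides its reverse. So `1 / z` is a root of `P` for every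
root `z` of `P`. If `z ≠ t` and `1 / z ≠ t`, then `‖z‖ ≤ 1` and `‖1 / z‖ ≤ 1`, so `‖z‖ = 1`. -/
theorem salem_roots {t : ℝ} (h : IsSalem t) (z : ℂ) (hz : aeval z (minpoly ℚ t) = 0) :
    z = (t : ℂ) ∨ z = (t : ℂ)⁻¹ ∨ ‖z‖ = 1 := by
  obtain ⟨hint, h1, hle, z₀, hz0, hn⟩ := h
  have hintQ : IsIntegral ℚ t := hint.tower_top
  have hirr := minpoly.irreducible hintQ
  have hmon := minpoly.monic hintQ
  have hz0ne : z₀ ≠ 0 := by
    rintro rfl
    rw [norm_zero] at hn
    exact zero_ne_one hn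
  have hP : minpoly ℚ t = minpoly ℚ z₀ := minpoly.eq_of_irreducible_of_monic hirr hz0 hmon
  have hinv : aeval z₀⁻¹ (minpoly ℚ t) = 0 := by
    rw [Complex.inv_eq_conj hn]
    exact salemA_conj hz0
  have hrev : aeval z₀ (minpoly ℚ t).reverse = 0 := by
    have := (salemA_reverse (P := minpoly ℚ t) (inv_ne_zero hz0ne)).mpr hinv
    rwa [inv_inv] at this
  have hdvd : minpoly ℚ t ∣ (minpoly ℚ t).reverse := by
    have h2 := minpoly.dvd ℚ z₀ hrev
    rwa [← hP] at h2
  have hintz : IsIntegral ℚ z₀ := ⟨minpoly ℚ t, hmon, by rw [← aeval_def]; exact hz0⟩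
  have hzne : z ≠ 0 := by
    rintro rfl
    have h3 := minpoly.coeff_zero_ne_zero hintz hz0ne
    rw [← hP] at h3
    apply h3
    have h4 : aeval (0 : ℂ) (minpoly ℚ t) = algebraMap ℚ ℂ ((minpoly ℚ t).coeff 0) := by
      rw [aeval_def, eval₂_at_zero]
    rw [h4] at hz
    exact (map_eq_zero (algebraMap ℚ ℂ)).mp hz
  have hzrev : aeval z (minpoly ℚ t).reverse = 0 := by
    obtain ⟨Q, hQ⟩ := hdvd
    rw [hQ, map_mul, hz, zero_mul]
  have hzinv : aeval z⁻¹ (minpoly ℚ t) = 0 := by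
    rw [← salemA_reverse (inv_ne_zero hzne), inv_inv]
    exact hzrev
  by_cases hzt : z = (t : ℂ)
  · exact Or.inl hzt
  by_cases hzt' : z⁻¹ = (t : ℂ)
  · right
    left
    rw [← hzt', inv_inv]
  right
  right
  have h5 := hle z hz hzt
  have h6 := hle z⁻¹ hzinv hzt'
  rw [norm_inv] at h6
  have h7 : 0 < ‖z‖ := norm_pos_iff.mpr hzne
  have h8 : 1 ≤ ‖z‖ := by
    rw [inv_le_one₀ h7] at h6
    exact h6
  exact le_antisymm h5 h8

end SalemAb
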