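import Pool.Agent.Lib.MP_9599cf_nt.SalemA

/-! # Conjugates of Salem traces -/

set_option autoImplicit false

namespace SalemAb

open Polynomial

/-- PROOF. There is a `ℚ`-embedding of `ℚ⟮t + t⁻¹⟯` in `ℂ` which maps `t + t⁻¹` to `y`; extend it to an embedding of
`ℚ⟮t⟯` (algebraic over it; or: `ℚ⟮t⟯` as a whole, `Field` lifting lemmas such as `IntermediateField.exists_algHom_of_splits`,
`IsAlgClosed.lift`), let `z` be the image of `t`: a root of `minpoly ℚ t` with `z + z⁻¹ = y`. (Another way: the product of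
`X ^ 2 - y X + 1` ... ) Use `salem_roots`: if `z = t` or `z = t⁻¹` then `y = t + t⁻¹`; if `‖z‖ = 1` then
`z⁻¹ = conj z`, `y = 2 re z`, `|y| ≤ 2`. -/
theorem trace_conj {t : ℝ} (h : IsSalem t) (y : ℝ)
    (hy : aeval y (minpoly ℚ (t + t⁻¹)) = 0) : y = t + t⁻¹ ∨ |y| ≤ 2 := by
  have hint : IsIntegral ℚ t := h.1.tower_top
  have halg : Algebra.IsAlgebraic ℚ (IntermediateField.adjoin ℚ {t}) :=
    IntermediateField.isAlgebraic_adjoin_simple hint
  let g : IntermediateField.adjoin ℚ {t} := IntermediateField.AdjoinSimple.gen ℚ t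
  have hg : algebraMap (IntermediateField.adjoin ℚ {t}) ℝ g = t :=
    IntermediateField.AdjoinSimple.algebraMap_gen ℚ t
  have hx : algebraMap (IntermediateField.adjoin ℚ {t}) ℝ (g + g⁻¹) = t + t⁻¹ := by
    rw [map_add, map_inv₀, hg]
  have hmin : minpoly ℚ (g + g⁻¹) = minpoly ℚ (t + t⁻¹) := by
    rw [← hx]
    exact (minpoly.algebraMap_eq (FaithfulSMul.algebraMap_injective _ _) _).symm
  have hyC : aeval (y : ℂ) (minpoly ℚ (g + g⁻¹)) = 0 := by
    rw [hmin]
    have h1 := congrArg (algebraMap ℝ ℂ) hy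
    rw [← aeval_algebraMap_apply, map_zero] at h1
    exact h1
  obtain ⟨ψ, hψ⟩ := IntermediateField.exists_algHom_of_splits_of_aeval
    (F := ℚ) (E := IntermediateField.adjoin ℚ {t}) (K := ℂ)
    (fun s => ⟨(halg.isAlgebraic s).isIntegral, IsAlgClosed.splits _⟩) hyC
  have hz : aeval (ψ g) (minpoly ℚ t) = 0 := by
    have h1 : minpoly ℚ g = minpoly ℚ t := IntermediateField.minpoly_gen ℚ t
    rw [← h1, aeval_algHom_apply, minpoly.aeval, map_zero]
  have hyz : (y : ℂ) = ψ g + (ψ g)⁻¹ := by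
    rw [← hψ, map_add, map_inv₀]
  rcases salem_roots h (ψ g) hz with h1 | h1 | h1
  · left
    rw [h1] at hyz
    have h2 : (y : ℂ) = ((t + t⁻¹ : ℝ) : ℂ) := by
      rw [hyz]
      push_cast
      rfl
    exact Complex.ofReal_injective h2
  · left
    rw [h1, inv_inv] at hyz
    have h2 : (y : ℂ) = ((t + t⁻¹ : ℝ) : ℂ) := by
      rw [hyz]
      push_cast
      ring
    exact Complex.ofReal_injective h2
  · right
    have h2 : ‖(y : ℂ)‖ ≤ 2 := by
      rw [hyz]
      refine (norm_add_le _ _).trans ?_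
      rw [norm_inv, h1]
      norm_num
    rwa [Complex.norm_real, Real.norm_eq_abs] at h2

end SalemAb
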