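import Pool.Agent.Lib.MP_9599cf_nt.Defs

/-! # The number `1.6355731…` -/

set_option autoImplicit false

namespace SalemAb

open Polynomial

/-- PROOF. With `c = 2 cos (2 π / 7)`, `ω = exp (2 π i / 7)`, `c = ω + ω⁻¹`, `c³ + c² - 2 c - 1 = 0`
(from `1 + ω + … + ω⁶ = 0`), and `β = 1 + c`. `c > 1` because `2 π / 7 < π / 3`. -/
theorem star_eq : (1 + 2 * Real.cos (2 * Real.pi / 7)) ^ 3
      - 2 * (1 + 2 * Real.cos (2 * Real.pi / 7)) ^ 2 - (1 + 2 * Real.cos (2 * Real.pi / 7)) + 1 = 0
    ∧ 2 < 1 + 2 * Real.cos (2 * Real.pi / 7) := by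
  have hpi := Real.pi_pos
  constructor
  · set θ : ℝ := 2 * Real.pi / 7 with hθ
    have hs : Real.sin θ ≠ 0 := by
      refine ne_of_gt (Real.sin_pos_of_pos_of_lt_pi ?_ ?_)
      · rw [hθ]
        positivity
      · rw [hθ]
        linarith
    have h1 : Real.sin (2 * (2 * θ)) = -Real.sin (3 * θ) := by
      have e : 2 * (2 * θ) = -(3 * θ) + 2 * Real.pi := by
        rw [hθ]
        ring
      rw [e, Real.sin_add_two_pi, Real.sin_neg]
    rw [Real.sin_two_mul, Real.sin_two_mul, Real.cos_two_mul, Real.sin_three_mul] at h1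
    have h2 := Real.sin_sq_add_cos_sq θ
    have h3 : Real.sin θ * (8 * Real.cos θ ^ 3 + 4 * Real.cos θ ^ 2 - 4 * Real.cos θ - 1) = 0 := by
      linear_combination h1 + 4 * Real.sin θ * h2
    have h4 := (mul_eq_zero.1 h3).resolve_left hs
    linear_combination h4
  · have h1 : Real.cos (Real.pi / 3) < Real.cos (2 * Real.pi / 7) := by
      refine Real.cos_lt_cos_of_nonneg_of_le_pi ?_ ?_ ?_
      · positivity
      · linarith
      · linarith
    rw [Real.cos_pi_div_three] at h1
    linarith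

end SalemAb
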